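import Pool.Agent.DRB.Targets

set_option autoImplicit false

open Matrix

namespace Pool.Agent.DRB

namespace TMUL_

/-- Product matrices multiply factorwise. -/
theorem prod_mul {I : Type} [Fintype I] [DecidableEq I] (a : ℕ)
    (A B : Fin a → Matrix I I ℂ) :
    (Matrix.of fun F G : Fin a → I => ∏ t, A t (F t) (G t)) *
      (Matrix.of fun F G : Fin a → I => ∏ t, B t (F t) (G t)) =
      Matrix.of fun F G : Fin a → I => ∏ t, (A t * B t) (F t) (G t) := by
  ext F G
  simp only [Matrix.mul_apply, Matrix.of_apply]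
  rw [Fintype.prod_sum (fun t j => A t (F t) j * B t j (G t))]
  exact Finset.sum_congr rfl fun H _ => Finset.prod_mul_distrib.symm

/-- Tensor powers are multiplicative. -/
theorem tpow_mul {I : Type} [Fintype I] [DecidableEq I] (a : ℕ) (M M' : Matrix I I ℂ) :
    tpow a M * tpow a M' = tpow a (M * M') :=
  prod_mul a (fun _ => M) (fun _ => M')

/-- Tensor powers of the identity. -/
theorem tpow_one {I : Type} [DecidableEq I] (a : ℕ) :
    tpow a (1 : Matrix I I ℂ) = 1 := by
  ext F G
  simp only [tpow, Matrix.of_apply]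
  by_cases h : F = G
  · subst h
    simp
  · rw [Matrix.one_apply_ne h]
    obtain ⟨t, ht⟩ := Function.ne_iff.mp h
    exact Finset.prod_eq_zero (Finset.mem_univ t) (Matrix.one_apply_ne ht)

end TMUL_

theorem p_TMUL : T_TMUL := by
  intro I _ _ r a c c' M M'
  refine ⟨?_, ?_⟩
  · unfold tens
    rw [← Matrix.blockDiagonal'_mul]
    congr 1
    funext i
    rw [Matrix.smul_mul, Matrix.mul_smul, smul_smul, TMUL_.tpow_mul]
  · unfold tens
    have h : (fun i : Fin r => (1 : Fin r → ℂ) i • tpow (a i) (1 : Matrix I I ℂ)) =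
        (1 : ∀ i : Fin r, Matrix (Fin (a i) → I) (Fin (a i) → I) ℂ) := by
      funext i
      rw [TMUL_.tpow_one, Pi.one_apply, one_smul]
      rfl
    rw [h]
    exact Matrix.blockDiagonal'_one

end Pool.Agent.DRB
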