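import Mathlib

/-!
# Sub-de Rham-Betti structures of tensor constructions: targets
-/

set_option autoImplicit false

open Matrix

namespace Pool.Agent.DRB

/-! ### Definitions -/

/-- the complexification of a rational subspace -/
def cx {J : Type} (W : Submodule ℚ (J → ℚ)) : Submodule ℂ (J → ℂ) :=
  Submodule.span ℂ ((fun w : J → ℚ => fun j => (w j : ℂ)) '' (W : Set (J → ℚ)))

/-- the image of a subspace under a matrix -/
def im {J : Type} [Fintype J] (M : Matrix J J ℂ) (U : Submodule ℂ (J → ℂ)) :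
    Submodule ℂ (J → ℂ) :=
  U.map M.mulVecLin

/-- rational matrices as complex matrices -/
abbrev toC {I : Type} (M : Matrix I I ℚ) : Matrix I I ℂ := M.map (fun x : ℚ => (x : ℂ))

/-- the index set of `⊕ i, V ^ ⊗ (a i)` -/
abbrev TI (I : Type) {r : ℕ} (a : Fin r → ℕ) : Type := (i : Fin r) × (Fin (a i) → I)

/-- the matrix of the tensor power `M ^ ⊗ a` -/
def tpow {I : Type} (a : ℕ) (M : Matrix I I ℂ) : Matrix (Fin a → I) (Fin a → I) ℂ :=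
  Matrix.of fun F G => ∏ t, M (F t) (G t)

/-- the matrix of the derivation of `V ^ ⊗ a` given by `X` -/
def dtpow {I : Type} [DecidableEq I] (a : ℕ) (X : Matrix I I ℂ) :
    Matrix (Fin a → I) (Fin a → I) ℂ :=
  Matrix.of fun F G => ∑ t, X (F t) (G t) *
    ∏ s ∈ Finset.univ.erase t, (1 : Matrix I I ℂ) (F s) (G s)

/-- the matrix of `⊕ i, c i • M ^ ⊗ (a i)` -/
def tens {I : Type} {r : ℕ} (a : Fin r → ℕ) (c : Fin r → ℂ) (M : Matrix I I ℂ) :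
    Matrix (TI I a) (TI I a) ℂ :=
  Matrix.blockDiagonal' fun i => c i • tpow (a i) M

/-- the matrix of `⊕ i, (x i + X)` on `⊕ i, V ^ ⊗ (a i)` -/
def dtens {I : Type} [DecidableEq I] {r : ℕ} (a : Fin r → ℕ) (x : Fin r → ℂ)
    (X : Matrix I I ℂ) : Matrix (TI I a) (TI I a) ℂ :=
  Matrix.blockDiagonal' fun i => x i • (1 : Matrix (Fin (a i) → I) (Fin (a i) → I) ℂ) +
    dtpow (a i) X

/-- the index set of `V = M_0 ⊕ ⊕ l, V_l` -/
abbrev Ix (k : ℕ) {n : ℕ} (d : Fin n → ℕ) : Type := Fin k ⊕ ((l : Fin n) × Fin (d l))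

/-- families of matrices, one for each `V_l` -/
abbrev Fam {n : ℕ} (d : Fin n → ℕ) : Type := ∀ l, Matrix (Fin (d l)) (Fin (d l)) ℂ

/-- block diagonal matrices on `V` -/
def tot {k n : ℕ} {d : Fin n → ℕ} (X0 : Matrix (Fin k) (Fin k) ℂ) (X : Fam d) :
    Matrix (Ix k d) (Ix k d) ℂ :=
  Matrix.fromBlocks X0 0 0 (Matrix.blockDiagonal' X)

/-- the symplectic group of `E` -/
def Sp {m : ℕ} (E : Matrix (Fin m) (Fin m) ℂ) : Set (Matrix (Fin m) (Fin m) ℂ) :=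
  {h | h * E * hᵀ = E}

/-- the Lie algebra of the group of symplectic similitudes of `E` -/
def gsp {m : ℕ} (E : Matrix (Fin m) (Fin m) ℂ) : Set (Matrix (Fin m) (Fin m) ℂ) :=
  {X | ∃ c : ℂ, X * E + E * Xᵀ = c • E}

/-- `E` is alternating and invertible -/
def Alt {m : ℕ} (E : Matrix (Fin m) (Fin m) ℂ) : Prop := Eᵀ = -E ∧ IsUnit E

/-- the logarithm of the transvection given by `v` -/
noncomputable def tv {m : ℕ} (E : Matrix (Fin m) (Fin m) ℂ) (v : Fin m → ℂ) :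
    Matrix (Fin m) (Fin m) ℂ :=
  Matrix.vecMulVec v v * E⁻¹

/-- the variables: `κ`, the entries of `Θ` and of its inverse, and those of the `Φ l` -/
abbrev Vars (k : ℕ) {n : ℕ} (d : Fin n → ℕ) : Type :=
  Option ((Fin k × Fin k) ⊕ (Fin k × Fin k)) ⊕ ((l : Fin n) × (Fin (d l) × Fin (d l)))

/-- the point with the given coordinates -/
def pt {k n : ℕ} {d : Fin n → ℕ} (κ : ℂ) (Θ Θ' : Matrix (Fin k) (Fin k) ℂ) (Φ : Fam d) :
    Vars k d → ℂ :=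
  Sum.elim (fun o => o.elim κ (Sum.elim (fun p => Θ p.1 p.2) (fun p => Θ' p.1 p.2)))
    (fun q => Φ q.1 q.2.1 q.2.2)

/-- the comparison matrices `Θ` of `M_0` and `Φ l` of `V_l`, with polarisations of `V_l` -/
structure Setup (k n : ℕ) (d : Fin n → ℕ) where
  /-- the period of the Tate structure -/
  κ : ℂ
  /-- the comparison matrix of `M_0` -/
  Θ : Matrix (Fin k) (Fin k) ℂ
  /-- its inverse -/
  Θ' : Matrix (Fin k) (Fin k) ℂ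
  /-- the de Rham forms -/
  Q : ∀ l, Matrix (Fin (d l)) (Fin (d l)) ℚ
  /-- the Betti forms -/
  E : ∀ l, Matrix (Fin (d l)) (Fin (d l)) ℚ
  /-- the comparison matrices -/
  Φ : Fam d
  hd : ∀ l, 1 ≤ d l
  hκ : κ ≠ 0
  hΘ : Θ * Θ' = 1
  hE : ∀ l, Alt (toC (E l))
  hQ : ∀ l, IsUnit (toC (Q l))
  rel : ∀ l, Φ l * toC (Q l) * (Φ l)ᵀ = κ • toC (E l)

/-- relations of degree at most `D` are stable under the product of the symplectic groups -/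
def BD {k n : ℕ} {d : Fin n → ℕ} (D : ℕ) (S : Setup k n d) : Prop :=
  ∀ P : MvPolynomial (Vars k d) ℚ, P.totalDegree ≤ D →
    MvPolynomial.aeval (pt S.κ S.Θ S.Θ' S.Φ) P = 0 →
    ∀ h : Fam d, (∀ l, h l ∈ Sp (toC (S.E l))) →
      MvPolynomial.aeval (pt S.κ S.Θ S.Θ' (fun l => h l * S.Φ l)) P = 0

/-- `(W, W')` is a sub-structure of `⊕ i, c i • V ^ ⊗ (a i)` -/
def IsSub {k n : ℕ} {d : Fin n → ℕ} (S : Setup k n d) {r : ℕ} (a : Fin r → ℕ)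
    (c : Fin r → ℂ) (W W' : Submodule ℚ (TI (Ix k d) a → ℚ)) : Prop :=
  (∀ i, c i ≠ 0) ∧ im (tens a c (tot S.Θ S.Φ)) (cx W) = cx W'

/-- `(x, X0, X)` preserves `W'` -/
def Pres {k n : ℕ} {d : Fin n → ℕ} {r : ℕ} (a : Fin r → ℕ)
    (W' : Submodule ℚ (TI (Ix k d) a → ℚ)) (x : Fin r → ℂ) (X0 : Matrix (Fin k) (Fin k) ℂ)
    (X : Fam d) : Prop :=
  ∀ v ∈ cx W', (dtens a x (tot X0 X)) *ᵥ v ∈ cx W'

/-- the group `F`: the elements of `Sp (E l0)` which, up to a scalar, extend to an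
automorphism of `W'` -/
def Fs {k n : ℕ} {d : Fin n → ℕ} {r : ℕ} (a : Fin r → ℕ)
    (W' : Submodule ℚ (TI (Ix k d) a → ℚ)) (E : ∀ l, Matrix (Fin (d l)) (Fin (d l)) ℚ)
    (l0 : Fin n) : Set (Matrix (Fin (d l0)) (Fin (d l0)) ℂ) :=
  {g | g ∈ Sp (toC (E l0)) ∧ ∃ (s : ℂ) (t : Fin r → ℂ) (G0 : Matrix (Fin k) (Fin k) ℂ)
    (G : Fam d), s ≠ 0 ∧ (∀ i, t i ≠ 0) ∧ IsUnit G0 ∧ (∀ l, IsUnit (G l)) ∧ G l0 = s • g ∧
    im (tens a t (tot G0 G)) (cx W') = cx W'}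

/-- `l0` is bad: the `l0`-components in `gsp` of the elements preserving `W'` are scalar -/
def Bad {k n : ℕ} {d : Fin n → ℕ} {r : ℕ} (a : Fin r → ℕ)
    (W' : Submodule ℚ (TI (Ix k d) a → ℚ)) (E : ∀ l, Matrix (Fin (d l)) (Fin (d l)) ℚ)
    (l0 : Fin n) : Prop :=
  ∀ x X0 X, Pres a W' x X0 X → X l0 ∈ gsp (toC (E l0)) → ∃ c : ℂ, X l0 = c • 1

/-! ### Linear algebra of tensor constructions -/

/-- TMUL: multiplicativity. -/
def T_TMUL : Prop := ∀ (I : Type) [Fintype I] [DecidableEq I] (r : ℕ) (a : Fin r → ℕ)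
  (c c' : Fin r → ℂ) (M M' : Matrix I I ℂ),
  tens a c M * tens a c' M' = tens a (fun i => c i * c' i) (M * M') ∧
  tens a 1 (1 : Matrix I I ℂ) = 1

/-- TCNJ: conjugation. -/
def T_TCNJ : Prop := ∀ (I : Type) [Fintype I] [DecidableEq I] (r : ℕ) (a : Fin r → ℕ)
  (c x : Fin r → ℂ) (M M' X : Matrix I I ℂ), M' * M = 1 →
  tens a c M * dtens a x X = dtens a x (M * X * M') * tens a c M

/-- TDER: derivations. -/
def T_TDER : Prop := ∀ (I : Type) [Fintype I] [DecidableEq I] (r : ℕ) (a : Fin r → ℕ)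
  (c : Fin r → ℂ) (M M' : Matrix I I ℂ) (δ : Derivation ℚ ℂ ℂ), M' * M = 1 →
  (∀ i, c i ≠ 0) →
  (tens a c M).map δ = dtens a (fun i => δ (c i) / c i) (M.map δ * M') * tens a c M

/-- TEXP: exponentials of elements of square zero. -/
def T_TEXP : Prop := ∀ (I : Type) [Fintype I] [DecidableEq I] (r : ℕ) (a : Fin r → ℕ)
  (N : Matrix I I ℂ) (U : Submodule ℂ (TI I a → ℂ)), N * N = 0 →
  (∀ v ∈ U, (dtens a 0 N) *ᵥ v ∈ U) → ∀ s : ℂ, ∀ v ∈ U, (tens a 1 (1 + s • N)) *ᵥ v ∈ U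

/-- LINR: `dtens` is linear. -/
def T_LINR : Prop := ∀ (I : Type) [Fintype I] [DecidableEq I] (r : ℕ) (a : Fin r → ℕ)
  (s : ℂ) (x y : Fin r → ℂ) (X Y : Matrix I I ℂ),
  dtens a (s • x + y) (s • X + Y) = s • dtens a x X + dtens a y Y

/-! ### Rational structures -/

/-- CXA: a vector is in `cx W` when all rational functionals that vanish on `W` kill it. -/
def T_CXA : Prop := ∀ (J : Type) [Fintype J] (W : Submodule ℚ (J → ℚ)) (v : J → ℂ),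
  v ∈ cx W ↔ ∀ s : J → ℚ, (∀ w ∈ W, ∑ j, s j * w j = 0) → ∑ j, (s j : ℂ) * v j = 0

/-- RATL: the solutions of rational linear equations are spanned by rational solutions. -/
def T_RATL : Prop := ∀ (J : Type) [Fintype J] (s : Set (J → ℚ)) (v : J → ℂ),
  (∀ u ∈ s, ∑ j, (u j : ℂ) * v j = 0) →
  v ∈ Submodule.span ℂ {w : J → ℂ | ∃ q : J → ℚ, (∀ u ∈ s, ∑ j, u j * q j = 0) ∧
    w = fun j => (q j : ℂ)}

/-- DRVL: derivations and rational subspaces. -/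
def T_DRVL : Prop := ∀ (J : Type) [Fintype J] [DecidableEq J] (W W' : Submodule ℚ (J → ℚ))
  (M M' : Matrix J J ℂ) (δ : Derivation ℚ ℂ ℂ), M' * M = 1 → im M (cx W) = cx W' →
  ∀ v ∈ cx W', (M.map δ * M') *ᵥ v ∈ cx W'

/-- SIGL: field automorphisms and rational subspaces. -/
def T_SIGL : Prop := ∀ (J : Type) [Fintype J] (W W' : Submodule ℚ (J → ℚ))
  (M : Matrix J J ℂ) (σ : ℂ ≃+* ℂ), im M (cx W) = cx W' → im (M.map σ) (cx W) = cx W'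

/-! ### The field of complex numbers -/

/-- FIXQ: numbers fixed by all automorphisms are rational. -/
def T_FIXQ : Prop := ∀ x : ℂ, (∀ σ : ℂ ≃+* ℂ, σ x = x) → ∃ q : ℚ, x = (q : ℂ)

/-- DERQ: numbers killed by all derivations are algebraic. -/
def T_DERQ : Prop := ∀ x : ℂ, (∀ δ : Derivation ℚ ℂ ℂ, δ x = 0) → IsAlgebraic ℚ x

/-- CSTR: a coordinate that takes only algebraic values on an algebraic set defined over `ℚ`
takes finitely many values. -/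
def T_CSTR : Prop := ∀ (ι : Type) [Fintype ι] (s : Set (MvPolynomial ι ℚ)) (i : ι),
  (∀ z : ι → ℂ, (∀ p ∈ s, MvPolynomial.aeval z p = 0) → IsAlgebraic ℚ (z i)) →
  {x : ℂ | ∃ z : ι → ℂ, (∀ p ∈ s, MvPolynomial.aeval z p = 0) ∧ z i = x}.Finite

/-! ### The symplectic group -/

/-- GENT: the symplectic group is generated by transvections. -/
def T_GENT : Prop := ∀ (m : ℕ) (E : Matrix (Fin m) (Fin m) ℂ), Alt E →
  ∀ G : Submonoid (Matrix (Fin m) (Fin m) ℂ),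
  (∀ (v : Fin m → ℂ) (s : ℂ), 1 + s • tv E v ∈ G) → ∀ h ∈ Sp E, h ∈ G

/-- TVSP: transvections are symplectic. -/
def T_TVSP : Prop := ∀ (m : ℕ) (E : Matrix (Fin m) (Fin m) ℂ), Alt E →
  ∀ (v : Fin m → ℂ) (s : ℂ), 1 + s • tv E v ∈ Sp E ∧ tv E v * tv E v = 0 ∧
    (1 + s • tv E v) * (1 - s • tv E v) = 1

/-- TRVS: a subspace stable under the symplectic groups which has an element with a nonscalar
`l0`-component in `gsp` contains all logarithms of transvections. -/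
def T_TRVS : Prop := ∀ (r k n : ℕ) (d : Fin n → ℕ) (E : Fam d) (l0 : Fin n), Alt (E l0) →
  ∀ U : Submodule ℂ ((Fin r → ℂ) × Matrix (Fin k) (Fin k) ℂ × Fam d),
  (∀ p ∈ U, ∀ h ∈ Sp (E l0),
    (p.1, p.2.1, Function.update p.2.2 l0 (h * p.2.2 l0 * h⁻¹)) ∈ U) →
  ∀ p ∈ U, p.2.2 l0 ∈ gsp (E l0) → (¬ ∃ c : ℂ, p.2.2 l0 = c • 1) →
  ∀ v : Fin (d l0) → ℂ, ((0 : Fin r → ℂ), (0 : Matrix (Fin k) (Fin k) ℂ),
    (Pi.single l0 (tv (E l0) v) : Fam d)) ∈ U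

/-- SCAL: a commutative space of matrices stable under the symplectic group is scalar. -/
def T_SCAL : Prop := ∀ (m : ℕ) (E : Matrix (Fin m) (Fin m) ℂ), Alt E →
  ∀ U : Submodule ℂ (Matrix (Fin m) (Fin m) ℂ), (∀ X ∈ U, ∀ h ∈ Sp E, h * X * h⁻¹ ∈ U) →
  (∀ X ∈ U, ∀ Y ∈ U, X * Y = Y * X) → ∀ X ∈ U, ∃ c : ℂ, X = c • 1

/-! ### Stability of the stabiliser -/

/-- ADST: the elements preserving `W'` are stable under the symplectic groups. -/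
def T_ADST : Prop := ∀ (k n : ℕ) (d : Fin n → ℕ) (S : Setup k n d), BD 3 S →
  ∀ (r : ℕ) (a : Fin r → ℕ) (c : Fin r → ℂ) (W W' : Submodule ℚ (TI (Ix k d) a → ℚ)),
  IsSub S a c W W' → ∀ x X0 X, Pres a W' x X0 X →
  ∀ h : Fam d, (∀ l, h l ∈ Sp (toC (S.E l))) →
    Pres a W' x X0 (fun l => h l * X l * (h l)⁻¹)

/-- DICH: either `l0` is bad or `W'` is stable under the `l0`-th symplectic group. -/
def T_DICH : Prop := ∀ (k n : ℕ) (d : Fin n → ℕ) (S : Setup k n d), BD 3 S →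
  ∀ (r : ℕ) (a : Fin r → ℕ) (c : Fin r → ℂ) (W W' : Submodule ℚ (TI (Ix k d) a → ℚ)),
  IsSub S a c W W' → ∀ l0 : Fin n, Bad a W' S.E l0 ∨
    ∀ h ∈ Sp (toC (S.E l0)),
      im (tens a 1 (tot 1 (Function.update 1 l0 h))) (cx W') = cx W'

/-! ### The finite group -/

/-- FGRP: `F` is a group stable under field automorphisms. -/
def T_FGRP : Prop := ∀ (k n : ℕ) (d : Fin n → ℕ) (r : ℕ) (a : Fin r → ℕ)
  (W' : Submodule ℚ (TI (Ix k d) a → ℚ)) (E : ∀ l, Matrix (Fin (d l)) (Fin (d l)) ℚ)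
  (l0 : Fin n), Alt (toC (E l0)) →
  (1 : Matrix (Fin (d l0)) (Fin (d l0)) ℂ) ∈ Fs a W' E l0 ∧
  (∀ f ∈ Fs a W' E l0, ∀ g ∈ Fs a W' E l0, f * g ∈ Fs a W' E l0) ∧
  (∀ f ∈ Fs a W' E l0, IsUnit f ∧ f⁻¹ ∈ Fs a W' E l0) ∧
  ∀ σ : ℂ ≃+* ℂ, ∀ f ∈ Fs a W' E l0, f.map σ ∈ Fs a W' E l0

/-- FSIG: the conjugates of the comparison matrix. -/
def T_FSIG : Prop := ∀ (k n : ℕ) (d : Fin n → ℕ) (S : Setup k n d)
  (r : ℕ) (a : Fin r → ℕ) (c : Fin r → ℂ) (W W' : Submodule ℚ (TI (Ix k d) a → ℚ)),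
  IsSub S a c W W' → ∀ (l0 : Fin n) (σ : ℂ ≃+* ℂ), ∃ g ∈ Fs a W' S.E l0, ∃ s : ℂ, s ≠ 0 ∧
    (S.Φ l0).map σ = s • (g * S.Φ l0)

/-- FALG: the entries of the elements of `F` are algebraic if `l0` is bad. -/
def T_FALG : Prop := ∀ (k n : ℕ) (d : Fin n → ℕ) (r : ℕ) (a : Fin r → ℕ)
  (W' : Submodule ℚ (TI (Ix k d) a → ℚ)) (E : ∀ l, Matrix (Fin (d l)) (Fin (d l)) ℚ)
  (l0 : Fin n), Alt (toC (E l0)) → 1 ≤ d l0 → Bad a W' E l0 →
  ∀ g ∈ Fs a W' E l0, ∀ i j, IsAlgebraic ℚ (g i j)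

/-- FFIN: if all entries of the elements of `F` are algebraic, then `F` is finite. -/
def T_FFIN : Prop := ∀ (k n : ℕ) (d : Fin n → ℕ) (r : ℕ) (a : Fin r → ℕ)
  (W' : Submodule ℚ (TI (Ix k d) a → ℚ)) (E : ∀ l, Matrix (Fin (d l)) (Fin (d l)) ℚ)
  (l0 : Fin n), (∀ g ∈ Fs a W' E l0, ∀ i j, IsAlgebraic ℚ (g i j)) →
  (Fs a W' E l0).Finite

/-! ### Jordan's theorem -/

/-- UNIT: finite groups of matrices are unitary for a suitable basis. -/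
def T_UNIT : Prop := ∀ (m : ℕ) (F : Finset (Matrix (Fin m) (Fin m) ℂ)), 1 ∈ F →
  (∀ f ∈ F, ∀ g ∈ F, f * g ∈ F) → (∀ f ∈ F, IsUnit f) →
  ∃ P : Matrix (Fin m) (Fin m) ℂ, IsUnit P ∧
    ∀ f ∈ F, P * f * P⁻¹ ∈ Matrix.unitaryGroup (Fin m) ℂ

open scoped Matrix.Norms.L2Operator in
/-- CMUT: commutators with a unitary matrix near `1`. -/
def T_CMUT : Prop := ∀ (m : ℕ) (x y : Matrix (Fin m) (Fin m) ℂ),
  x ∈ Matrix.unitaryGroup (Fin m) ℂ → y ∈ Matrix.unitaryGroup (Fin m) ℂ → ‖y - 1‖ < 1 →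
  (∃ N : ℕ, 0 < N ∧ x ^ N = 1) →
  x * (y * x * star y) = (y * x * star y) * x → x * y = y * x

open scoped Matrix.Norms.L2Operator in
/-- FROB: elements near `1` of a finite group of unitary matrices commute. -/
def T_FROB : Prop := ∀ (m : ℕ) (F : Finset (Matrix (Fin m) (Fin m) ℂ)), 1 ∈ F →
  (∀ f ∈ F, ∀ g ∈ F, f * g ∈ F) → (∀ f ∈ F, star f ∈ F) →
  (∀ f ∈ F, f ∈ Matrix.unitaryGroup (Fin m) ℂ) →
  ∀ x ∈ F, ∀ y ∈ F, ‖x - 1‖ < 1 / 2 → ‖y - 1‖ < 1 / 2 → x * y = y * x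

open scoped Matrix.Norms.L2Operator in
/-- PACK: a separated set of unitary matrices has bounded size. -/
def T_PACK : Prop := ∀ m : ℕ, ∃ J : ℕ, ∀ F : Finset (Matrix (Fin m) (Fin m) ℂ),
  (∀ f ∈ F, f ∈ Matrix.unitaryGroup (Fin m) ℂ) →
  (∀ f ∈ F, ∀ g ∈ F, f ≠ g → 1 / 2 ≤ ‖f - g‖) → F.card ≤ J

/-- JORD: Jordan's theorem. -/
def T_JORD : Prop := ∀ m : ℕ, ∃ J : ℕ, ∀ F : Finset (Matrix (Fin m) (Fin m) ℂ), 1 ∈ F →
  (∀ f ∈ F, ∀ g ∈ F, f * g ∈ F) → (∀ f ∈ F, IsUnit f ∧ f⁻¹ ∈ F) →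
  ∃ A : Finset (Matrix (Fin m) (Fin m) ℂ), A ⊆ F ∧ 1 ∈ A ∧ (∀ x ∈ A, ∀ y ∈ A, x * y ∈ A) ∧
    (∀ x ∈ A, x⁻¹ ∈ A) ∧
    (∀ x ∈ A, ∀ y ∈ A, x * y = y * x) ∧ (∀ x ∈ A, ∀ f ∈ F, f * x * f⁻¹ ∈ A) ∧
    F.card ≤ J * A.card

/-! ### The contradiction -/

/-- one comparison matrix with a finite group containing the conjugates of it -/
structure FinSys (m : ℕ) where
  /-- the period of the Tate structure -/
  κ : ℂ
  /-- the de Rham form -/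
  Q : Matrix (Fin m) (Fin m) ℚ
  /-- the Betti form -/
  E : Matrix (Fin m) (Fin m) ℚ
  /-- the comparison matrix -/
  Φ : Matrix (Fin m) (Fin m) ℂ
  /-- the finite group -/
  F : Finset (Matrix (Fin m) (Fin m) ℂ)
  hm : 1 ≤ m
  hκ : κ ≠ 0
  hE : Alt (toC E)
  hQ : IsUnit (toC Q)
  rel : Φ * toC Q * Φᵀ = κ • toC E
  one_mem : 1 ∈ F
  mul_mem : ∀ f ∈ F, ∀ g ∈ F, f * g ∈ F
  inv_mem : ∀ f ∈ F, IsUnit f ∧ f⁻¹ ∈ F
  sp_mem : ∀ f ∈ F, f ∈ Sp (toC E)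
  sig_mem : ∀ σ : ℂ ≃+* ℂ, ∀ f ∈ F, f.map σ ∈ F
  sig_phi : ∀ σ : ℂ ≃+* ℂ, ∃ g ∈ F, ∃ s : ℂ, s ≠ 0 ∧ Φ.map σ = s • (g * Φ)

/-- relations of degree at most `D` are stable under the symplectic group -/
def BD1 {m : ℕ} (D : ℕ) (S : FinSys m) : Prop :=
  ∀ P : MvPolynomial (Fin m × Fin m) ℚ, P.totalDegree ≤ D →
    MvPolynomial.aeval (fun p => S.Φ p.1 p.2) P = 0 → ∀ h ∈ Sp (toC S.E),
      MvPolynomial.aeval (fun p => (h * S.Φ) p.1 p.2) P = 0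

/-- COMR: rational operators commuting with `F` commute with the symplectic group. -/
def T_COMR : Prop := ∀ (m : ℕ) (S : FinSys m), BD1 2 S →
  ∀ b : Matrix (Fin m) (Fin m) ℂ →ₗ[ℂ] Matrix (Fin m) (Fin m) ℂ,
  (∀ X : Matrix (Fin m) (Fin m) ℚ, ∃ Y : Matrix (Fin m) (Fin m) ℚ, b (toC X) = toC Y) →
  (∀ f ∈ S.F, ∀ X, b (f * X * f⁻¹) = f * b X * f⁻¹) →
  ∀ h ∈ Sp (toC S.E), ∀ X, b (h * X * h⁻¹) = h * b X * h⁻¹

/-- COMM: operators commuting with `F` commute with the symplectic group. -/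
def T_COMM : Prop := ∀ (m : ℕ) (S : FinSys m), BD1 2 S →
  ∀ b : Matrix (Fin m) (Fin m) ℂ →ₗ[ℂ] Matrix (Fin m) (Fin m) ℂ,
  (∀ f ∈ S.F, ∀ X, b (f * X * f⁻¹) = f * b X * f⁻¹) →
  ∀ h ∈ Sp (toC S.E), ∀ X, b (h * X * h⁻¹) = h * b X * h⁻¹

/-- STAB: subspaces stable under `F` are stable under the symplectic group. -/
def T_STAB : Prop := ∀ (m : ℕ) (S : FinSys m), BD1 2 S →
  ∀ U : Submodule ℂ (Matrix (Fin m) (Fin m) ℂ), (∀ f ∈ S.F, ∀ X ∈ U, f * X * f⁻¹ ∈ U) →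
  ∀ h ∈ Sp (toC S.E), ∀ X ∈ U, h * X * h⁻¹ ∈ U

/-- CARD: `F` is small. -/
def T_CARD : Prop := ∀ m : ℕ, ∃ J : ℕ, ∀ S : FinSys m, BD1 2 S → S.F.card ≤ J

/-- MINP: the ratios of the entries of `Φ` satisfy polynomials of degree at most `|F|`. -/
def T_MINP : Prop := ∀ (m : ℕ) (S : FinSys m) (i k a : Fin m), S.Φ k a ≠ 0 →
  ∃ p : Polynomial ℚ, p.Monic ∧ p.natDegree ≤ S.F.card ∧
    Polynomial.aeval (S.Φ i a / S.Φ k a) p = 0

/-- HOMG: a relation between two entries gives a contradiction. -/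
def T_HOMG : Prop := ∀ (m : ℕ) (S : FinSys m) (D : ℕ), BD1 D S →
  (∀ i k a : Fin m, S.Φ k a ≠ 0 → ∃ p : Polynomial ℚ, p.Monic ∧ p.natDegree ≤ D ∧
    Polynomial.aeval (S.Φ i a / S.Φ k a) p = 0) → False

/-- MAIN: relations of bounded degree exclude finite groups. -/
def T_MAIN : Prop := ∀ m : ℕ, ∃ D : ℕ, ∀ S : FinSys m, BD1 D S → False

/-- CORE: relations of bounded degree determine all sub-structures. -/
def T_CORE : Prop := ∀ (n : ℕ) (d : Fin n → ℕ), ∃ D : ℕ, ∀ (k : ℕ) (S : Setup k n d),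
  BD D S → ∀ (r : ℕ) (a : Fin r → ℕ) (c : Fin r → ℂ)
    (W W' : Submodule ℚ (TI (Ix k d) a → ℚ)), IsSub S a c W W' →
    ∀ h : Fam d, (∀ l, h l ∈ Sp (toC (S.E l))) →
      im (tens a 1 (tot 1 h)) (cx W') = cx W'

end Pool.Agent.DRB
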