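import Mathlib
import Pool.Agent.DRB.Targets
import Pool.Agent.DRB.TMUL

/-!
# The elements preserving a sub-structure are stable under the symplectic groups
-/

set_option autoImplicit false

open Matrix

namespace Pool.Agent.DRB

namespace ADST_

/-! ### Rational linear functionals -/

/-- `f` is given by a rational vector -/
def RL {J : Type} [Fintype J] (f : (J → ℂ) → ℂ) : Prop :=
  ∃ u : J → ℚ, ∀ z, f z = ∑ j, (u j : ℂ) * z j

section RLsec

variable {J : Type} [Fintype J]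

lemma RL.zero : RL (fun _ : J → ℂ => (0 : ℂ)) := ⟨0, fun z => by simp⟩

lemma RL.add {f g : (J → ℂ) → ℂ} (hf : RL f) (hg : RL g) : RL (fun z => f z + g z) := by
  obtain ⟨u, hu⟩ := hf
  obtain ⟨v, hv⟩ := hg
  refine ⟨u + v, fun z => ?_⟩
  beta_reduce
  rw [hu, hv, ← Finset.sum_add_distrib]
  refine Finset.sum_congr rfl fun j _ => ?_
  rw [Pi.add_apply]
  push_cast
  ring

lemma RL.mul {f : (J → ℂ) → ℂ} (hf : RL f) (q : ℚ) : RL (fun z => (q : ℂ) * f z) := by
  obtain ⟨u, hu⟩ := hf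
  refine ⟨q • u, fun z => ?_⟩
  beta_reduce
  rw [hu, Finset.mul_sum]
  refine Finset.sum_congr rfl fun j _ => ?_
  rw [Pi.smul_apply, smul_eq_mul]
  push_cast
  ring

lemma RL.sum {ι : Type} (s : Finset ι) {f : ι → (J → ℂ) → ℂ} (hf : ∀ i ∈ s, RL (f i)) :
    RL (fun z => ∑ i ∈ s, f i z) := by
  classical
  induction s using Finset.induction_on with
  | empty => simpa using RL.zero
  | insert a s ha ih =>
    simp only [Finset.sum_insert ha]
    exact (hf a (Finset.mem_insert_self a s)).add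
      (ih fun i hi => hf i (Finset.mem_insert_of_mem hi))

lemma RL.coord (j : J) : RL (fun z : J → ℂ => z j) := by
  classical
  refine ⟨Pi.single j 1, fun z => ?_⟩
  rw [Finset.sum_eq_single j]
  · simp
  · intro b _ hb
    rw [Pi.single_eq_of_ne hb]
    simp
  · intro h
    exact absurd (Finset.mem_univ j) h

end RLsec

/-! ### Parameters -/

/-- the index set of the parameters -/
abbrev Pm (r k : ℕ) {n : ℕ} (d : Fin n → ℕ) : Type :=
  Fin r ⊕ ((Fin k × Fin k) ⊕ ((l : Fin n) × (Fin (d l) × Fin (d l))))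

variable {r k n : ℕ} {d : Fin n → ℕ}

/-- first component -/
def dx (z : Pm r k d → ℂ) : Fin r → ℂ := fun i => z (Sum.inl i)

/-- second component -/
def dX0 (z : Pm r k d → ℂ) : Matrix (Fin k) (Fin k) ℂ :=
  Matrix.of fun i j => z (Sum.inr (Sum.inl (i, j)))

/-- third component -/
def dX (z : Pm r k d → ℂ) : Fam d := fun l => Matrix.of fun i j => z (Sum.inr (Sum.inr ⟨l, (i, j)⟩))

/-- the vector of parameters -/
def enc (x : Fin r → ℂ) (X0 : Matrix (Fin k) (Fin k) ℂ) (X : Fam d) : Pm r k d → ℂ :=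
  Sum.elim x (Sum.elim (fun p => X0 p.1 p.2) (fun q => X q.1 q.2.1 q.2.2))

lemma dx_enc (x : Fin r → ℂ) (X0 : Matrix (Fin k) (Fin k) ℂ) (X : Fam d) :
    dx (enc x X0 X) = x := rfl

lemma dX0_enc (x : Fin r → ℂ) (X0 : Matrix (Fin k) (Fin k) ℂ) (X : Fam d) :
    dX0 (enc x X0 X) = X0 := rfl

lemma dX_enc (x : Fin r → ℂ) (X0 : Matrix (Fin k) (Fin k) ℂ) (X : Fam d) :
    dX (enc x X0 X) = X := rfl

lemma RL_tot (a b : Ix k d) : RL (fun z : Pm r k d → ℂ => tot (dX0 z) (dX z) a b) := by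
  unfold tot
  rcases a with p | ⟨l, p⟩ <;> rcases b with q | ⟨l', q⟩
  · exact RL.coord _
  · exact RL.zero
  · exact RL.zero
  · by_cases h : l = l'
    · subst h
      simp only [Matrix.fromBlocks_apply₂₂, Matrix.blockDiagonal'_apply_eq]
      exact RL.coord _
    · simp only [Matrix.fromBlocks_apply₂₂]
      have : ∀ z : Pm r k d → ℂ, Matrix.blockDiagonal' (dX z) ⟨l, p⟩ ⟨l', q⟩ = 0 :=
        fun z => Matrix.blockDiagonal'_apply_ne _ _ _ h
      simp only [this]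
      exact RL.zero

lemma RL_dtens (a : Fin r → ℕ) (F G : TI (Ix k d) a) :
    RL (fun z : Pm r k d → ℂ => dtens a (dx z) (tot (dX0 z) (dX z)) F G) := by
  obtain ⟨i, F⟩ := F
  obtain ⟨i', G⟩ := G
  unfold dtens
  by_cases h : i = i'
  · subst h
    simp only [Matrix.blockDiagonal'_apply_eq, Matrix.add_apply, Matrix.smul_apply, smul_eq_mul]
    have hone : ∀ (K : Type) [DecidableEq K] (u v : K), ∃ q : ℚ,
        ((1 : Matrix K K ℂ) u v) = (q : ℂ) := by
      intro K _ u v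
      by_cases h : u = v
      · exact ⟨1, by rw [h]; simp⟩
      · exact ⟨0, by simp [h]⟩
    apply RL.add
    · obtain ⟨q, hq⟩ := hone _ F G
      have := (RL.coord (J := Pm r k d) (Sum.inl i)).mul q
      simp only [hq]
      simpa [dx, mul_comm] using this
    · unfold dtpow
      simp only [Matrix.of_apply]
      apply RL.sum
      intro t _
      have hprod : ∃ q : ℚ, ∏ s ∈ Finset.univ.erase t, (1 : Matrix (Ix k d) (Ix k d) ℂ) (F s) (G s)
          = (q : ℂ) := by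
        choose f hf using fun s => hone (Ix k d) (F s) (G s)
        refine ⟨∏ s ∈ Finset.univ.erase t, f s, ?_⟩
        push_cast
        exact Finset.prod_congr rfl fun s _ => hf s
      obtain ⟨q, hq⟩ := hprod
      simp only [hq]
      have := (RL_tot (r := r) (F t) (G t)).mul q
      simpa [mul_comm] using this
  · have : ∀ z : Pm r k d → ℂ, Matrix.blockDiagonal' (fun i => (dx z) i •
        (1 : Matrix (Fin (a i) → Ix k d) (Fin (a i) → Ix k d) ℂ) +
        dtpow (a i) (tot (dX0 z) (dX z))) ⟨i, F⟩ ⟨i', G⟩ = 0 :=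
      fun z => Matrix.blockDiagonal'_apply_ne _ _ _ h
    simp only [this]
    exact RL.zero

/-- the condition to preserve a rational subspace is given by rational equations -/
lemma pres_iff (hC : T_CXA) (a : Fin r → ℕ) (W : Submodule ℚ (TI (Ix k d) a → ℚ)) :
    ∃ s : Set (Pm r k d → ℚ), ∀ z : Pm r k d → ℂ,
      Pres a W (dx z) (dX0 z) (dX z) ↔ ∀ u ∈ s, ∑ j, (u j : ℂ) * z j = 0 := by
  refine ⟨{u | ∃ w ∈ W, ∃ t : TI (Ix k d) a → ℚ, (∀ w' ∈ W, ∑ j, t j * w' j = 0) ∧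
    ∀ z : Pm r k d → ℂ, ∑ j, (u j : ℂ) * z j = ∑ j, (t j : ℂ) *
      ((dtens a (dx z) (tot (dX0 z) (dX z))) *ᵥ (fun i => (w i : ℂ))) j}, fun z => ⟨?_, ?_⟩⟩
  · rintro hP u ⟨w, hw, t, ht, hu⟩
    rw [hu z]
    exact (hC _ W _).1 (hP _ (Submodule.subset_span ⟨w, hw, rfl⟩)) t ht
  · intro hz v hv
    unfold cx at hv
    induction hv using Submodule.span_induction with
    | mem v hv =>
      obtain ⟨w, hw, rfl⟩ := hv
      rw [hC]
      intro t ht
      have hRL : RL (fun z : Pm r k d → ℂ => ∑ j, (t j : ℂ) *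
          ((dtens a (dx z) (tot (dX0 z) (dX z))) *ᵥ (fun i => (w i : ℂ))) j) := by
        apply RL.sum
        intro j _
        apply RL.mul
        unfold Matrix.mulVec dotProduct
        apply RL.sum
        intro i _
        have := (RL_dtens a j i).mul (w i)
        simpa [mul_comm] using this
      obtain ⟨u, hu⟩ := hRL
      have h1 := hz u ⟨w, hw, t, ht, fun z => (hu z).symm⟩
      rw [← hu z] at h1
      exact h1
    | zero => rw [mulVec_zero]; exact Submodule.zero_mem _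
    | add x y _ _ hx hy => rw [mulVec_add]; exact Submodule.add_mem _ hx hy
    | smul c x _ hx => rw [mulVec_smul]; exact Submodule.smul_mem _ _ hx

/-! ### Polynomial functions of bounded degree -/

/-- functions given by polynomials over `ℚ` of degree at most `D` -/
def PF {ι : Type} (D : ℕ) (f : (ι → ℂ) → ℂ) : Prop :=
  ∃ P : MvPolynomial ι ℚ, P.totalDegree ≤ D ∧ ∀ y : ι → ℂ, MvPolynomial.aeval y P = f y

section PFsec

variable {ι : Type}

lemma PF.const (q : ℚ) : PF 0 (fun _ : ι → ℂ => (q : ℂ)) :=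
  ⟨MvPolynomial.C q, by simp, fun y => by simp⟩

lemma PF.coord (i : ι) : PF 1 (fun y : ι → ℂ => y i) :=
  ⟨MvPolynomial.X i, by simp, fun y => by simp⟩

lemma PF.add {D : ℕ} {f g : (ι → ℂ) → ℂ} (hf : PF D f) (hg : PF D g) :
    PF D (fun y => f y + g y) := by
  obtain ⟨P, hP, hPf⟩ := hf
  obtain ⟨Q, hQ, hQg⟩ := hg
  refine ⟨P + Q, (MvPolynomial.totalDegree_add P Q).trans (max_le hP hQ), fun y => ?_⟩
  rw [map_add, hPf, hQg]

lemma PF.mul {D D' : ℕ} {f g : (ι → ℂ) → ℂ} (hf : PF D f) (hg : PF D' g) :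
    PF (D + D') (fun y => f y * g y) := by
  obtain ⟨P, hP, hPf⟩ := hf
  obtain ⟨Q, hQ, hQg⟩ := hg
  refine ⟨P * Q, (MvPolynomial.totalDegree_mul P Q).trans (add_le_add hP hQ), fun y => ?_⟩
  rw [map_mul, hPf, hQg]

lemma PF.mono {D D' : ℕ} {f : (ι → ℂ) → ℂ} (hf : PF D f) (h : D ≤ D') : PF D' f := by
  obtain ⟨P, hP, hPf⟩ := hf
  exact ⟨P, hP.trans h, hPf⟩

lemma PF.sum {D : ℕ} {κ : Type} (s : Finset κ) {f : κ → (ι → ℂ) → ℂ}
    (hf : ∀ i ∈ s, PF D (f i)) : PF D (fun y => ∑ i ∈ s, f i y) := by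
  classical
  induction s using Finset.induction_on with
  | empty => simpa using (PF.const (ι := ι) 0).mono (Nat.zero_le D)
  | insert a s ha ih =>
    simp only [Finset.sum_insert ha]
    exact (hf a (Finset.mem_insert_self a s)).add
      (ih fun i hi => hf i (Finset.mem_insert_of_mem hi))

/-- matrices of polynomial functions -/
def PM {m : ℕ} (D : ℕ) (F : (ι → ℂ) → Matrix (Fin m) (Fin m) ℂ) : Prop :=
  ∀ i j, PF D (fun y => F y i j)

lemma PM.mul {m D D' : ℕ} {F G : (ι → ℂ) → Matrix (Fin m) (Fin m) ℂ} (hF : PM D F)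
    (hG : PM D' G) : PM (D + D') (fun y => F y * G y) := by
  intro i j
  simp only [Matrix.mul_apply]
  exact PF.sum _ fun l _ => (hF i l).mul (hG l j)

lemma PM.const {m : ℕ} (A : Matrix (Fin m) (Fin m) ℚ) :
    PM 0 (fun _ : ι → ℂ => toC A) := by
  intro i j
  exact PF.const _

end PFsec

/-- the matrix `Θ` at a point -/
def gT (y : Vars k d → ℂ) : Matrix (Fin k) (Fin k) ℂ :=
  Matrix.of fun i j => y (Sum.inl (some (Sum.inl (i, j))))

/-- the matrix `Θ'` at a point -/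
def gT' (y : Vars k d → ℂ) : Matrix (Fin k) (Fin k) ℂ :=
  Matrix.of fun i j => y (Sum.inl (some (Sum.inr (i, j))))

/-- the matrix `Φ l` at a point -/
def gP (l : Fin n) (y : Vars k d → ℂ) : Matrix (Fin (d l)) (Fin (d l)) ℂ :=
  Matrix.of fun i j => y (Sum.inr ⟨l, (i, j)⟩)

/-- the number `κ` at a point -/
def gk (y : Vars k d → ℂ) : ℂ := y (Sum.inl none)

/-- the function giving the relations -/
noncomputable def rel (u : Pm r k d → ℚ) (q : Pm r k d → ℚ)
    (A0 : Matrix (Fin k) (Fin k) ℚ) (A Q E' : ∀ l, Matrix (Fin (d l)) (Fin (d l)) ℚ)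
    (y : Vars k d → ℂ) : ℂ :=
  gk y * ∑ i, ((u (Sum.inl i) * q (Sum.inl i) : ℚ) : ℂ)
    + (gk y * ∑ p : Fin k × Fin k, (u (Sum.inr (Sum.inl p)) : ℂ) *
        (gT y * toC A0 * gT' y) p.1 p.2
    + ∑ p : (l : Fin n) × (Fin (d l) × Fin (d l)), (u (Sum.inr (Sum.inr p)) : ℂ) *
        (gP p.1 y * toC (A p.1) * toC (Q p.1) * (gP p.1 y)ᵀ * toC (E' p.1)) p.2.1 p.2.2)

lemma PF_rel (u : Pm r k d → ℚ) (q : Pm r k d → ℚ)
    (A0 : Matrix (Fin k) (Fin k) ℚ) (A Q E' : ∀ l, Matrix (Fin (d l)) (Fin (d l)) ℚ) :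
    PF 3 (rel u q A0 A Q E') := by
  have hk : PF 1 (gk : (Vars k d → ℂ) → ℂ) := PF.coord _
  have hT : PM 1 (gT : (Vars k d → ℂ) → _) := fun i j => PF.coord _
  have hT' : PM 1 (gT' : (Vars k d → ℂ) → _) := fun i j => PF.coord _
  have hP : ∀ l, PM 1 (gP l : (Vars k d → ℂ) → _) := fun l i j => PF.coord _
  have hPt : ∀ l, PM 1 (fun y : Vars k d → ℂ => (gP l y)ᵀ) := fun l i j => PF.coord _
  unfold rel
  apply PF.add
  · have h1 : PF (1 + 0) (fun y : Vars k d → ℂ =>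
        gk y * ((∑ i, u (Sum.inl i) * q (Sum.inl i) : ℚ) : ℂ)) := hk.mul (PF.const _)
    simpa using h1.mono (by norm_num : 1 + 0 ≤ 3)
  apply PF.add
  · have h1 : PF (1 + 2) (fun y : Vars k d → ℂ => gk y *
        ∑ p : Fin k × Fin k, (u (Sum.inr (Sum.inl p)) : ℂ) *
        (gT y * toC A0 * gT' y) p.1 p.2) := by
      apply hk.mul
      apply PF.sum
      intro p _
      exact ((PF.const _).mul (((hT.mul (PM.const A0)).mul hT') p.1 p.2)).mono (by norm_num)
    exact h1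
  · apply PF.sum
    intro p _
    exact ((PF.const _).mul ((((((hP p.1).mul (PM.const (A p.1))).mul (PM.const (Q p.1))).mul
      (hPt p.1)).mul (PM.const (E' p.1))) p.2.1 p.2.2)).mono (by norm_num)

/-! ### Linearity -/

lemma tot_lin (s : ℂ) (X0 Y0 : Matrix (Fin k) (Fin k) ℂ) (X Y : Fam d) :
    tot (s • X0 + Y0) (s • X + Y) = s • tot X0 X + tot Y0 Y := by
  unfold tot
  rw [Matrix.fromBlocks_smul, Matrix.fromBlocks_add, Matrix.blockDiagonal'_add,
    Matrix.blockDiagonal'_smul]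
  simp

lemma tot_mul (X0 Y0 : Matrix (Fin k) (Fin k) ℂ) (X Y : Fam d) :
    tot X0 X * tot Y0 Y = tot (X0 * Y0) (fun l => X l * Y l) := by
  unfold tot
  rw [Matrix.fromBlocks_multiply, ← Matrix.blockDiagonal'_mul]
  simp

lemma tot_one : tot (1 : Matrix (Fin k) (Fin k) ℂ) (fun _ => 1 : Fam d) = 1 := by
  unfold tot
  have h : (fun _ => 1 : Fam d) = 1 := rfl
  rw [h, Matrix.blockDiagonal'_one, Matrix.fromBlocks_one]

lemma pres_lin (hL : T_LINR) {a : Fin r → ℕ} {W : Submodule ℚ (TI (Ix k d) a → ℚ)} (s : ℂ)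
    {x y : Fin r → ℂ} {X0 Y0 : Matrix (Fin k) (Fin k) ℂ} {X Y : Fam d}
    (hx : Pres a W x X0 X) (hy : Pres a W y Y0 Y) :
    Pres a W (s • x + y) (s • X0 + Y0) (s • X + Y) := by
  intro v hv
  rw [tot_lin, hL, Matrix.add_mulVec, Matrix.smul_mulVec]
  exact Submodule.add_mem _ (Submodule.smul_mem _ _ (hx v hv)) (hy v hv)

lemma pres_zero {a : Fin r → ℕ} {W : Submodule ℚ (TI (Ix k d) a → ℚ)} :
    Pres a W (0 : Fin r → ℂ) (0 : Matrix (Fin k) (Fin k) ℂ) (0 : Fam d) := by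
  intro v hv
  have h1 : tot (0 : Matrix (Fin k) (Fin k) ℂ) (0 : Fam d) = 0 := by
    unfold tot
    rw [Matrix.blockDiagonal'_zero, Matrix.fromBlocks_zero]
  have h2 : dtens a (0 : Fin r → ℂ) (tot (0 : Matrix (Fin k) (Fin k) ℂ) (0 : Fam d)) = 0 := by
    rw [h1]
    unfold dtens
    have h3 : (fun i : Fin r => (0 : Fin r → ℂ) i •
        (1 : Matrix (Fin (a i) → Ix k d) (Fin (a i) → Ix k d) ℂ) +
        dtpow (a i) (0 : Matrix (Ix k d) (Ix k d) ℂ)) = 0 := by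
      funext i
      ext F G
      simp [dtpow]
    rw [h3, Matrix.blockDiagonal'_zero]
  rw [h2, Matrix.zero_mulVec]
  exact Submodule.zero_mem _

/-! ### Conjugation -/

/-- inverse of the comparison matrix -/
lemma phi_inv (S : Setup k n d) (l : Fin n) : S.Φ l * (S.Φ l)⁻¹ = 1 ∧ (S.Φ l)⁻¹ * S.Φ l = 1 := by
  have h1 : IsUnit (toC (S.E l)).det := (isUnit_iff_isUnit_det _).1 (S.hE l).2
  have h2 := S.rel l
  have h3 : S.Φ l * (S.κ⁻¹ • (toC (S.Q l) * (S.Φ l)ᵀ * (toC (S.E l))⁻¹)) = 1 := by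
    rw [Matrix.mul_smul, ← Matrix.mul_assoc, ← Matrix.mul_assoc, h2, Matrix.smul_mul,
      Matrix.mul_nonsing_inv _ h1, smul_smul, inv_mul_cancel₀ S.hκ, one_smul]
  have h4 : IsUnit (S.Φ l).det := (isUnit_iff_isUnit_det _).1 (IsUnit.of_mul_eq_one _ h3)
  exact ⟨Matrix.mul_nonsing_inv _ h4, Matrix.nonsing_inv_mul _ h4⟩

lemma pres_conj (hC : T_TCNJ) (S : Setup k n d) {a : Fin r → ℕ} {c : Fin r → ℂ}
    {W W' : Submodule ℚ (TI (Ix k d) a → ℚ)} (hS : IsSub S a c W W')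
    (x : Fin r → ℂ) (Z0 : Matrix (Fin k) (Fin k) ℂ) (Z : Fam d) :
    Pres a W x Z0 Z ↔
      Pres a W' x (S.Θ * Z0 * S.Θ') (fun l => S.Φ l * Z l * (S.Φ l)⁻¹) := by
  obtain ⟨hc, him⟩ := hS
  have hΘ' : S.Θ' * S.Θ = 1 := mul_eq_one_comm.1 S.hΘ
  set M := tot S.Θ S.Φ with hM
  set M' := tot S.Θ' (fun l => (S.Φ l)⁻¹) with hM'
  have hMM : M' * M = 1 := by
    rw [hM, hM', tot_mul, hΘ']
    have : (fun l => (S.Φ l)⁻¹ * S.Φ l) = (fun l => 1 : Fam d) := by
      funext l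
      exact (phi_inv S l).2
    rw [this, tot_one]
  have hcn := hC (Ix k d) r a c x M M' (tot Z0 Z) hMM
  have hconj : M * tot Z0 Z * M' = tot (S.Θ * Z0 * S.Θ') (fun l => S.Φ l * Z l * (S.Φ l)⁻¹) := by
    rw [hM, hM', tot_mul, tot_mul]
  rw [hconj] at hcn
  have hinj : ∀ v, (tens a c M) *ᵥ v = 0 → v = 0 := by
    intro v hv
    have h1 := (p_TMUL (Ix k d) r a (fun i => (c i)⁻¹) c M' M).1
    have h2 : (fun i => (c i)⁻¹ * c i) = (1 : Fin r → ℂ) := by
      funext i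
      exact inv_mul_cancel₀ (hc i)
    rw [h2, hMM, (p_TMUL (Ix k d) r a c c M M').2] at h1
    have h3 := congrArg (fun y => (tens a (fun i => (c i)⁻¹) M') *ᵥ y) hv
    simp only [mulVec_mulVec, h1, one_mulVec, mulVec_zero] at h3
    exact h3
  constructor
  · intro hP v hv
    rw [← him] at hv
    obtain ⟨u, hu, rfl⟩ := hv
    have h1 : (tens a c M).mulVecLin u = (tens a c M) *ᵥ u := rfl
    rw [h1, mulVec_mulVec, ← hcn, ← mulVec_mulVec, ← him]
    exact ⟨_, hP u hu, rfl⟩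
  · intro hP v hv
    have h1 : (tens a c M) *ᵥ v ∈ cx W' := by
      rw [← him]
      exact ⟨v, hv, rfl⟩
    have h2 := hP _ h1
    rw [mulVec_mulVec, ← hcn, ← mulVec_mulVec, ← him] at h2
    obtain ⟨u, hu, hu2⟩ := h2
    have h3 : (tens a c M).mulVecLin u = (tens a c M) *ᵥ u := rfl
    rw [h3] at hu2
    have h4 := hinj (u - (dtens a x (tot Z0 Z)) *ᵥ v) (by
      rw [mulVec_sub, hu2, sub_self])
    rw [sub_eq_zero] at h4
    rw [← h4]
    exact hu

/-- one comparison matrix -/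
lemma alg {m : ℕ} {Φ Q E E' h A : Matrix (Fin m) (Fin m) ℂ} {κ : ℂ} (hκ : κ ≠ 0)
    (hrel : Φ * Q * Φᵀ = κ • E) (hEE : E * E' = 1) (hh : h * E * hᵀ = E) :
    (h * Φ) * A * Q * (h * Φ)ᵀ * E' = κ • (h * (Φ * A * Φ⁻¹) * h⁻¹) := by
  have hEE' : E' * E = 1 := mul_eq_one_comm.1 hEE
  have h1 : h⁻¹ = E * hᵀ * E' := by
    apply Matrix.inv_eq_right_inv
    calc h * (E * hᵀ * E') = (h * E * hᵀ) * E' := by simp only [Matrix.mul_assoc]
      _ = 1 := by rw [hh, hEE]
  have h2 : Φ⁻¹ = κ⁻¹ • (Q * Φᵀ * E') := by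
    apply Matrix.inv_eq_right_inv
    calc Φ * (κ⁻¹ • (Q * Φᵀ * E')) = κ⁻¹ • ((Φ * Q * Φᵀ) * E') := by
          rw [Matrix.mul_smul]; simp only [Matrix.mul_assoc]
      _ = 1 := by rw [hrel, Matrix.smul_mul, hEE, smul_smul, inv_mul_cancel₀ hκ, one_smul]
  rw [h1, h2, Matrix.transpose_mul]
  simp only [Matrix.mul_smul, Matrix.smul_mul, smul_smul, mul_inv_cancel₀ hκ, one_smul]
  calc h * Φ * A * Q * (Φᵀ * hᵀ) * E' = h * Φ * A * Q * Φᵀ * (1 : Matrix (Fin m) (Fin m) ℂ)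
        * hᵀ * E' := by simp only [Matrix.mul_assoc, Matrix.one_mul]
    _ = h * Φ * A * Q * Φᵀ * (E' * E) * hᵀ * E' := by rw [hEE']
    _ = h * (Φ * A * (Q * Φᵀ * E')) * (E * hᵀ * E') := by simp only [Matrix.mul_assoc]

lemma rational_inv {m : ℕ} {E : Matrix (Fin m) (Fin m) ℚ} (hE : IsUnit (toC E)) :
    toC E * toC E⁻¹ = 1 := by
  have h1 : (toC E).det ≠ 0 := ((isUnit_iff_isUnit_det _).1 hE).ne_zero
  have h2 : (toC E).det = ((E.det : ℚ) : ℂ) := by
    have := (RingHom.map_det (Rat.castHom ℂ) E).symm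
    simpa using this
  have h3 : IsUnit E.det := by
    rw [isUnit_iff_ne_zero]
    intro h
    rw [h2, h] at h1
    simp at h1
  have h4 := Matrix.mul_nonsing_inv E h3
  have h5 := congrArg (fun M : Matrix (Fin m) (Fin m) ℚ => M.map (Rat.castHom ℂ)) h4
  simp only [Matrix.map_mul] at h5
  simpa using h5

/-- the matrices of a rational vector of parameters -/
def A0 (q : Pm r k d → ℚ) : Matrix (Fin k) (Fin k) ℚ :=
  Matrix.of fun i j => q (Sum.inr (Sum.inl (i, j)))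

/-- the matrices of a rational vector of parameters -/
def Al (q : Pm r k d → ℚ) (l : Fin n) : Matrix (Fin (d l)) (Fin (d l)) ℚ :=
  Matrix.of fun i j => q (Sum.inr (Sum.inr ⟨l, (i, j)⟩))

lemma rel_eval (S : Setup k n d) (u q : Pm r k d → ℚ) {h : Fam d}
    (hh : ∀ l, h l ∈ Sp (toC (S.E l))) :
    rel u q (A0 q) (Al q) S.Q (fun l => (S.E l)⁻¹) (pt S.κ S.Θ S.Θ' (fun l => h l * S.Φ l))
      = S.κ * ∑ j, (u j : ℂ) * (enc (dx fun j => (q j : ℂ))
          (S.Θ * dX0 (fun j => (q j : ℂ)) * S.Θ')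
          (fun l => h l * (S.Φ l * dX (fun j => (q j : ℂ)) l * (S.Φ l)⁻¹) * (h l)⁻¹)
            : Pm r k d → ℂ) j := by
  rw [Fintype.sum_sum_type, Fintype.sum_sum_type, mul_add, mul_add]
  unfold rel
  have e1 : gk (pt S.κ S.Θ S.Θ' (fun l => h l * S.Φ l)) = S.κ := rfl
  have e2 : gT (pt S.κ S.Θ S.Θ' (fun l => h l * S.Φ l)) = S.Θ := rfl
  have e3 : gT' (pt S.κ S.Θ S.Θ' (fun l => h l * S.Φ l)) = S.Θ' := rfl
  have e4 : ∀ l, gP l (pt S.κ S.Θ S.Θ' (fun l => h l * S.Φ l)) = h l * S.Φ l := fun _ => rfl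
  have e5 : toC (A0 q) = dX0 (fun j => (q j : ℂ)) := rfl
  have e6 : ∀ l, toC (Al q l) = dX (fun j => (q j : ℂ)) l := fun _ => rfl
  rw [e1, e2, e3, e5]
  simp only [e4, e6]
  have e7 : ∀ l, h l * S.Φ l * dX (fun j => (q j : ℂ)) l * toC (S.Q l) * (h l * S.Φ l)ᵀ
      * toC (S.E l)⁻¹
      = S.κ • (h l * (S.Φ l * dX (fun j => (q j : ℂ)) l * (S.Φ l)⁻¹) * (h l)⁻¹) :=
    fun l => alg S.hκ (S.rel l) (rational_inv (S.hE l).2) (hh l)
  simp only [e7]
  congr 1
  · congr 1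
    refine Finset.sum_congr rfl fun i _ => ?_
    push_cast
    rfl
  congr 1
  rw [Finset.mul_sum]
  refine Finset.sum_congr rfl fun p _ => ?_
  simp only [enc, Sum.elim_inr, Matrix.smul_apply, smul_eq_mul]
  ring

end ADST_

open ADST_ in
theorem p_ADST (h1 : T_TCNJ) (h2 : T_CXA) (h3 : T_RATL) (h4 : T_LINR) : T_ADST := by
  intro k n d S hBD r a c W W' hS x X0 X hP h hh
  obtain ⟨s, hs⟩ := pres_iff h2 a W
  obtain ⟨s', hs'⟩ := pres_iff h2 a W'
  -- the new statement is linear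
  have key : ∀ z : Pm r k d → ℂ,
      z ∈ Submodule.span ℂ {w : Pm r k d → ℂ | ∃ q : Pm r k d → ℚ,
        (∀ u ∈ s, ∑ j, u j * q j = 0) ∧ w = fun j => (q j : ℂ)} →
      Pres a W' (dx z) (S.Θ * dX0 z * S.Θ')
        (fun l => h l * (S.Φ l * dX z l * (S.Φ l)⁻¹) * (h l)⁻¹) := by
    intro z hz
    induction hz using Submodule.span_induction with
    | mem z hz =>
      obtain ⟨q, hq, rfl⟩ := hz
      have e1 : Pres a W (dx fun j => (q j : ℂ)) (dX0 fun j => (q j : ℂ))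
          (dX fun j => (q j : ℂ)) := by
        rw [hs]
        intro u hu
        have e2 := hq u hu
        have e3 : ((∑ j, u j * q j : ℚ) : ℂ) = 0 := by rw [e2]; simp
        push_cast at e3
        exact e3
      rw [pres_conj h1 S hS] at e1
      refine (hs' (enc (dx fun j => (q j : ℂ)) (S.Θ * dX0 (fun j => (q j : ℂ)) * S.Θ')
          (fun l => h l * (S.Φ l * dX (fun j => (q j : ℂ)) l * (S.Φ l)⁻¹) * (h l)⁻¹))).2 ?_
      intro u hu
      have f1 := (hs' (enc (dx fun j => (q j : ℂ)) (S.Θ * dX0 (fun j => (q j : ℂ)) * S.Θ')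
          (fun l => S.Φ l * dX (fun j => (q j : ℂ)) l * (S.Φ l)⁻¹))).1 e1 u hu
      obtain ⟨P, hPd, hPe⟩ := PF_rel u q (A0 q) (Al q) S.Q (fun l => (S.E l)⁻¹)
      have f2 := rel_eval S u q (h := fun _ => 1) (fun l => by
        show (1 : Matrix (Fin (d l)) (Fin (d l)) ℂ) * toC (S.E l) * 1ᵀ = toC (S.E l)
        rw [Matrix.one_mul, Matrix.transpose_one, Matrix.mul_one])
      simp only [Matrix.one_mul, inv_one, Matrix.mul_one] at f2
      rw [f1, mul_zero, ← hPe] at f2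
      have f3 := hBD P hPd f2 h hh
      rw [hPe, rel_eval S u q hh] at f3
      exact (mul_eq_zero.1 f3).resolve_left S.hκ
    | zero =>
      have e := pres_zero (r := r) (k := k) (d := d) (a := a) (W := W')
      have e1 : (dx (0 : Pm r k d → ℂ)) = 0 := rfl
      have e2 : (dX0 (0 : Pm r k d → ℂ)) = 0 := rfl
      have e3 : ∀ l, (dX (0 : Pm r k d → ℂ)) l = 0 := fun _ => rfl
      have e4 : (fun l => h l * (S.Φ l * dX (0 : Pm r k d → ℂ) l * (S.Φ l)⁻¹) * (h l)⁻¹)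
          = (0 : Fam d) := by
        funext l
        rw [e3]
        simp
      rw [e1, e2, e4, Matrix.mul_zero, Matrix.zero_mul]
      exact e
    | add x y _ _ hx hy =>
      have e := pres_lin h4 1 hx hy
      rw [one_smul, one_smul, one_smul] at e
      have e1 : dx (x + y) = dx x + dx y := rfl
      have e2 : dX0 (x + y) = dX0 x + dX0 y := rfl
      have e3 : ∀ l, dX (x + y) l = dX x l + dX y l := fun _ => rfl
      have e4 : (fun l => h l * (S.Φ l * dX (x + y) l * (S.Φ l)⁻¹) * (h l)⁻¹)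
          = (fun l => h l * (S.Φ l * dX x l * (S.Φ l)⁻¹) * (h l)⁻¹)
            + (fun l => h l * (S.Φ l * dX y l * (S.Φ l)⁻¹) * (h l)⁻¹) := by
        funext l
        rw [e3]
        simp only [Pi.add_apply, Matrix.mul_add, Matrix.add_mul]
      rw [e1, e2, e4, Matrix.mul_add, Matrix.add_mul]
      exact e
    | smul c x _ hx =>
      have e := pres_lin h4 c hx pres_zero
      rw [add_zero, add_zero, add_zero] at e
      have e1 : dx (c • x) = c • dx x := rfl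
      have e2 : dX0 (c • x) = c • dX0 x := rfl
      have e3 : ∀ l, dX (c • x) l = c • dX x l := fun _ => rfl
      have e4 : (fun l => h l * (S.Φ l * dX (c • x) l * (S.Φ l)⁻¹) * (h l)⁻¹)
          = c • (fun l => h l * (S.Φ l * dX x l * (S.Φ l)⁻¹) * (h l)⁻¹) := by
        funext l
        rw [e3]
        simp only [Pi.smul_apply, Matrix.mul_smul, Matrix.smul_mul]
      rw [e1, e2, e4, Matrix.mul_smul, Matrix.smul_mul]
      exact e
  have hΘ' : S.Θ' * S.Θ = 1 := mul_eq_one_comm.1 S.hΘ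
  -- the given element
  have g1 : S.Θ * (S.Θ' * X0 * S.Θ) * S.Θ' = X0 := by
    calc S.Θ * (S.Θ' * X0 * S.Θ) * S.Θ' = (S.Θ * S.Θ') * X0 * (S.Θ * S.Θ') := by
          simp only [Matrix.mul_assoc]
      _ = X0 := by rw [S.hΘ, Matrix.one_mul, Matrix.mul_one]
  have g2 : ∀ l, S.Φ l * ((S.Φ l)⁻¹ * X l * S.Φ l) * (S.Φ l)⁻¹ = X l := by
    intro l
    calc S.Φ l * ((S.Φ l)⁻¹ * X l * S.Φ l) * (S.Φ l)⁻¹
        = (S.Φ l * (S.Φ l)⁻¹) * X l * (S.Φ l * (S.Φ l)⁻¹) := by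
          simp only [Matrix.mul_assoc]
      _ = X l := by rw [(phi_inv S l).1, Matrix.one_mul, Matrix.mul_one]
  have g3 : Pres a W x (S.Θ' * X0 * S.Θ) (fun l => (S.Φ l)⁻¹ * X l * S.Φ l) := by
    rw [pres_conj h1 S hS, g1]
    simp only [g2]
    exact hP
  have g4 := (hs (enc x (S.Θ' * X0 * S.Θ) (fun l => (S.Φ l)⁻¹ * X l * S.Φ l))).1 g3
  have g5 := key _ (h3 _ s _ g4)
  rw [dx_enc, dX0_enc, dX_enc, g1] at g5
  simp only [g2] at g5
  exact g5

end Pool.Agent.DRB
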