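import Pool.Agent.DRB.All
import Pool.Agent.HEP.All

/-!
# Application to hyperelliptic curves
-/

set_option autoImplicit false

open Matrix

namespace Pool.Agent.DRB

/-- the comparison matrix -/
noncomputable def cmp {g : ℕ} (b : Fin (2 * g + 1) → ℝ) : Matrix (Fin (2 * g)) (Fin (2 * g)) ℂ :=
  Matrix.of fun j a => Complex.I ^ (j : ℕ) * (HEP.per b a j : ℂ)

/-- the intersection matrix of a chain of cycles -/
def chn (m : ℕ) : Matrix (Fin m) (Fin m) ℚ :=
  Matrix.of fun i j => if (j : ℕ) = i + 1 then 1 else if (i : ℕ) = j + 1 then -1 else 0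

/-- the de Rham form -/
def qf (m : ℕ) (p : Polynomial ℚ) : Matrix (Fin m) (Fin m) ℚ :=
  Matrix.of fun a c => (((a : ℕ) : ℚ) - ((c : ℕ) : ℚ)) / 2 * p.coeff ((a : ℕ) + c + 2)

/-- there is an extra sub-structure -/
def ExtraSub {n k : ℕ} {g : Fin n → ℕ} (Θ : Matrix (Fin k) (Fin k) ℂ)
    (h : Fin n → Polynomial ℚ) (N : Fin n → ℕ) : Prop :=
  ∃ b : ∀ l, Fin (2 * g l + 1) → ℝ, (∀ l, StrictMono (b l) ∧
    (h l).map (algebraMap ℚ ℝ) * (Polynomial.X - Polynomial.C (1 / (N l : ℝ))) =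
      ∏ i, (Polynomial.X - Polynomial.C (b l i))) ∧
  ∃ (r : ℕ) (a : Fin r → ℕ) (c : Fin r → ℂ)
    (W W' : Submodule ℚ (TI (Ix k (fun l => 2 * g l)) a → ℚ)), (∀ i, c i ≠ 0) ∧
    im (tens a c (tot Θ (fun l => cmp (b l)))) (cx W) = cx W' ∧
    ∃ s : Fam (fun l => 2 * g l), (∀ l, s l ∈ Sp (toC (chn (2 * g l)))) ∧
      im (tens a 1 (tot 1 s)) (cx W') ≠ cx W'

namespace APPL_

theorem chn_alt (m : ℕ) : (chn m)ᵀ = -chn m := by
  ext i j
  simp only [chn, Matrix.transpose_apply, Matrix.of_apply, Matrix.neg_apply]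
  split_ifs <;> first | omega | simp

theorem chn_alt' (m : ℕ) : (toC (chn m))ᵀ = -toC (chn m) := by
  have h := chn_alt m
  ext i j
  have := congrFun (congrFun h i) j
  simp only [Matrix.transpose_apply, Matrix.neg_apply, Matrix.map_apply] at this ⊢
  rw [this]; push_cast; rfl

theorem chn_unit (g : ℕ) : IsUnit (toC (chn (2 * g))) := by
  rw [← Matrix.mulVec_injective_iff_isUnit]
  rw [← Matrix.coe_mulVecLin, injective_iff_map_eq_zero]
  intro v hv
  set u : ℕ → ℂ := fun i => if h : i < 2 * g then v ⟨i, h⟩ else 0 with hu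
  have hrow : ∀ i : Fin (2 * g), u (i + 1) - (if (i : ℕ) = 0 then 0 else u (i - 1)) = 0 := by
    intro i
    have h1 := congrFun hv i
    rw [Matrix.mulVecLin_apply, Matrix.mulVec, dotProduct] at h1
    have h2 : ∀ j : Fin (2 * g), toC (chn (2 * g)) i j * v j =
        (if (j : ℕ) = i + 1 then v j else 0) - (if (i : ℕ) = j + 1 then v j else 0) := by
      intro j
      simp only [Matrix.map_apply, chn, Matrix.of_apply]
      split_ifs <;> first | omega | simp
    rw [Finset.sum_congr rfl fun j _ => h2 j, Finset.sum_sub_distrib] at h1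
    have h3 : ∑ j : Fin (2 * g), (if (j : ℕ) = i + 1 then v j else 0) = u (i + 1) := by
      by_cases hi : (i : ℕ) + 1 < 2 * g
      · rw [Finset.sum_eq_single (⟨i + 1, hi⟩ : Fin (2 * g))]
        · simp [hu, hi]
        · intro j _ hj
          rw [if_neg]
          intro h; exact hj (Fin.ext h)
        · intro h; exact absurd (Finset.mem_univ _) h
      · rw [Finset.sum_eq_zero]
        · simp [hu, hi]
        · intro j _
          rw [if_neg]; intro h; exact hi (h ▸ j.2)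
    have h4 : ∑ j : Fin (2 * g), (if (i : ℕ) = j + 1 then v j else 0) =
        if (i : ℕ) = 0 then 0 else u (i - 1) := by
      split_ifs with hi
      · refine Finset.sum_eq_zero fun j _ => ?_
        rw [if_neg]; omega
      · have hi' : (i : ℕ) - 1 < 2 * g := by have := i.2; omega
        rw [Finset.sum_eq_single (⟨i - 1, hi'⟩ : Fin (2 * g))]
        · simp only [hu, hi', dif_pos]
          rw [if_pos]; omega
        · intro j _ hj
          rw [if_neg]
          intro h; apply hj; apply Fin.ext; change (j : ℕ) = (i : ℕ) - 1; omega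
        · intro h; exact absurd (Finset.mem_univ _) h
    rw [h3, h4] at h1
    simpa using h1
  have hodd : ∀ j : ℕ, u (2 * j + 1) = 0 := by
    intro j
    induction j with
    | zero =>
      by_cases hg : 0 < 2 * g
      · have := hrow ⟨0, hg⟩
        simpa using this
      · simp only [hu]; rw [dif_neg]; omega
    | succ j ih =>
      by_cases hj : 2 * j + 2 < 2 * g
      · have := hrow ⟨2 * j + 2, hj⟩
        simp only [] at this
        rw [if_neg (by omega), show 2 * j + 2 - 1 = 2 * j + 1 by omega, ih, sub_zero] at this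
        rw [show 2 * (j + 1) + 1 = 2 * j + 2 + 1 by ring]; exact this
      · simp only [hu]; rw [dif_neg]; omega
  have heven : ∀ j : ℕ, j ≤ g → u (2 * g - 2 * j) = 0 := by
    intro j
    induction j with
    | zero => intro _; simp only [hu]; rw [dif_neg]; omega
    | succ j ih =>
      intro hj
      have h1 := hrow ⟨2 * g - 2 * j - 1, by omega⟩
      change u (2 * g - 2 * j - 1 + 1) -
        (if 2 * g - 2 * j - 1 = 0 then 0 else u (2 * g - 2 * j - 1 - 1)) = 0 at h1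
      rw [if_neg (by omega), show 2 * g - 2 * j - 1 + 1 = 2 * g - 2 * j by omega,
        ih (by omega), zero_sub, neg_eq_zero] at h1
      rw [show 2 * g - 2 * (j + 1) = 2 * g - 2 * j - 1 - 1 by omega]; exact h1
  funext i
  have hi : v i = u i := by simp [hu, i.2]
  rw [hi]
  rcases Nat.even_or_odd' (i : ℕ) with ⟨c, hc | hc⟩
  · have := heven (g - c) (Nat.sub_le _ _)
    rw [show 2 * g - 2 * (g - c) = 2 * c by have := i.2; omega] at this
    rw [hc, this]; rfl
  · rw [hc, hodd c]; rfl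

theorem chn_Alt (g : ℕ) : Alt (toC (chn (2 * g))) := ⟨chn_alt' _, chn_unit g⟩

theorem quad {m : ℕ} (p : Polynomial ℚ) (Y Ψ : Matrix (Fin m) (Fin m) ℂ)
    (hΨ : ∀ j a, Ψ j a = Complex.I ^ (j : ℕ) * Y a j) (j k : Fin m) :
    (Ψ * toC (qf m p) * Ψᵀ) j k = Complex.I ^ ((j : ℕ) + k) *
      ∑ a : Fin m, ∑ c : Fin m, (((a : ℕ) : ℂ) - ((c : ℕ) : ℂ)) / 2 *
        (p.map (algebraMap ℚ ℂ)).coeff ((a : ℕ) + c + 2) * Y a j * Y c k := by
  rw [Matrix.mul_apply]
  simp only [Matrix.mul_apply, Matrix.transpose_apply, Finset.sum_mul, Finset.mul_sum]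
  rw [Finset.sum_comm]
  refine Finset.sum_congr rfl fun a _ => Finset.sum_congr rfl fun c _ => ?_
  simp only [hΨ, Matrix.map_apply, qf, Matrix.of_apply, Polynomial.coeff_map, eq_ratCast]
  push_cast
  rw [pow_add]
  ring

theorem qf_alt (m : ℕ) (p : Polynomial ℚ) : (qf m p)ᵀ = -qf m p := by
  ext a c
  simp only [qf, Matrix.transpose_apply, Matrix.of_apply, Matrix.neg_apply]
  rw [show (c : ℕ) + a + 2 = a + c + 2 by ring]; ring

theorem quad_alt {m : ℕ} (p : Polynomial ℚ) (Ψ : Matrix (Fin m) (Fin m) ℂ) :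
    (Ψ * toC (qf m p) * Ψᵀ)ᵀ = -(Ψ * toC (qf m p) * Ψᵀ) := by
  have h : (toC (qf m p))ᵀ = -toC (qf m p) := by
    ext i j
    have := congrFun (congrFun (qf_alt m p) i) j
    simp only [Matrix.transpose_apply, Matrix.neg_apply, Matrix.map_apply] at this ⊢
    rw [this]; push_cast; rfl
  rw [Matrix.transpose_mul, Matrix.transpose_mul, Matrix.transpose_transpose, h]
  simp [Matrix.mul_assoc]

theorem pow_fact (j : ℕ) : Complex.I ^ (j + (j + 1)) * ((-1) ^ (j + 1) * (Real.pi : ℂ)) =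
    -(Real.pi * Complex.I) := by
  rw [show j + (j + 1) = 2 * j + 1 by ring, pow_succ, pow_mul, Complex.I_sq, pow_succ]
  have h : ((-1 : ℂ) ^ j) * (-1) ^ j = 1 := by rw [← mul_pow]; simp
  linear_combination (-(Real.pi : ℂ) * Complex.I) * h

theorem fwd {m : ℕ} (p : Polynomial ℚ) (Y Ψ : Matrix (Fin m) (Fin m) ℂ)
    (hΨ : ∀ j a, Ψ j a = Complex.I ^ (j : ℕ) * Y a j)
    (hY : HEP.Riem (p.map (algebraMap ℚ ℂ)) Y) :
    Ψ * toC (qf m p) * Ψᵀ = (-(Real.pi * Complex.I)) • toC (chn m) := by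
  have key : ∀ j k : Fin m, j < k → (Ψ * toC (qf m p) * Ψᵀ) j k =
      ((-(Real.pi * Complex.I)) • toC (chn m)) j k := by
    intro j k hjk
    have hjk' : (j : ℕ) < k := hjk
    rw [quad p Y Ψ hΨ, hY j k hjk]
    simp only [Matrix.smul_apply, Matrix.map_apply, chn, Matrix.of_apply, smul_eq_mul]
    split_ifs with h1 h2
    · rw [h1, pow_fact]; simp
    · omega
    · simp
  have halt := quad_alt p Ψ
  have halt2 := chn_alt' m
  ext j k
  rcases lt_trichotomy j k with h | h | h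
  · exact key j k h
  · subst h
    have h1 := congrFun (congrFun halt j) j
    have h2 := congrFun (congrFun halt2 j) j
    simp only [Matrix.transpose_apply, Matrix.neg_apply] at h1 h2
    rw [Matrix.smul_apply, self_eq_neg.1 h1, self_eq_neg.1 h2, smul_zero]
  · have h1 := congrFun (congrFun halt j) k
    have h2 := congrFun (congrFun halt2 j) k
    simp only [Matrix.transpose_apply, Matrix.neg_apply] at h1 h2
    have h3 := key k j h
    rw [Matrix.smul_apply] at h3 ⊢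
    rw [h1, h2] at h3
    rw [smul_neg] at h3
    exact neg_injective h3

theorem bwd {m : ℕ} (p : Polynomial ℚ) (Y Ψ : Matrix (Fin m) (Fin m) ℂ)
    (hΨ : ∀ j a, Ψ j a = Complex.I ^ (j : ℕ) * Y a j)
    (h : Ψ * toC (qf m p) * Ψᵀ = (-(Real.pi * Complex.I)) • toC (chn m)) :
    HEP.Riem (p.map (algebraMap ℚ ℂ)) Y := by
  intro j k hjk
  have hjk' : (j : ℕ) < k := hjk
  have h1 := congrFun (congrFun h j) k
  rw [quad p Y Ψ hΨ] at h1
  have hI : Complex.I ^ ((j : ℕ) + k) ≠ 0 := pow_ne_zero _ Complex.I_ne_zero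
  apply mul_left_cancel₀ hI
  rw [h1]
  simp only [Matrix.smul_apply, Matrix.map_apply, chn, Matrix.of_apply, smul_eq_mul]
  split_ifs with h2 h3
  · rw [h2, pow_fact]; simp
  · omega
  · simp

theorem subst {σ τ : Type} (P : MvPolynomial σ ℚ) (B : ℕ) (f : σ → MvPolynomial τ ℤ)
    (hf : ∀ i, (f i).totalDegree ≤ B) : ∃ (m : ℕ) (R : MvPolynomial τ ℤ), m ≠ 0 ∧
      R.totalDegree ≤ B * P.totalDegree ∧ ∀ z : τ → ℂ, MvPolynomial.aeval z R =
        (m : ℂ) * MvPolynomial.aeval (fun i => MvPolynomial.aeval z (f i)) P := by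
  classical
  set m : ℕ := ∏ s ∈ P.support, (P.coeff s).den with hm
  have hm0 : m ≠ 0 := Finset.prod_ne_zero_iff.2 fun s _ => (P.coeff s).den_nz
  have hint : ∀ s ∈ P.support, (((m : ℚ) * P.coeff s).num : ℚ) = (m : ℚ) * P.coeff s := by
    intro s hs
    obtain ⟨q, hq⟩ : (P.coeff s).den ∣ m := Finset.dvd_prod_of_mem _ hs
    have h1 : (m : ℚ) * P.coeff s = ((q * (P.coeff s).num : ℤ) : ℚ) := by
      rw [hq]
      push_cast
      have h2 : ((P.coeff s).den : ℚ) * P.coeff s = (P.coeff s).num := by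
        exact_mod_cast Rat.den_mul_eq_num (P.coeff s)
      linear_combination (q : ℚ) * h2
    rw [h1, Rat.num_intCast]
  refine ⟨m, ∑ s ∈ P.support, MvPolynomial.C (((m : ℚ) * P.coeff s).num) *
    ∏ i ∈ s.support, f i ^ (s i), hm0, ?_, ?_⟩
  · refine MvPolynomial.totalDegree_finsetSum_le fun s hs => ?_
    refine (MvPolynomial.totalDegree_mul _ _).trans ?_
    rw [MvPolynomial.totalDegree_C, zero_add]
    refine (MvPolynomial.totalDegree_finsetProd _ _).trans ?_
    calc ∑ i ∈ s.support, (f i ^ (s i)).totalDegree ≤ ∑ i ∈ s.support, s i * B :=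
          Finset.sum_le_sum fun i _ => (MvPolynomial.totalDegree_pow _ _).trans
            (Nat.mul_le_mul_left _ (hf i))
      _ = B * ∑ i ∈ s.support, s i := by rw [← Finset.sum_mul, mul_comm]
      _ ≤ B * P.totalDegree := Nat.mul_le_mul_left _ (MvPolynomial.le_totalDegree hs)
  · intro z
    rw [map_sum, MvPolynomial.aeval_def (R := ℚ), MvPolynomial.eval₂_eq, Finset.mul_sum]
    refine Finset.sum_congr rfl fun s hs => ?_
    rw [map_mul, map_prod, MvPolynomial.aeval_C]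
    simp only [map_pow]
    rw [← mul_assoc]
    congr 1
    have := congrArg (fun q : ℚ => (q : ℂ)) (hint s hs)
    simpa using this

/-- indices of the constants -/
abbrev Cst (k : ℕ) : Type := Option (Option ((Fin k × Fin k) ⊕ (Fin k × Fin k)))

/-- the constants -/
noncomputable def cst {k : ℕ} (Θ : Matrix (Fin k) (Fin k) ℂ) : Cst k → ℂ := fun o =>
  o.elim Complex.I (fun o => o.elim (-(Real.pi * Complex.I))
    (Sum.elim (fun p => Θ p.1 p.2) (fun p => Θ⁻¹ p.1 p.2)))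

theorem key {n k : ℕ} {g : Fin n → ℕ} (h : Fin n → Polynomial ℚ)
    (hg : ∀ l, 1 ≤ g l) (D : ℕ)
    (hD : ∀ S : Setup k n (fun l => 2 * g l), BD D S → ∀ (r : ℕ) (a : Fin r → ℕ)
      (c : Fin r → ℂ) (W W' : Submodule ℚ (TI (Ix k (fun l => 2 * g l)) a → ℚ)),
      IsSub S a c W W' → ∀ h : Fam (fun l => 2 * g l), (∀ l, h l ∈ Sp (toC (S.E l))) →
      im (tens a 1 (tot 1 h)) (cx W') = cx W')
    (B : ℕ) (hB : ∀ l, 2 * g l ≤ B) (Θ : Matrix (Fin k) (Fin k) ℂ) (hΘ : IsUnit Θ)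
    (e : Cst k ≃ Fin (Fintype.card (Cst k))) (N : Fin n → ℕ)
    (hN : ExtraSub (g := g) Θ h N) :
    HEP.HasExtra (g := g) ((1 + B) * D) (fun i => cst Θ (e.symm i)) h N := by
  classical
  obtain ⟨b, hb, r, a, c, W, W', hc, him, s, hs, hne⟩ := hN
  by_contra hno
  apply hne
  -- the polynomials
  set pl : Fin n → Polynomial ℚ := fun l =>
    h l * (Polynomial.X - Polynomial.C (1 / (N l : ℚ))) with hpl
  have hplC : ∀ l, (pl l).map (algebraMap ℚ ℂ) = HEP.PN (h l) (1 / (N l : ℂ)) := by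
    intro l
    simp only [hpl, HEP.PN, Polynomial.map_mul, Polynomial.map_sub, Polynomial.map_X,
      Polynomial.map_C]
    congr 3
    simp
  have hprod : ∀ l, (∏ i, (Polynomial.X - Polynomial.C (b l i : ℂ)) : Polynomial ℂ) =
      (pl l).map (algebraMap ℚ ℂ) := by
    intro l
    have h1 := congrArg (Polynomial.map (algebraMap ℝ ℂ)) (hb l).2
    rw [Polynomial.map_mul, Polynomial.map_map, Polynomial.map_prod] at h1
    rw [hplC, HEP.PN]
    have h2 : ∀ i, Polynomial.map (algebraMap ℝ ℂ) (Polynomial.X - Polynomial.C (b l i)) =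
        Polynomial.X - Polynomial.C (b l i : ℂ) := by intro i; simp
    simp only [h2] at h1
    rw [← h1]
    have h3 : ((algebraMap ℝ ℂ).comp (algebraMap ℚ ℝ)) = algebraMap ℚ ℂ :=
      Subsingleton.elim _ _
    rw [h3]
    congr 1
    simp
  have hRiem : ∀ l, HEP.Riem ((pl l).map (algebraMap ℚ ℂ))
      (Matrix.of fun a j => (HEP.per (b l) a j : ℂ)) := by
    intro l
    rw [← hprod l]
    exact HEP.riemannRelations (b l) (hb l).1
  have hrel : ∀ l, cmp (b l) * toC (qf (2 * g l) (pl l)) * (cmp (b l))ᵀ =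
      (-(Real.pi * Complex.I)) • toC (chn (2 * g l)) := by
    intro l
    exact fwd (pl l) _ _ (fun j a => rfl) (hRiem l)
  have hκ : (-(Real.pi * Complex.I) : ℂ) ≠ 0 := by
    simp [Real.pi_ne_zero, Complex.I_ne_zero]
  have hQ : ∀ l, IsUnit (toC (qf (2 * g l) (pl l))) := by
    intro l
    have h1 : IsUnit (cmp (b l) * toC (qf (2 * g l) (pl l)) * (cmp (b l))ᵀ) := by
      rw [hrel l]
      exact ((chn_unit (g l)).smul (Units.mk0 _ hκ))
    rw [Matrix.isUnit_iff_isUnit_det] at h1 ⊢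
    rw [Matrix.det_mul, Matrix.det_mul] at h1
    exact isUnit_of_mul_isUnit_right (isUnit_of_mul_isUnit_left h1)
  let S : Setup k n (fun l => 2 * g l) :=
    { κ := -(Real.pi * Complex.I)
      Θ := Θ
      Θ' := Θ⁻¹
      Q := fun l => qf (2 * g l) (pl l)
      E := fun l => chn (2 * g l)
      Φ := fun l => cmp (b l)
      hd := fun l => by have := hg l; omega
      hκ := hκ
      hΘ := Matrix.mul_nonsing_inv _ ((Matrix.isUnit_iff_isUnit_det _).1 hΘ)
      hE := fun l => chn_Alt (g l)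
      hQ := hQ
      rel := hrel }
  refine hD S ?_ r a c W W' ⟨hc, him⟩ s hs
  intro P hP hP0 h' hh'
  by_contra hne'
  apply hno
  -- the substitution
  let f : Vars k (fun l => 2 * g l) →
      MvPolynomial (Fin (Fintype.card (Cst k)) ⊕ HEP.Var g) ℤ :=
    Sum.elim (fun o => MvPolynomial.X (Sum.inl (e (some o))))
      (fun q => MvPolynomial.X (Sum.inl (e none)) ^ (q.2.1 : ℕ) *
        MvPolynomial.X (Sum.inr ⟨q.1, (q.2.2, q.2.1)⟩))
  have hf : ∀ i, (f i).totalDegree ≤ 1 + B := by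
    rintro (o | q)
    · simp only [f, Sum.elim_inl, MvPolynomial.totalDegree_X]; omega
    · simp only [f, Sum.elim_inr]
      refine (MvPolynomial.totalDegree_mul _ _).trans ?_
      rw [MvPolynomial.totalDegree_X_pow, MvPolynomial.totalDegree_X]
      have h1 := q.2.1.2
      have h2 := hB q.1
      simp only [] at h1
      omega
  obtain ⟨m, R, hm, hRd, hR⟩ := subst P (1 + B) f hf
  -- evaluation
  have hev : ∀ Ψ : Fam (fun l => 2 * g l), (fun i => MvPolynomial.aeval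
      (Sum.elim (fun i => cst Θ (e.symm i)) (fun p : HEP.Var g =>
        (Complex.I ^ (p.2.2 : ℕ))⁻¹ * Ψ p.1 p.2.2 p.2.1)) (f i)) = pt S.κ S.Θ S.Θ' Ψ := by
    intro Ψ
    funext i
    rcases i with o | q
    · simp only [f, Sum.elim_inl, MvPolynomial.aeval_X, Equiv.symm_apply_apply, pt, cst]
      rcases o with _ | (p | p) <;> rfl
    · simp only [f, Sum.elim_inr, map_mul, map_pow, MvPolynomial.aeval_X, Sum.elim_inl,
        Equiv.symm_apply_apply, pt, cst, Option.elim_none]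
      rw [← mul_assoc, mul_inv_cancel₀ (pow_ne_zero _ Complex.I_ne_zero), one_mul]
  refine ⟨fun p => (HEP.per (b p.1) p.2.1 p.2.2 : ℂ), R, ⟨b, hb, fun p => rfl⟩,
    hRd.trans (Nat.mul_le_mul_left _ hP), ?_,
    fun l => Matrix.of fun a j => (Complex.I ^ (j : ℕ))⁻¹ * (h' l * cmp (b l)) j a, ?_, ?_⟩
  · have h1 : (fun p : HEP.Var g => (HEP.per (b p.1) p.2.1 p.2.2 : ℂ)) =
        fun p : HEP.Var g => (Complex.I ^ (p.2.2 : ℕ))⁻¹ * S.Φ p.1 p.2.2 p.2.1 := by
      funext p
      simp only [S, cmp, Matrix.of_apply]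
      rw [← mul_assoc, inv_mul_cancel₀ (pow_ne_zero _ Complex.I_ne_zero), one_mul]
    rw [h1, hR, hev S.Φ, hP0, mul_zero]
  · intro l
    rw [← hplC l]
    refine bwd (pl l) _ (h' l * cmp (b l)) (fun j a => ?_) ?_
    · simp only [Matrix.of_apply]
      rw [← mul_assoc, mul_inv_cancel₀ (pow_ne_zero _ Complex.I_ne_zero), one_mul]
    · have h1 := hh' l
      rw [Sp, Set.mem_ofPred_eq] at h1
      calc h' l * cmp (b l) * toC (qf (2 * g l) (pl l)) * (h' l * cmp (b l))ᵀ
          = h' l * (cmp (b l) * toC (qf (2 * g l) (pl l)) * (cmp (b l))ᵀ) * (h' l)ᵀ := by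
            rw [Matrix.transpose_mul]; simp only [Matrix.mul_assoc]
        _ = (-(Real.pi * Complex.I)) • (h' l * toC (chn (2 * g l)) * (h' l)ᵀ) := by
            rw [hrel l]; simp
        _ = _ := by rw [h1]
  · have h1 : (fun p : HEP.Var g => (Matrix.of fun a (j : Fin (2 * g p.1)) =>
        (Complex.I ^ (j : ℕ))⁻¹ * (h' p.1 * cmp (b p.1)) j a) p.2.1 p.2.2) =
        fun p : HEP.Var g => (Complex.I ^ (p.2.2 : ℕ))⁻¹ *
          (fun l => h' l * S.Φ l) p.1 p.2.2 p.2.1 := by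
      funext p; rfl
    rw [h1, hR, hev (fun l => h' l * S.Φ l)]
    exact mul_ne_zero (Nat.cast_ne_zero.2 hm) hne'

end APPL_

open APPL_ in
/-- the main theorem -/
theorem appl (hcore : T_CORE) (n k : ℕ) (g : Fin n → ℕ) (h : Fin n → Polynomial ℚ)
    (hg : ∀ l, 1 ≤ g l) (h0 : ∀ l, (h l).coeff 0 ≠ 0)
    (he : ∀ l, ∃ e : Fin (2 * g l) → ℝ, StrictMono e ∧
      (h l).map (algebraMap ℚ ℝ) = ∏ i, (Polynomial.X - Polynomial.C (e i))) :
    ∃ K : ℕ, 1 ≤ K ∧ ∀ (T : ℕ) (Θ : Matrix (Fin k) (Fin k) ℂ), IsUnit Θ → 1 ≤ T →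
      (({N : Fin n → ℕ | (∀ l, 1 ≤ N l ∧ N l ≤ T) ∧
        ExtraSub (g := g) Θ h N}).ncard : ℝ) ≤ K * (T : ℝ) ^ ((n : ℝ) - 1 / (K : ℝ)) := by
  classical
  obtain ⟨D, hD⟩ := hcore n (fun l => 2 * g l)
  have hB : ∀ l, 2 * g l ≤ ∑ l, 2 * g l := fun l =>
    Finset.single_le_sum (f := fun l => 2 * g l) (fun _ _ => Nat.zero_le _) (Finset.mem_univ l)
  obtain ⟨K, hK, hmain⟩ := HEP.a_FINH n (Fintype.card (Cst k)) ((1 + ∑ l, 2 * g l) * D) g h
    hg h0 he
  refine ⟨K, hK, fun T Θ hΘ hT => ?_⟩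
  refine (Nat.cast_le.2 (Set.ncard_le_ncard ?_ ?_)).trans
    (hmain T (fun i => cst Θ ((Fintype.equivFin (Cst k)).symm i)) hT)
  · rintro N ⟨hN, hex⟩
    exact ⟨hN, key h hg D (hD k) _ hB Θ hΘ _ N hex⟩
  · refine (Finset.finite_toSet (Fintype.piFinset fun _ : Fin n => Finset.Icc 1 T)).subset ?_
    rintro N ⟨hN, -⟩
    exact Finset.mem_coe.2 (Fintype.mem_piFinset.2 fun l => Finset.mem_Icc.2 (hN l))

end Pool.Agent.DRB
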