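import Pool.Agent.DRB.Targets

/-!
# CMUT: commutators with a unitary matrix near `1`
-/

set_option autoImplicit false

open Matrix Finset

namespace Pool.Agent.DRB

namespace CMUT_

variable {m : ℕ}

/-- the spectral projections of a matrix of order `N` -/
noncomputable def P (η : ℂ) (N : ℕ) (x : Matrix (Fin m) (Fin m) ℂ) (k : ℕ) :
    Matrix (Fin m) (Fin m) ℂ :=
  ((N : ℂ)⁻¹) • ∑ j ∈ range N, (η ^ (k * j)) • x ^ j

theorem root (N : ℕ) (hN : 0 < N) : ∃ η : ℂ, IsPrimitiveRoot η N :=
  ⟨_, Complex.isPrimitiveRoot_exp N hN.ne'⟩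

theorem sum_P {η : ℂ} {N : ℕ} (hN : 0 < N) (hη : IsPrimitiveRoot η N)
    (x : Matrix (Fin m) (Fin m) ℂ) : ∑ k ∈ range N, P η N x k = 1 := by
  unfold P
  rw [← Finset.smul_sum, Finset.sum_comm]
  have h1 : ∀ j ∈ range N, ∑ k ∈ range N, (η ^ (k * j)) • x ^ j =
      if j = 0 then (N : ℂ) • (1 : Matrix (Fin m) (Fin m) ℂ) else 0 := by
    intro j hj
    rw [← Finset.sum_smul]
    split_ifs with h0
    · subst h0
      simp
    · have hj1 : η ^ j ≠ 1 := by
        intro h
        have := (hη.pow_eq_one_iff_dvd j).1 h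
        have := Nat.le_of_dvd (Nat.pos_of_ne_zero h0) this
        rw [mem_range] at hj
        omega
      have h2 : ∑ k ∈ range N, η ^ (k * j) = 0 := by
        have h3 : ∑ k ∈ range N, η ^ (k * j) = ∑ k ∈ range N, (η ^ j) ^ k := by
          apply sum_congr rfl
          intro k _
          rw [← pow_mul, mul_comm]
        rw [h3]
        have h4 := mul_geom_sum (η ^ j) N
        rw [← pow_mul, mul_comm j N, pow_mul, hη.pow_eq_one, one_pow, sub_self] at h4
        rcases mul_eq_zero.1 h4 with h5 | h5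
        · exact absurd (sub_eq_zero.1 h5) hj1
        · exact h5
      rw [h2, zero_smul]
  rw [sum_congr rfl h1, sum_ite_eq' (range N) 0, if_pos (mem_range.2 hN), smul_smul,
    inv_mul_cancel₀ (by exact_mod_cast hN.ne'), one_smul]

theorem mul_P {η : ℂ} {N : ℕ} (hη : IsPrimitiveRoot η N)
    {x : Matrix (Fin m) (Fin m) ℂ} (hx : x ^ N = 1) (k : ℕ) :
    η ^ k • (x * P η N x k) = P η N x k := by
  unfold P
  rw [mul_smul_comm, smul_comm, mul_sum, smul_sum]
  congr 1
  have h1 : ∀ j ∈ range N, η ^ k • (x * (η ^ (k * j)) • x ^ j) =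
      (fun i => (η ^ (k * i)) • x ^ i) (j + 1) := by
    intro j _
    simp only
    rw [mul_smul_comm, smul_smul, pow_succ' x j, mul_add, mul_one, pow_add, mul_comm (η ^ k)]
  rw [sum_congr rfl h1]
  have h2 := sum_range_succ' (fun i => (η ^ (k * i)) • x ^ i) N
  have h3 := sum_range_succ (fun i => (η ^ (k * i)) • x ^ i) N
  have h4 : (η ^ (k * N)) • x ^ N = (η ^ (k * 0)) • x ^ 0 := by
    rw [hx, mul_comm k N, pow_mul, hη.pow_eq_one, one_pow, mul_zero, pow_zero, pow_zero]
  rw [h3, h4] at h2
  exact (add_right_cancel h2).symm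

theorem comm_P {x z : Matrix (Fin m) (Fin m) ℂ} (η : ℂ) (N : ℕ) (h : Commute x z) (k : ℕ) :
    Commute (P η N x k) z := by
  unfold P
  apply Commute.smul_left
  apply Commute.sum_left
  intro j _
  exact (h.pow_left j).smul_left _

theorem P_mul_P {η : ℂ} {N : ℕ} (hη : IsPrimitiveRoot η N)
    {x : Matrix (Fin m) (Fin m) ℂ} (hx : x ^ N = 1) {k l : ℕ} (hk : k < N) (hl : l < N)
    (hkl : k ≠ l) : P η N x k * P η N x l = 0 := by
  have h1 : η ^ k • (x * (P η N x k * P η N x l)) = P η N x k * P η N x l := by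
    rw [← mul_assoc, ← smul_mul_assoc, mul_P hη hx]
  have h2 : η ^ l • (x * (P η N x k * P η N x l)) = P η N x k * P η N x l := by
    have hc : x * (P η N x k * P η N x l) = P η N x k * (x * P η N x l) := by
      rw [← mul_assoc, ← (comm_P η N (Commute.refl x) k).eq, mul_assoc]
    rw [hc, ← mul_smul_comm, mul_P hη hx]
  have hne : η ^ k - η ^ l ≠ 0 := by
    intro h
    exact hkl (hη.pow_inj hk hl (sub_eq_zero.1 h))
  have h3 : (η ^ k - η ^ l) • (x * (P η N x k * P η N x l)) = 0 := by
    rw [sub_smul, h1, h2, sub_self]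
  have h4 := (smul_eq_zero.1 h3).resolve_left hne
  rw [h4, smul_zero] at h1
  exact h1.symm

theorem P_idem {η : ℂ} {N : ℕ} (hN : 0 < N) (hη : IsPrimitiveRoot η N)
    {x : Matrix (Fin m) (Fin m) ℂ} (hx : x ^ N = 1) {k : ℕ} (hk : k < N) :
    P η N x k * P η N x k = P η N x k := by
  have h1 : P η N x k * ∑ l ∈ range N, P η N x l = P η N x k := by
    rw [sum_P hN hη, mul_one]
  rw [mul_sum, sum_eq_single k] at h1
  · exact h1
  · intro l hl hlk
    exact P_mul_P hη hx hk (mem_range.1 hl) (fun h => hlk h.symm)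
  · intro h
    exact absurd (mem_range.2 hk) h

open scoped Matrix.Norms.L2Operator in
theorem norm_P [Nonempty (Fin m)] {η : ℂ} {N : ℕ} (hN : 0 < N) (hη : IsPrimitiveRoot η N)
    {x : Matrix (Fin m) (Fin m) ℂ} (hx : x ∈ Matrix.unitaryGroup (Fin m) ℂ) (k : ℕ) :
    ‖P η N x k‖ ≤ 1 := by
  unfold P
  rw [norm_smul, norm_inv, Complex.norm_natCast]
  have hη1 : ‖η‖ = 1 := hη.norm'_eq_one hN.ne'
  have h1 : ‖∑ j ∈ range N, (η ^ (k * j)) • x ^ j‖ ≤ N := by
    refine (norm_sum_le _ _).trans ?_
    calc ∑ j ∈ range N, ‖(η ^ (k * j)) • x ^ j‖ ≤ ∑ _j ∈ range N, (1 : ℝ) := by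
          apply sum_le_sum
          intro j _
          rw [norm_smul, norm_pow, hη1, one_pow, one_mul]
          exact (CStarRing.norm_of_mem_unitary (Submonoid.pow_mem _ hx j)).le
      _ = N := by simp
  have hN' : (0 : ℝ) < N := by exact_mod_cast hN
  calc (N : ℝ)⁻¹ * ‖∑ j ∈ range N, (η ^ (k * j)) • x ^ j‖ ≤ (N : ℝ)⁻¹ * N :=
        mul_le_mul_of_nonneg_left h1 (by positivity)
    _ = 1 := inv_mul_cancel₀ hN'.ne'

theorem conj_pow {x y : Matrix (Fin m) (Fin m) ℂ} (hy : star y * y = 1) (hy' : y * star y = 1)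
    (j : ℕ) : (y * x * star y) ^ j = y * x ^ j * star y := by
  induction j with
  | zero => rw [pow_zero, pow_zero, mul_one, hy']
  | succ j ih =>
    rw [pow_succ, ih, pow_succ]
    calc y * x ^ j * star y * (y * x * star y) = y * x ^ j * (star y * y) * x * star y := by
          simp only [mul_assoc]
      _ = y * (x ^ j * x) * star y := by rw [hy, mul_one]; simp only [mul_assoc]

theorem P_conj {x y : Matrix (Fin m) (Fin m) ℂ} (hy : star y * y = 1) (hy' : y * star y = 1)
    (η : ℂ) (N k : ℕ) : P η N (y * x * star y) k = y * P η N x k * star y := by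
  unfold P
  rw [mul_smul_comm, smul_mul_assoc, mul_sum, sum_mul]
  congr 1
  apply sum_congr rfl
  intro j _
  rw [conj_pow hy hy', mul_smul_comm, smul_mul_assoc]

end CMUT_

open scoped Matrix.Norms.L2Operator in
theorem p_CMUT : T_CMUT := by
  intro m x y hx hy hyn hfin hcomm
  rcases isEmpty_or_nonempty (Fin m) with he | hne
  · exact Subsingleton.elim _ _
  obtain ⟨N, hN, hxN⟩ := hfin
  obtain ⟨η, hη⟩ := CMUT_.root N hN
  have hy1 : star y * y = 1 := (Matrix.mem_unitaryGroup_iff').1 hy
  have hy2 : y * star y = 1 := (Matrix.mem_unitaryGroup_iff).1 hy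
  have hys : ‖star y‖ = 1 := CStarRing.norm_of_mem_unitary (Unitary.star_mem hy)
  have hc : Commute x (y * x * star y) := hcomm
  -- the off-diagonal blocks vanish
  have hoff : ∀ k < N, ∀ l < N, k ≠ l →
      CMUT_.P η N x k * y * CMUT_.P η N x l = 0 := by
    intro k hk l hl hkl
    set p := CMUT_.P η N x k with hp
    set r := CMUT_.P η N x l with hr
    have hQ : CMUT_.P η N (y * x * star y) l = y * r * star y :=
      CMUT_.P_conj hy1 hy2 η N l
    have hcm : Commute p (y * r * star y) := by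
      have h1 : Commute (CMUT_.P η N (y * x * star y) l) p :=
        CMUT_.comm_P η N (CMUT_.comm_P η N hc k).symm l
      rw [hQ] at h1
      exact h1.symm
    have hpp : p * p = p := CMUT_.P_idem hN hη hxN hk
    have hrr : r * r = r := CMUT_.P_idem hN hη hxN hl
    have hQQ : (y * r * star y) * (y * r * star y) = y * r * star y := by
      calc (y * r * star y) * (y * r * star y) = y * r * (star y * y) * r * star y := by
            simp only [mul_assoc]
        _ = y * (r * r) * star y := by rw [hy1, mul_one]; simp only [mul_assoc]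
        _ = y * r * star y := by rw [hrr]
    set e := p * (y * r * star y) with he
    have hee : e * e = e := by
      calc e * e = p * ((y * r * star y) * p) * (y * r * star y) := by
            rw [he]; simp only [mul_assoc]
        _ = p * (p * (y * r * star y)) * (y * r * star y) := by rw [hcm.eq]
        _ = (p * p) * ((y * r * star y) * (y * r * star y)) := by simp only [mul_assoc]
        _ = e := by rw [hpp, hQQ]
    have hpr : p * r = 0 := CMUT_.P_mul_P hη hxN hk hl hkl
    have he2 : e = p * (y - 1) * r * star y := by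
      have : p * (y - 1) * r = p * y * r := by
        rw [mul_sub, sub_mul, mul_one, hpr, sub_zero]
      rw [this, he]
      simp only [mul_assoc]
    have hpn : ‖p‖ ≤ 1 := CMUT_.norm_P hN hη hx k
    have hrn : ‖r‖ ≤ 1 := CMUT_.norm_P hN hη hx l
    have hen : ‖e‖ ≤ ‖y - 1‖ := by
      rw [he2]
      calc ‖p * (y - 1) * r * star y‖ ≤ ‖p * (y - 1) * r‖ * ‖star y‖ := norm_mul_le _ _
        _ = ‖p * (y - 1) * r‖ := by rw [hys, mul_one]
        _ ≤ ‖p * (y - 1)‖ * ‖r‖ := norm_mul_le _ _
        _ ≤ ‖p * (y - 1)‖ * 1 := mul_le_mul_of_nonneg_left hrn (norm_nonneg _)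
        _ = ‖p * (y - 1)‖ := mul_one _
        _ ≤ ‖p‖ * ‖y - 1‖ := norm_mul_le _ _
        _ ≤ 1 * ‖y - 1‖ := mul_le_mul_of_nonneg_right hpn (norm_nonneg _)
        _ = ‖y - 1‖ := one_mul _
    have he0 : e = 0 := by
      by_contra hne0
      have h1 : 0 < ‖e‖ := norm_pos_iff.2 hne0
      have h2 : ‖e‖ ≤ ‖e‖ * ‖e‖ := by
        conv_lhs => rw [← hee]
        exact norm_mul_le _ _
      nlinarith
    calc p * y * r = p * y * r * (star y * y) := by rw [hy1, mul_one]
      _ = e * y := by rw [he]; simp only [mul_assoc]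
      _ = 0 := by rw [he0, zero_mul]
  have hcP : ∀ l < N, y * CMUT_.P η N x l = CMUT_.P η N x l * y := by
    intro l hl
    have h1 : y * CMUT_.P η N x l = CMUT_.P η N x l * y * CMUT_.P η N x l := by
      calc y * CMUT_.P η N x l = (∑ k ∈ range N, CMUT_.P η N x k) * (y * CMUT_.P η N x l) := by
            rw [CMUT_.sum_P hN hη, one_mul]
        _ = ∑ k ∈ range N, CMUT_.P η N x k * y * CMUT_.P η N x l := by
            rw [sum_mul]
            simp only [mul_assoc]
        _ = CMUT_.P η N x l * y * CMUT_.P η N x l := by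
            rw [sum_eq_single l]
            · intro k hk hkl
              exact hoff k (mem_range.1 hk) l hl hkl
            · intro h
              exact absurd (mem_range.2 hl) h
    have h2 : CMUT_.P η N x l * y = CMUT_.P η N x l * y * CMUT_.P η N x l := by
      calc CMUT_.P η N x l * y = (CMUT_.P η N x l * y) * (∑ k ∈ range N, CMUT_.P η N x k) := by
            rw [CMUT_.sum_P hN hη, mul_one]
        _ = ∑ k ∈ range N, CMUT_.P η N x l * y * CMUT_.P η N x k := by
            rw [mul_sum]
        _ = CMUT_.P η N x l * y * CMUT_.P η N x l := by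
            rw [sum_eq_single l]
            · intro k hk hkl
              exact hoff l hl k (mem_range.1 hk) (fun h => hkl h.symm)
            · intro h
              exact absurd (mem_range.2 hl) h
    rw [h1, ← h2]
  have hη0 : η ≠ 0 := hη.ne_zero hN.ne'
  have hxsum : x = ∑ l ∈ range N, (η ^ l)⁻¹ • CMUT_.P η N x l := by
    calc x = x * ∑ l ∈ range N, CMUT_.P η N x l := by rw [CMUT_.sum_P hN hη, mul_one]
      _ = ∑ l ∈ range N, (η ^ l)⁻¹ • CMUT_.P η N x l := by
          rw [mul_sum]
          apply sum_congr rfl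
          intro l _
          conv_rhs => rw [← CMUT_.mul_P hη hxN l]
          rw [smul_smul, inv_mul_cancel₀ (pow_ne_zero _ hη0), one_smul]
  have h1 : x * y = ∑ l ∈ range N, (η ^ l)⁻¹ • (CMUT_.P η N x l * y) := by
    conv_lhs => rw [hxsum]
    rw [sum_mul]
    simp only [smul_mul_assoc]
  have h2 : y * x = ∑ l ∈ range N, (η ^ l)⁻¹ • (y * CMUT_.P η N x l) := by
    conv_lhs => rw [hxsum]
    rw [mul_sum]
    simp only [mul_smul_comm]
  rw [h1, h2]
  apply sum_congr rfl
  intro l hl
  rw [hcP l (mem_range.1 hl)]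

end Pool.Agent.DRB
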