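import Pool.Agent.DRB.Targets

/-!
# DRB-CSTR: algebraic sets with algebraic coordinates
-/

set_option autoImplicit false

namespace Pool.Agent.DRB

namespace CSTR_

open MvPolynomial

/-- a proper ideal of polynomials over a field contained in `ℂ` has a complex zero -/
theorem exists_zero {F : Type} [Field F] (j : F →+* ℂ) {ι : Type} [Fintype ι]
    (J : Ideal (MvPolynomial ι F)) (hJ : J ≠ ⊤) :
    ∃ z : ι → ℂ, ∀ p ∈ J, eval₂ j z p = 0 := by
  let : Algebra F ℂ := j.toAlgebra
  obtain ⟨m, hm, hJm⟩ := Ideal.exists_le_maximal J hJ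
  let : Field (MvPolynomial ι F ⧸ m) := Ideal.Quotient.field m
  have : Module.Finite F (MvPolynomial ι F ⧸ m) := finite_of_finite_type_of_isJacobsonRing F _
  have : Algebra.IsAlgebraic F (MvPolynomial ι F ⧸ m) := inferInstance
  let φ : (MvPolynomial ι F ⧸ m) →ₐ[F] ℂ := IsAlgClosed.lift
  let ψ : MvPolynomial ι F →ₐ[F] ℂ := φ.comp (Ideal.Quotient.mkₐ F m)
  refine ⟨fun i => ψ (X i), ?_⟩
  intro p hp
  have h1 : ψ p = 0 := by
    show φ (Ideal.Quotient.mk m p) = 0
    rw [Ideal.Quotient.eq_zero_iff_mem.2 (hJm hp), map_zero]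
  have h2 : ψ = aeval (fun i => ψ (X i)) := by
    apply MvPolynomial.algHom_ext
    intro i
    rw [aeval_X]
  rw [h2] at h1
  exact h1

/-- a transcendental number -/
theorem exists_tr : ∃ τ : ℂ, ¬ IsAlgebraic ℚ τ := by
  by_contra hcon
  push Not at hcon
  have h1 := Algebraic.countable ℚ ℂ
  have h2 : {x : ℂ | IsAlgebraic ℚ x} = Set.univ := Set.eq_univ_of_forall hcon
  rw [h2] at h1
  exact not_countable_complex h1

end CSTR_

open CSTR_ MvPolynomial in
/-- CSTR: a coordinate that takes only algebraic values on an algebraic set defined over `ℚ`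
takes finitely many values. -/
theorem p_CSTR : T_CSTR := by
  classical
  intro ι _ s i hs
  let e1 : MvPolynomial ι ℚ →+* MvPolynomial ι (Polynomial ℚ) :=
    MvPolynomial.map (algebraMap ℚ (Polynomial ℚ))
  let e2 : MvPolynomial ι (Polynomial ℚ) →+* MvPolynomial ι (FractionRing (Polynomial ℚ)) :=
    MvPolynomial.map (algebraMap (Polynomial ℚ) (FractionRing (Polynomial ℚ)))
  set JR : Ideal (MvPolynomial ι (Polynomial ℚ)) :=
    Ideal.span (e1 '' s ∪ {X i - C Polynomial.X}) with hJR
  by_cases hJ : JR.map e2 = ⊤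
  · -- a nonzero polynomial in the coordinate is in the ideal
    have hloc : ∃ d : Polynomial ℚ, d ≠ 0 ∧ (C d : MvPolynomial ι (Polynomial ℚ)) ∈ JR := by
      let : Algebra (MvPolynomial ι (Polynomial ℚ))
        (MvPolynomial ι (FractionRing (Polynomial ℚ))) := MvPolynomial.algebraMvPolynomial
      have h1 : (1 : MvPolynomial ι (FractionRing (Polynomial ℚ))) ∈
          Ideal.map (algebraMap (MvPolynomial ι (Polynomial ℚ))
            (MvPolynomial ι (FractionRing (Polynomial ℚ)))) JR := by
        have h2 : JR.map e2 = Ideal.map (algebraMap (MvPolynomial ι (Polynomial ℚ))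
            (MvPolynomial ι (FractionRing (Polynomial ℚ)))) JR := rfl
        rw [← h2, hJ]
        exact Submodule.mem_top
      have := MvPolynomial.isLocalization (σ := ι) (nonZeroDivisors (Polynomial ℚ))
        (FractionRing (Polynomial ℚ))
      rw [IsLocalization.mem_map_algebraMap_iff
        ((nonZeroDivisors (Polynomial ℚ)).map (C (σ := ι)))] at h1
      obtain ⟨⟨⟨x, hx⟩, ⟨y, hy⟩⟩, hxy⟩ := h1
      rw [one_mul] at hxy
      obtain ⟨d, hd, hdy⟩ := hy
      have hinj : Function.Injective e2 :=
        MvPolynomial.map_injective _ (IsFractionRing.injective _ _)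
      have h3 : y = x := hinj hxy
      refine ⟨d, nonZeroDivisors.ne_zero hd, ?_⟩
      have h4 : (C d : MvPolynomial ι (Polynomial ℚ)) = y := hdy
      rw [h4, h3]
      exact hx
    obtain ⟨d, hd0, hd⟩ := hloc
    refine Set.Finite.subset (Polynomial.rootSet_finite d ℂ) ?_
    rintro x ⟨z, hz, rfl⟩
    rw [Polynomial.mem_rootSet]
    refine ⟨hd0, ?_⟩
    let ψ : MvPolynomial ι (Polynomial ℚ) →+* ℂ :=
      MvPolynomial.eval₂Hom (Polynomial.aeval (R := ℚ) (z i)).toRingHom z
    have hker : JR ≤ RingHom.ker ψ := by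
      rw [hJR, Ideal.span_le]
      rintro q (⟨p, hp, rfl⟩ | hq)
      · have h1 := hz p hp
        show ψ (e1 p) = 0
        have h2 : ψ (e1 p) = aeval z p := by
          show eval₂Hom (Polynomial.aeval (R := ℚ) (z i)).toRingHom z
            (MvPolynomial.map (algebraMap ℚ (Polynomial ℚ)) p) = aeval z p
          rw [MvPolynomial.eval₂Hom_map_hom, MvPolynomial.aeval_def,
            MvPolynomial.coe_eval₂Hom]
          congr 1
          exact Subsingleton.elim _ _
        rw [h2, h1]
      · rw [Set.mem_singleton_iff] at hq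
        subst hq
        show ψ (X i - C Polynomial.X) = 0
        simp [ψ]
    have h5 : ψ (C d) = 0 := hker hd
    have h6 : ψ (C d) = Polynomial.aeval (z i) d := by simp [ψ]
    rw [← h6]
    exact h5
  · -- a zero with a transcendental coordinate
    exfalso
    obtain ⟨τ, hτ⟩ := exists_tr
    have hinj : Function.Injective (Polynomial.aeval (R := ℚ) τ : Polynomial ℚ →ₐ[ℚ] ℂ) := by
      rw [← transcendental_iff_injective]
      exact hτ
    let j : FractionRing (Polynomial ℚ) →+* ℂ :=
      IsFractionRing.lift (A := Polynomial ℚ) (K := FractionRing (Polynomial ℚ))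
        (g := (Polynomial.aeval (R := ℚ) τ : Polynomial ℚ →ₐ[ℚ] ℂ).toRingHom) hinj
    have hj : ∀ q : Polynomial ℚ, j (algebraMap (Polynomial ℚ) (FractionRing (Polynomial ℚ)) q) =
        Polynomial.aeval τ q := by
      intro q
      exact IsFractionRing.lift_algebraMap (A := Polynomial ℚ)
        (K := FractionRing (Polynomial ℚ)) hinj q
    obtain ⟨z, hz⟩ := exists_zero j (JR.map e2) hJ
    have hz1 : ∀ p ∈ s, aeval z p = 0 := by
      intro p hp
      have h1 := hz (e2 (e1 p)) (Ideal.mem_map_of_mem e2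
        (Ideal.subset_span (Or.inl ⟨p, hp, rfl⟩)))
      have h2 : eval₂ j z (e2 (e1 p)) = aeval z p := by
        show eval₂ j z (MvPolynomial.map _ (MvPolynomial.map _ p)) = _
        rw [MvPolynomial.map_map, MvPolynomial.eval₂_map, MvPolynomial.aeval_def]
        congr 1
        exact Subsingleton.elim _ _
      rw [← h2]
      exact h1
    have hz2 : z i = τ := by
      have h1 := hz (e2 (X i - C Polynomial.X)) (Ideal.mem_map_of_mem e2
        (Ideal.subset_span (Or.inr rfl)))
      have h2 : e2 (X i - C Polynomial.X) = X i - C (algebraMap (Polynomial ℚ)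
          (FractionRing (Polynomial ℚ)) Polynomial.X) := by
        simp [e2]
      rw [h2, MvPolynomial.eval₂_sub, MvPolynomial.eval₂_X, MvPolynomial.eval₂_C, hj,
        Polynomial.aeval_X] at h1
      exact sub_eq_zero.1 h1
    have h3 := hs z hz1
    rw [hz2] at h3
    exact hτ h3

end Pool.Agent.DRB
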