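import Pool.Agent.DRB.Targets

/-!
# DRB: the complexification of a rational subspace and rational functionals
-/

set_option autoImplicit false

open Matrix

namespace Pool.Agent.DRB

namespace CXA_

open Classical in
theorem expand {J : Type} [Fintype J] (T : (J → ℚ) →ₗ[ℚ] (J → ℚ)) (x : J → ℚ) (i : J) :
    T x i = ∑ j, T (Pi.single j 1) i * x j := by
  conv_lhs => rw [← Finset.univ_sum_single x]
  rw [map_sum, Finset.sum_apply]
  refine Finset.sum_congr rfl fun j _ => ?_
  have : (Pi.single j (x j) : J → ℚ) = x j • Pi.single j 1 := by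
    rw [← Pi.single_smul', smul_eq_mul, mul_one]
  rw [this, map_smul, Pi.smul_apply, smul_eq_mul, mul_comm]

end CXA_

open Classical in
theorem p_CXA : T_CXA := by
  intro J _ W v
  constructor
  · intro hv s hs
    induction hv using Submodule.span_induction with
    | mem x hx =>
      obtain ⟨w, hw, rfl⟩ := hx
      have h := hs w hw
      have h2 := congrArg (fun q : ℚ => (q : ℂ)) h
      simpa using h2
    | zero => simp
    | add x y _ _ hx hy =>
      simp only [Pi.add_apply, mul_add, Finset.sum_add_distrib, hx, hy, add_zero]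
    | smul c x _ hx =>
      have : ∑ j, (s j : ℂ) * (c • x) j = c * ∑ j, (s j : ℂ) * x j := by
        rw [Finset.mul_sum]
        refine Finset.sum_congr rfl fun j _ => ?_
        rw [Pi.smul_apply, smul_eq_mul]
        ring
      rw [this, hx, mul_zero]
  · intro h
    obtain ⟨f, hf⟩ := W.subtype.exists_leftInverse_of_injective
      (LinearMap.ker_eq_bot.2 W.injective_subtype)
    set T : (J → ℚ) →ₗ[ℚ] (J → ℚ) := LinearMap.id - W.subtype ∘ₗ f with hT
    have hTW : ∀ w ∈ W, T w = 0 := by
      intro w hw
      have h1 := LinearMap.congr_fun hf ⟨w, hw⟩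
      simp only [LinearMap.coe_comp, Function.comp_apply, LinearMap.id_coe, id_eq,
        Submodule.subtype_apply] at h1
      rw [hT]
      simp only [LinearMap.sub_apply, LinearMap.id_apply, LinearMap.coe_comp,
        Function.comp_apply, Submodule.subtype_apply]
      rw [h1]
      simp
    have h1 : ∀ i, ∑ j, ((T (Pi.single j 1) i : ℚ) : ℂ) * v j = 0 := by
      intro i
      apply h
      intro w hw
      rw [← CXA_.expand, hTW w hw]
      rfl
    have h2 : v = ∑ j, v j • (fun i => ((f (Pi.single j 1) : J → ℚ) i : ℂ)) := by
      funext i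
      have h3 := h1 i
      have h4 : ∀ j, T (Pi.single j 1) i = (Pi.single j 1 : J → ℚ) i -
          (f (Pi.single j 1) : J → ℚ) i := fun j => rfl
      simp only [h4] at h3
      push_cast at h3
      simp only [sub_mul, Finset.sum_sub_distrib] at h3
      rw [Finset.sum_apply]
      have h5 : ∑ j, (((Pi.single j 1 : J → ℚ) i : ℚ) : ℂ) * v j = v i := by
        rw [Finset.sum_eq_single i]
        · simp
        · intro j _ hj
          rw [Pi.single_eq_of_ne hj.symm]
          simp
        · intro h6
          exact absurd (Finset.mem_univ i) h6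
      rw [h5] at h3
      rw [sub_eq_zero.1 h3]
      refine Finset.sum_congr rfl fun j _ => ?_
      rw [Pi.smul_apply, smul_eq_mul, mul_comm]
    rw [h2]
    refine Submodule.sum_mem _ fun j _ => Submodule.smul_mem _ _ (Submodule.subset_span ?_)
    exact ⟨(f (Pi.single j 1) : J → ℚ), (f (Pi.single j 1)).2, rfl⟩

end Pool.Agent.DRB
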