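import Pool.Agent.DRB.Targets

set_option autoImplicit false

open Matrix

namespace Pool.Agent.DRB

namespace DERQ_

open KaehlerDifferential Polynomial TensorProduct

/-- The field of complex numbers is formally smooth over every subfield. -/
theorem smooth_field (K : Type) [Field K] [CharZero K] [Algebra K ℂ] :
    Algebra.FormallySmooth K ℂ := by
  obtain ⟨s, hs⟩ := exists_isTranscendenceBasis K ℂ
  have h1 := hs.isAlgebraic_field
  have h2 : Algebra.IsSeparable (IntermediateField.adjoin K (Set.range ((↑) : s → ℂ))) ℂ :=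
    inferInstance
  exact Algebra.FormallySmooth.of_algebraicIndependent_of_isSeparable hs.1

/-- The differential of a transcendental number does not vanish. -/
theorem D_ne_zero (x : ℂ) (hx : Transcendental ℚ x) : D ℚ ℂ x ≠ 0 := by
  let : Algebra ℚ[X] ℂ := (Polynomial.aeval x).toRingHom.toAlgebra
  have : IsScalarTower ℚ ℚ[X] ℂ := IsScalarTower.of_algebraMap_eq' (Subsingleton.elim _ _)
  have hX : algebraMap ℚ[X] ℂ X = x := Polynomial.aeval_X x
  have hinj : Function.Injective (algebraMap ℚ[X] ℂ) :=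
    transcendental_iff_injective.mp hx
  have : FaithfulSMul ℚ[X] ℂ := (faithfulSMul_iff_algebraMap_injective ℚ[X] ℂ).mpr hinj
  let := FractionRing.liftAlgebra ℚ[X] ℂ
  have := FractionRing.isScalarTower_liftAlgebra ℚ[X] ℂ
  have h1 : Algebra.FormallySmooth (FractionRing ℚ[X]) ℂ := smooth_field (FractionRing ℚ[X])
  have h2 : Algebra.FormallySmooth ℚ[X] (FractionRing ℚ[X]) :=
    Algebra.FormallySmooth.of_isLocalization (nonZeroDivisors ℚ[X])
  have h3 : Algebra.FormallySmooth ℚ[X] ℂ :=
    Algebra.FormallySmooth.comp ℚ[X] (FractionRing ℚ[X]) ℂ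
  intro h0
  have h4 : mapBaseChange ℚ ℚ[X] ℂ (1 ⊗ₜ D ℚ ℚ[X] X) = 0 := by
    rw [mapBaseChange_tmul, one_smul, KaehlerDifferential.map_D, hX, h0]
  obtain ⟨y, hy⟩ := (Algebra.H1Cotangent.exact_δ_mapBaseChange ℚ ℚ[X] ℂ _).mp h4
  have h5 : y = 0 := Subsingleton.elim _ _
  rw [h5, map_zero] at hy
  have h6 := congrArg (TensorProduct.rid ℚ[X] ℂ)
    (congrArg (LinearEquiv.lTensor ℂ (polynomialEquiv ℚ)) hy)
  rw [map_zero, map_zero, LinearEquiv.lTensor_tmul, polynomialEquiv_D, TensorProduct.rid_tmul,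
    Polynomial.derivative_X, one_smul] at h6
  exact one_ne_zero h6.symm

end DERQ_

theorem p_DERQ : T_DERQ := by
  intro x hx
  by_contra h
  refine DERQ_.D_ne_zero x h ?_
  rw [← Module.forall_dual_apply_eq_zero_iff ℂ]
  intro f
  exact hx (f.compDer (KaehlerDifferential.D ℚ ℂ))

end Pool.Agent.DRB
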