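import Pool.Agent.DRB.Targets

/-!
# DRB: derivations and rational subspaces
-/

set_option autoImplicit false

open Matrix

namespace Pool.Agent.DRB

namespace DRVL_

theorem der_rat (δ : Derivation ℚ ℂ ℂ) (q : ℚ) : δ (q : ℂ) = 0 := by
  have h := δ.map_algebraMap q
  simpa using h

/-- the complexification of a rational subspace is stable under derivations -/
theorem stab {J : Type} (W : Submodule ℚ (J → ℚ)) (δ : Derivation ℚ ℂ ℂ) (x : J → ℂ)
    (hx : x ∈ cx W) : (fun j => δ (x j)) ∈ cx W := by
  unfold cx at hx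
  induction hx using Submodule.span_induction with
  | mem x hx =>
    obtain ⟨w, hw, rfl⟩ := hx
    have : (fun j => δ ((w j : ℚ) : ℂ)) = (0 : J → ℂ) := by
      funext j
      rw [der_rat]
      rfl
    rw [this]
    exact Submodule.zero_mem _
  | zero =>
    have : (fun j => δ ((0 : J → ℂ) j)) = (0 : J → ℂ) := by
      funext j
      simp
    rw [this]
    exact Submodule.zero_mem _
  | add x y _ _ hx hy =>
    have : (fun j => δ ((x + y) j)) = (fun j => δ (x j)) + (fun j => δ (y j)) := by
      funext j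
      simp
    rw [this]
    exact Submodule.add_mem _ hx hy
  | smul c x hx0 hx =>
    have : (fun j => δ ((c • x) j)) = c • (fun j => δ (x j)) + δ c • x := by
      funext j
      simp only [Pi.smul_apply, smul_eq_mul, Derivation.leibniz, Pi.add_apply]
      ring
    rw [this]
    exact Submodule.add_mem _ (Submodule.smul_mem _ _ hx) (Submodule.smul_mem _ _ hx0)

end DRVL_

theorem p_DRVL : T_DRVL := by
  intro J _ _ W W' M M' δ hM him v hv
  rw [← him] at hv
  obtain ⟨u, hu, rfl⟩ := hv
  have h1 : (M.map δ * M') *ᵥ (M.mulVecLin u) = M.map δ *ᵥ u := by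
    rw [Matrix.mulVecLin_apply, Matrix.mulVec_mulVec, Matrix.mul_assoc, hM, Matrix.mul_one]
  rw [h1]
  clear h1
  have hmem : ∀ x ∈ cx W, M *ᵥ x ∈ cx W' := by
    intro x hx
    rw [← him]
    exact ⟨x, hx, rfl⟩
  have hu' : u ∈ cx W := hu
  unfold cx at hu'
  induction hu' using Submodule.span_induction with
  | mem x hx =>
    obtain ⟨w, hw, rfl⟩ := hx
    have h2 := hmem _ (Submodule.subset_span ⟨w, hw, rfl⟩)
    have h3 := DRVL_.stab W' δ _ h2
    have h4 : (M.map δ *ᵥ fun j => ((w j : ℚ) : ℂ)) =
        fun i => δ ((M *ᵥ fun j => ((w j : ℚ) : ℂ)) i) := by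
      funext i
      simp only [Matrix.mulVec, dotProduct, Matrix.map_apply, map_sum, Derivation.leibniz,
        DRVL_.der_rat, smul_eq_mul, mul_zero, zero_add]
      refine Finset.sum_congr rfl fun j _ => ?_
      ring
    simp only at h4 ⊢
    rw [h4]
    exact h3
  | zero =>
    rw [Matrix.mulVec_zero]
    exact Submodule.zero_mem _
  | add x y hx0 hy0 hx hy =>
    rw [Matrix.mulVec_add]
    exact Submodule.add_mem _ (hx hx0) (hy hy0)
  | smul c x hx0 hx =>
    rw [Matrix.mulVec_smul]
    exact Submodule.smul_mem _ _ (hx hx0)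

end Pool.Agent.DRB
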