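import Pool.Agent.DRB.Targets
import Pool.Agent.DRB.TMUL

/-!
# DRB: FALG, the entries of the elements of `F` are algebraic if `l0` is bad
-/

set_option autoImplicit false

open Matrix

namespace Pool.Agent.DRB

namespace FALG_

/-- Leibniz rule for matrices -/
theorem map_mul_der {J : Type} [Fintype J] (δ : Derivation ℚ ℂ ℂ) (A B : Matrix J J ℂ) :
    (A * B).map δ = A.map δ * B + A * B.map δ := by
  ext i j
  rw [Matrix.map_apply, Matrix.mul_apply, map_sum, Matrix.add_apply, Matrix.mul_apply,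
    Matrix.mul_apply, ← Finset.sum_add_distrib]
  refine Finset.sum_congr rfl fun k _ => ?_
  rw [Derivation.leibniz, Matrix.map_apply, Matrix.map_apply, smul_eq_mul, smul_eq_mul]
  ring

theorem der_rat (δ : Derivation ℚ ℂ ℂ) (q : ℚ) : δ (q : ℂ) = 0 := by
  have := δ.map_algebraMap q
  rwa [eq_ratCast] at this

theorem map_toC {J : Type} (δ : Derivation ℚ ℂ ℂ) (E : Matrix J J ℚ) : (toC E).map δ = 0 := by
  ext i j
  simp only [Matrix.map_apply, Matrix.zero_apply]
  exact der_rat δ _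

theorem map_smul_der {J : Type} (δ : Derivation ℚ ℂ ℂ) (s : ℂ) (A : Matrix J J ℂ) :
    (s • A).map δ = δ s • A + s • A.map δ := by
  ext i j
  simp only [Matrix.map_apply, Matrix.smul_apply, Matrix.add_apply, smul_eq_mul,
    Derivation.leibniz]
  ring

theorem map_transpose_der {J : Type} (δ : Derivation ℚ ℂ ℂ) (A : Matrix J J ℂ) :
    (Aᵀ).map δ = (A.map δ)ᵀ := rfl

theorem tot_mul {k n : ℕ} {d : Fin n → ℕ} (X0 Y0 : Matrix (Fin k) (Fin k) ℂ) (X Y : Fam d) :
    tot X0 X * tot Y0 Y = tot (X0 * Y0) (fun l => X l * Y l) := by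
  unfold tot
  rw [Matrix.fromBlocks_multiply, Matrix.blockDiagonal'_mul]
  simp

theorem tot_one {k n : ℕ} {d : Fin n → ℕ} :
    tot (1 : Matrix (Fin k) (Fin k) ℂ) (1 : Fam d) = 1 := by
  unfold tot
  rw [Matrix.blockDiagonal'_one, Matrix.fromBlocks_one]

theorem tot_map {k n : ℕ} {d : Fin n → ℕ} (δ : Derivation ℚ ℂ ℂ)
    (X0 : Matrix (Fin k) (Fin k) ℂ) (X : Fam d) :
    (tot X0 X).map δ = tot (X0.map δ) (fun l => (X l).map δ) := by
  unfold tot
  rw [Matrix.fromBlocks_map, Matrix.blockDiagonal'_map _ _ (map_zero δ)]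
  congr 1
  · ext i j; simp
  · ext i j; simp

end FALG_

open FALG_ in
theorem p_FALG (h1 : T_TDER) (h2 : T_DRVL) (h3 : T_DERQ) : T_FALG := by
  intro k n d r a W' E l0 hE hd hbad g hg i j
  obtain ⟨hgSp, s, t, G0, G, hs, ht, hG0, hG, hGl0, him⟩ := hg
  apply h3
  intro δ
  -- inverses
  have hG0' : G0⁻¹ * G0 = 1 :=
    Matrix.nonsing_inv_mul G0 ((Matrix.isUnit_iff_isUnit_det G0).mp hG0)
  have hG' : ∀ l, (G l)⁻¹ * G l = 1 := fun l =>
    Matrix.nonsing_inv_mul (G l) ((Matrix.isUnit_iff_isUnit_det (G l)).mp (hG l))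
  have hG'' : ∀ l, G l * (G l)⁻¹ = 1 := fun l =>
    Matrix.mul_nonsing_inv (G l) ((Matrix.isUnit_iff_isUnit_det (G l)).mp (hG l))
  set Gi : Fam d := fun l => (G l)⁻¹ with hGi
  have htot : tot G0⁻¹ Gi * tot G0 G = 1 := by
    rw [tot_mul, hG0']
    have : (fun l => Gi l * G l) = (1 : Fam d) := by
      funext l
      exact hG' l
    rw [this, tot_one]
  set M := tens a t (tot G0 G) with hM
  set M' := tens a (fun i => (t i)⁻¹) (tot G0⁻¹ Gi) with hM'
  have hMM : M' * M = 1 := by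
    rw [hM, hM', (p_TMUL (Ix k d) r a _ t (tot G0⁻¹ Gi) (tot G0 G)).1, htot]
    have : (fun i => (t i)⁻¹ * t i) = (1 : Fin r → ℂ) := by
      funext i
      exact inv_mul_cancel₀ (ht i)
    rw [this, (p_TMUL (Ix k d) r a 1 1 1 1).2]
  have hMM' : M * M' = 1 := mul_eq_one_comm.mp hMM
  have hpres := h2 (TI (Ix k d) a) W' W' M M' δ hMM him
  have hder := h1 (Ix k d) r a t (tot G0 G) (tot G0⁻¹ Gi) δ htot ht
  have hX : M.map δ * M' = dtens a (fun i => δ (t i) / t i)
      (tot (G0.map δ * G0⁻¹) (fun l => (G l).map δ * Gi l)) := by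
    rw [hM, hder, Matrix.mul_assoc, ← hM, hMM', Matrix.mul_one, tot_map, tot_mul]
  have hP : Pres a W' (fun i => δ (t i) / t i) (G0.map δ * G0⁻¹)
      (fun l => (G l).map δ * Gi l) := by
    intro v hv
    rw [← hX]
    exact hpres v hv
  -- the component at `l0`
  set E' := toC (E l0) with hE'
  set X : Matrix (Fin (d l0)) (Fin (d l0)) ℂ := (G l0).map δ * Gi l0 with hXdef
  have hgE : g * E' * gᵀ = E' := hgSp
  have hGE : G l0 * E' * (G l0)ᵀ = s ^ 2 • E' := by
    rw [hGl0, Matrix.transpose_smul, Matrix.smul_mul, Matrix.smul_mul, Matrix.mul_smul, hgE,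
      smul_smul]
    congr 1
    ring
  have hdE : E'.map δ = 0 := map_toC δ (E l0)
  have hD : (G l0).map δ * E' * (G l0)ᵀ + G l0 * E' * ((G l0).map δ)ᵀ = (2 * s * δ s) • E' := by
    have e1 := congrArg (fun Z : Matrix (Fin (d l0)) (Fin (d l0)) ℂ => Z.map δ) hGE
    rw [map_mul_der, map_mul_der, map_smul_der, hdE, map_transpose_der, Matrix.mul_zero, add_zero,
      smul_zero, add_zero] at e1
    rw [e1]
    congr 1
    rw [sq, Derivation.leibniz, smul_eq_mul]
    ring
  have hXE : s ^ 2 • (X * E' + E' * Xᵀ) = (2 * s * δ s) • E' := by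
    rw [← hD, smul_add, ← Matrix.mul_smul, ← Matrix.smul_mul, ← hGE, hXdef]
    have e2 : (G l0).map δ * Gi l0 * (G l0 * E' * (G l0)ᵀ) = (G l0).map δ * E' * (G l0)ᵀ := by
      calc (G l0).map δ * Gi l0 * (G l0 * E' * (G l0)ᵀ)
          = (G l0).map δ * (Gi l0 * G l0) * E' * (G l0)ᵀ := by simp only [Matrix.mul_assoc]
        _ = _ := by rw [hGi]; simp only; rw [hG' l0, Matrix.mul_one]
    have e3 : G l0 * E' * (G l0)ᵀ * ((G l0).map δ * Gi l0)ᵀ = G l0 * E' * ((G l0).map δ)ᵀ := by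
      calc G l0 * E' * (G l0)ᵀ * ((G l0).map δ * Gi l0)ᵀ
          = G l0 * E' * ((Gi l0 * G l0)ᵀ * ((G l0).map δ)ᵀ) := by
            rw [Matrix.transpose_mul, Matrix.transpose_mul]
            simp only [Matrix.mul_assoc]
        _ = _ := by rw [hGi]; simp only; rw [hG' l0, Matrix.transpose_one, Matrix.one_mul]
    rw [e2, e3]
  have hs2 : s ^ 2 ≠ 0 := pow_ne_zero 2 hs
  have hXE2 : X * E' + E' * Xᵀ = (2 * δ s / s) • E' := by
    have e4 : X * E' + E' * Xᵀ = (s ^ 2)⁻¹ • ((2 * s * δ s) • E') := by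
      rw [← hXE, smul_smul, inv_mul_cancel₀ hs2, one_smul]
    rw [e4, smul_smul]
    congr 1
    field_simp
  obtain ⟨c, hc⟩ := hbad _ _ _ hP ⟨_, hXE2⟩
  have hc' : X = c • 1 := hc
  have hE0 : E' ≠ 0 := by
    intro h0
    have h5 := hE.2
    rw [h0] at h5
    obtain ⟨b, hb⟩ := h5.exists_right_inv
    rw [Matrix.zero_mul] at hb
    have h6 := congrFun (congrFun hb ⟨0, hd⟩) ⟨0, hd⟩
    simp at h6
  have hcs : c = δ s / s := by
    rw [hc', Matrix.smul_mul, Matrix.one_mul, Matrix.transpose_smul, Matrix.transpose_one,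
      Matrix.mul_smul, Matrix.mul_one, ← add_smul] at hXE2
    have h6 : (c + c - 2 * δ s / s) • E' = 0 := by
      rw [sub_smul, hXE2, sub_self]
    rcases smul_eq_zero.mp h6 with h7 | h7
    · have : 2 * (c - δ s / s) = 0 := by rw [← h7]; ring
      have h8 := (mul_eq_zero.mp this).resolve_left two_ne_zero
      exact sub_eq_zero.mp h8
    · exact absurd h7 hE0
  have hfin : (G l0).map δ = c • G l0 := by
    have e5 : (G l0).map δ * Gi l0 * G l0 = (G l0).map δ := by
      rw [Matrix.mul_assoc]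
      have : Gi l0 * G l0 = 1 := hG' l0
      rw [this, Matrix.mul_one]
    rw [← e5, ← hXdef, hc', Matrix.smul_mul, Matrix.one_mul]
  have hlast : s • g.map δ = 0 := by
    rw [hGl0, map_smul_der, hcs, smul_smul, div_mul_cancel₀ _ hs] at hfin
    have h9 := congrArg (fun Z => Z - δ s • g) hfin
    simpa using h9
  have h10 : g.map δ = 0 := (smul_eq_zero.mp hlast).resolve_left hs
  have h11 := congrFun (congrFun h10 i) j
  simpa using h11

end Pool.Agent.DRB
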