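import Mathlib
import Pool.Agent.DRB.Targets

/-!
# DRB-FFIN: if all entries of the elements of `F` are algebraic, then `F` is finite
-/

set_option autoImplicit false

open Matrix

namespace Pool.Agent.DRB

namespace FFIN_

/-- the variables -/
abbrev FV (k : ℕ) {n : ℕ} (d : Fin n → ℕ) (r m : ℕ) : Type :=
  ((Fin m × Fin m) ⊕ Bool) ⊕ ((Fin r × Bool) ⊕ (((Fin k × Fin k) × Bool) ⊕
    (((l : Fin n) × (Fin (d l) × Fin (d l))) × Bool)))

section vars

variable {k n : ℕ} {d : Fin n → ℕ} {r m : ℕ} {R : Type}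

/-- matrix of the variables `g` -/
def mg (z : FV k d r m → R) : Matrix (Fin m) (Fin m) R :=
  Matrix.of fun i j => z (Sum.inl (Sum.inl (i, j)))

/-- the variables `s`, `s'` -/
def ms (z : FV k d r m → R) (b : Bool) : R := z (Sum.inl (Sum.inr b))

/-- the variables `t`, `t'` -/
def mt (z : FV k d r m → R) (b : Bool) (i : Fin r) : R := z (Sum.inr (Sum.inl (i, b)))

/-- the variables `G0`, `G0'` -/
def m0 (z : FV k d r m → R) (b : Bool) : Matrix (Fin k) (Fin k) R :=
  Matrix.of fun i j => z (Sum.inr (Sum.inr (Sum.inl ((i, j), b))))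

/-- the variables `G`, `G'` -/
def mG (z : FV k d r m → R) (b : Bool) (l : Fin n) : Matrix (Fin (d l)) (Fin (d l)) R :=
  Matrix.of fun i j => z (Sum.inr (Sum.inr (Sum.inr (⟨l, (i, j)⟩, b))))

end vars

/-- `tot` over any ring -/
def totR {R : Type} [CommRing R] {k n : ℕ} {d : Fin n → ℕ} (X0 : Matrix (Fin k) (Fin k) R)
    (X : ∀ l, Matrix (Fin (d l)) (Fin (d l)) R) : Matrix (Ix k d) (Ix k d) R :=
  Matrix.fromBlocks X0 0 0 (Matrix.blockDiagonal' X)

/-- `tens` over any ring -/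
def tensR {R : Type} [CommRing R] {I : Type} {r : ℕ} (a : Fin r → ℕ) (c : Fin r → R)
    (M : Matrix I I R) : Matrix (TI I a) (TI I a) R :=
  Matrix.blockDiagonal' fun i =>
    (Matrix.of fun F G => c i * ∏ t, M (F t) (G t) : Matrix (Fin (a i) → I) (Fin (a i) → I) R)

theorem totR_map {R : Type} [CommRing R] (φ : R →+* ℂ) {k n : ℕ} {d : Fin n → ℕ}
    (X0 : Matrix (Fin k) (Fin k) R) (X : ∀ l, Matrix (Fin (d l)) (Fin (d l)) R) :
    (totR X0 X).map φ = tot (X0.map φ) (fun l => (X l).map φ) := by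
  unfold totR tot
  rw [Matrix.fromBlocks_map, Matrix.blockDiagonal'_map _ _ (map_zero φ)]
  rw [Matrix.map_zero _ (map_zero φ), Matrix.map_zero _ (map_zero φ)]

theorem tensR_map {R : Type} [CommRing R] (φ : R →+* ℂ) {I : Type} {r : ℕ} (a : Fin r → ℕ)
    (c : Fin r → R) (M : Matrix I I R) :
    (tensR a c M).map φ = tens a (fun i => φ (c i)) (M.map φ) := by
  unfold tensR tens
  rw [Matrix.blockDiagonal'_map _ _ (map_zero φ)]
  congr 1
  funext i
  ext F G
  simp [tpow, map_prod]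

variable {k n : ℕ} {d : Fin n → ℕ} {r : ℕ}

/-- the conditions -/
def Good (a : Fin r → ℕ) (W' : Submodule ℚ (TI (Ix k d) a → ℚ))
    (E : ∀ l, Matrix (Fin (d l)) (Fin (d l)) ℚ) (l0 : Fin n)
    (z : FV k d r (d l0) → ℂ) : Prop :=
  mg z * toC (E l0) * (mg z)ᵀ = toC (E l0) ∧ ms z false * ms z true = 1 ∧
  (∀ i, mt z false i * mt z true i = 1) ∧ m0 z false * m0 z true = 1 ∧
  (∀ l, mG z false l * mG z true l = 1) ∧ mG z false l0 = ms z false • mg z ∧
  ∀ w ∈ W', ∀ u : TI (Ix k d) a → ℚ, (∀ w ∈ W', ∑ j, u j * w j = 0) →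
    ∑ j, (u j : ℂ) * (∑ j', tens a (mt z false) (tot (m0 z false) (mG z false)) j j' *
      (w j' : ℂ)) = 0

/-- the polynomials of the first equation -/
noncomputable def P1 (k : ℕ) {n : ℕ} {d : Fin n → ℕ} (r : ℕ)
    (E : ∀ l, Matrix (Fin (d l)) (Fin (d l)) ℚ) (l0 : Fin n) :
    Matrix (Fin (d l0)) (Fin (d l0)) (MvPolynomial (FV k d r (d l0)) ℚ) :=
  mg MvPolynomial.X * (E l0).map (MvPolynomial.C) * (mg MvPolynomial.X)ᵀ

/-- the polynomials of the fourth equation -/
noncomputable def P4 (k : ℕ) {n : ℕ} (d : Fin n → ℕ) (r : ℕ) (l0 : Fin n) :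
    Matrix (Fin k) (Fin k) (MvPolynomial (FV k d r (d l0)) ℚ) :=
  m0 MvPolynomial.X false * m0 MvPolynomial.X true

/-- the polynomials of the fifth equation -/
noncomputable def P5 (k : ℕ) {n : ℕ} (d : Fin n → ℕ) (r : ℕ) (l0 l : Fin n) :
    Matrix (Fin (d l)) (Fin (d l)) (MvPolynomial (FV k d r (d l0)) ℚ) :=
  mG MvPolynomial.X false l * mG MvPolynomial.X true l

/-- a point -/
noncomputable def zz {k n : ℕ} {d : Fin n → ℕ} {r m : ℕ} (g : Matrix (Fin m) (Fin m) ℂ)
    (s : ℂ) (t : Fin r → ℂ) (G0 : Matrix (Fin k) (Fin k) ℂ) (G : Fam d) : FV k d r m → ℂ :=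
  Sum.elim (Sum.elim (fun p => g p.1 p.2) (fun b => if b then s⁻¹ else s))
      (Sum.elim (fun p => if p.2 then (t p.1)⁻¹ else t p.1)
        (Sum.elim (fun p => if p.2 then G0⁻¹ p.1.1 p.1.2 else G0 p.1.1 p.1.2)
          (fun p => if p.2 then (G p.1.1)⁻¹ p.1.2.1 p.1.2.2 else G p.1.1 p.1.2.1 p.1.2.2)))

/-- the equations -/
def Eqs (a : Fin r → ℕ) (W' : Submodule ℚ (TI (Ix k d) a → ℚ))
    (E : ∀ l, Matrix (Fin (d l)) (Fin (d l)) ℚ) (l0 : Fin n) :
    Set (MvPolynomial (FV k d r (d l0)) ℚ) :=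
  {p | (∃ i j, p = P1 k r E l0 i j - MvPolynomial.C (E l0 i j)) ∨
    (p = ms MvPolynomial.X false * ms MvPolynomial.X true - 1) ∨
    (∃ i, p = mt MvPolynomial.X false i * mt MvPolynomial.X true i - 1) ∨
    (∃ i j, p = P4 k d r l0 i j -
      (1 : Matrix (Fin k) (Fin k) (MvPolynomial (FV k d r (d l0)) ℚ)) i j) ∨
    (∃ l i j, p = P5 k d r l0 l i j -
      (1 : Matrix (Fin (d l)) (Fin (d l)) (MvPolynomial (FV k d r (d l0)) ℚ)) i j) ∨
    (∃ i j, p = mG MvPolynomial.X false l0 i j -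
      ms MvPolynomial.X false * mg MvPolynomial.X i j) ∨
    (∃ w ∈ W', ∃ u : TI (Ix k d) a → ℚ, (∀ w ∈ W', ∑ j, u j * w j = 0) ∧
      p = ∑ j, MvPolynomial.C (u j) * (∑ j',
        tensR a (mt MvPolynomial.X false) (totR (m0 MvPolynomial.X false)
          (mG MvPolynomial.X false)) j j' * MvPolynomial.C (w j')))}

theorem eqs_iff (a : Fin r → ℕ) (W' : Submodule ℚ (TI (Ix k d) a → ℚ))
    (E : ∀ l, Matrix (Fin (d l)) (Fin (d l)) ℚ) (l0 : Fin n) (z : FV k d r (d l0) → ℂ) :
    (∀ p ∈ Eqs a W' E l0, MvPolynomial.aeval z p = 0) ↔ Good a W' E l0 z := by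
  set φ : MvPolynomial (FV k d r (d l0)) ℚ →+* ℂ :=
    (MvPolynomial.aeval z : MvPolynomial (FV k d r (d l0)) ℚ →ₐ[ℚ] ℂ).toRingHom with hφ
  have hφX : ∀ v, φ (MvPolynomial.X v) = z v := fun v => MvPolynomial.aeval_X z v
  have hφC : ∀ q : ℚ, φ (MvPolynomial.C q) = (q : ℂ) := by
    intro q
    have : φ (MvPolynomial.C q) = algebraMap ℚ ℂ q := MvPolynomial.aeval_C z q
    rw [this]; rfl
  have hφp : ∀ p, MvPolynomial.aeval z p = φ p := fun p => rfl
  have g1 : (mg MvPolynomial.X : Matrix _ _ (MvPolynomial (FV k d r (d l0)) ℚ)).map φ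
      = mg z := by
    ext i j; exact hφX _
  have g1t : ((mg MvPolynomial.X :
      Matrix _ _ (MvPolynomial (FV k d r (d l0)) ℚ))ᵀ).map φ = (mg z)ᵀ := by
    ext i j; exact hφX _
  have g2 : ∀ b, (m0 MvPolynomial.X b : Matrix _ _ (MvPolynomial (FV k d r (d l0)) ℚ)).map φ
      = m0 z b := by
    intro b; ext i j; exact hφX _
  have g3 : ∀ b l, (mG MvPolynomial.X b l :
      Matrix _ _ (MvPolynomial (FV k d r (d l0)) ℚ)).map φ = mG z b l := by
    intro b l; ext i j; exact hφX _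
  have g4 : ((E l0).map (MvPolynomial.C) :
      Matrix _ _ (MvPolynomial (FV k d r (d l0)) ℚ)).map φ = toC (E l0) := by
    ext i j; exact hφC _
  have g5 : ∀ b, φ (ms MvPolynomial.X b) = ms z b := fun b => hφX _
  have g6 : ∀ b i, φ (mt MvPolynomial.X b i) = mt z b i := fun b i => hφX _
  have one_map : ∀ (ι : Type) [Fintype ι] [DecidableEq ι] (i j : ι),
      φ ((1 : Matrix ι ι (MvPolynomial (FV k d r (d l0)) ℚ)) i j) = (1 : Matrix ι ι ℂ) i j := by
    intro ι _ _ i j
    by_cases h : i = j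
    · subst h; simp
    · simp [Matrix.one_apply_ne h]
  have e1 : ∀ i j, φ (P1 k r E l0 i j - MvPolynomial.C (E l0 i j))
      = (mg z * toC (E l0) * (mg z)ᵀ) i j - toC (E l0) i j := by
    intro i j
    unfold P1
    rw [map_sub, hφC, RingHom.map_matrix_mul, Matrix.map_mul, g1t, g1, g4]
    rfl
  have e2 : φ (ms MvPolynomial.X false * ms MvPolynomial.X true - 1)
      = ms z false * ms z true - 1 := by
    rw [map_sub, map_mul, map_one, g5, g5]
  have e3 : ∀ i, φ (mt MvPolynomial.X false i * mt MvPolynomial.X true i - 1)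
      = mt z false i * mt z true i - 1 := by
    intro i
    rw [map_sub, map_mul, map_one, g6, g6]
  have e4 : ∀ i j, φ (P4 k d r l0 i j -
      (1 : Matrix (Fin k) (Fin k) (MvPolynomial (FV k d r (d l0)) ℚ)) i j)
      = (m0 z false * m0 z true) i j - (1 : Matrix (Fin k) (Fin k) ℂ) i j := by
    intro i j
    unfold P4
    rw [map_sub, one_map, RingHom.map_matrix_mul, g2, g2]
  have e5 : ∀ l i j, φ (P5 k d r l0 l i j -
      (1 : Matrix (Fin (d l)) (Fin (d l)) (MvPolynomial (FV k d r (d l0)) ℚ)) i j)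
      = (mG z false l * mG z true l) i j - (1 : Matrix (Fin (d l)) (Fin (d l)) ℂ) i j := by
    intro l i j
    unfold P5
    rw [map_sub, one_map, RingHom.map_matrix_mul, g3, g3]
  have e6 : ∀ i j, φ (mG MvPolynomial.X false l0 i j -
      ms MvPolynomial.X false * mg MvPolynomial.X i j)
      = mG z false l0 i j - ms z false * mg z i j := by
    intro i j
    rw [map_sub, map_mul, g5]
    have h1 : φ (mG MvPolynomial.X false l0 i j) = mG z false l0 i j := hφX _
    have h2 : φ (mg MvPolynomial.X i j) = mg z i j := hφX _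
    rw [h1, h2]
  have e7 : ∀ (w u : TI (Ix k d) a → ℚ), φ (∑ j, MvPolynomial.C (u j) * (∑ j',
        tensR a (mt MvPolynomial.X false) (totR (m0 MvPolynomial.X false)
          (mG MvPolynomial.X false)) j j' * MvPolynomial.C (w j')))
      = ∑ j, (u j : ℂ) * (∑ j', tens a (mt z false) (tot (m0 z false) (mG z false)) j j' *
      (w j' : ℂ)) := by
    intro w u
    rw [map_sum]
    apply Finset.sum_congr rfl
    intro j _
    rw [map_mul, hφC, map_sum]
    congr 1
    apply Finset.sum_congr rfl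
    intro j' _
    rw [map_mul, hφC]
    congr 1
    have h1 : φ (tensR a (mt MvPolynomial.X false) (totR (m0 MvPolynomial.X false)
          (mG MvPolynomial.X false)) j j')
        = ((tensR a (mt MvPolynomial.X false) (totR (m0 MvPolynomial.X false)
          (mG MvPolynomial.X false))).map φ) j j' := rfl
    rw [h1, tensR_map, totR_map]
    have h2 : (fun i => φ (mt MvPolynomial.X false i)) = mt z false := by
      funext i; exact g6 false i
    have h3 : (fun l => (mG MvPolynomial.X false l :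
      Matrix _ _ (MvPolynomial (FV k d r (d l0)) ℚ)).map φ) = mG z false := by
      funext l; exact g3 false l
    rw [h2, h3, g2]
  constructor
  · intro h
    refine ⟨?_, ?_, ?_, ?_, ?_, ?_, ?_⟩
    · ext i j
      have := h _ (Or.inl ⟨i, j, rfl⟩)
      rw [hφp, e1] at this
      exact sub_eq_zero.mp this
    · have := h _ (Or.inr (Or.inl rfl))
      rw [hφp, e2] at this
      exact sub_eq_zero.mp this
    · intro i
      have := h _ (Or.inr (Or.inr (Or.inl ⟨i, rfl⟩)))
      rw [hφp, e3] at this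
      exact sub_eq_zero.mp this
    · ext i j
      have := h _ (Or.inr (Or.inr (Or.inr (Or.inl ⟨i, j, rfl⟩))))
      rw [hφp, e4] at this
      exact sub_eq_zero.mp this
    · intro l
      ext i j
      have := h _ (Or.inr (Or.inr (Or.inr (Or.inr (Or.inl ⟨l, i, j, rfl⟩)))))
      rw [hφp, e5] at this
      exact sub_eq_zero.mp this
    · ext i j
      have := h _ (Or.inr (Or.inr (Or.inr (Or.inr (Or.inr (Or.inl ⟨i, j, rfl⟩))))))
      rw [hφp, e6] at this
      exact sub_eq_zero.mp this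
    · intro w hw u hu
      have := h _ (Or.inr (Or.inr (Or.inr (Or.inr (Or.inr (Or.inr ⟨w, hw, u, hu, rfl⟩))))))
      rw [hφp, e7] at this
      exact this
  · rintro ⟨c1, c2, c3, c4, c5, c6, c7⟩ p hp
    rw [hφp]
    rcases hp with ⟨i, j, rfl⟩ | rfl | ⟨i, rfl⟩ | ⟨i, j, rfl⟩ | ⟨l, i, j, rfl⟩ |
      ⟨i, j, rfl⟩ | ⟨w, hw, u, hu, rfl⟩
    · rw [e1, c1, sub_self]
    · rw [e2, c2, sub_self]
    · rw [e3, c3, sub_self]
    · rw [e4, c4, sub_self]
    · rw [e5, c5, sub_self]
    · rw [e6, c6]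
      simp
    · rw [e7]
      exact c7 w hw u hu

theorem tot_mul {k n : ℕ} {d : Fin n → ℕ} (X0 Y0 : Matrix (Fin k) (Fin k) ℂ) (X Y : Fam d) :
    tot X0 X * tot Y0 Y = tot (X0 * Y0) (fun l => X l * Y l) := by
  unfold tot
  rw [Matrix.fromBlocks_multiply, ← Matrix.blockDiagonal'_mul]
  simp

theorem tot_one {k n : ℕ} {d : Fin n → ℕ} :
    tot (1 : Matrix (Fin k) (Fin k) ℂ) (1 : Fam d) = 1 := by
  unfold tot
  rw [Matrix.blockDiagonal'_one, Matrix.fromBlocks_one]

end FFIN_

open FFIN_ in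
theorem p_FFIN (h1 : T_CSTR) (h2 : T_CXA) (h3 : T_TMUL) : T_FFIN := by
  intro k n d r a W' E l0 halg
  -- zeros give elements of the group
  have hA : ∀ z : FV k d r (d l0) → ℂ, Good a W' E l0 z → mg z ∈ Fs a W' E l0 := by
    rintro z ⟨c1, c2, c3, c4, c5, c6, c7⟩
    have hs : ms z false ≠ 0 := left_ne_zero_of_mul (by rw [c2]; exact one_ne_zero)
    have ht : ∀ i, mt z false i ≠ 0 := fun i =>
      left_ne_zero_of_mul (by rw [c3 i]; exact one_ne_zero)
    refine ⟨c1, ms z false, mt z false, m0 z false, mG z false, hs, ht,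
      IsUnit.of_mul_eq_one _ c4, fun l => IsUnit.of_mul_eq_one _ (c5 l), c6, ?_⟩
    set T := tens a (mt z false) (tot (m0 z false) (mG z false)) with hT
    set T' := tens a (mt z true) (tot (m0 z true) (mG z true)) with hT'
    have hTT : T * T' = 1 := by
      rw [hT, hT', (h3 _ r a _ _ _ _).1, tot_mul, c4]
      have q1 : (fun l => mG z false l * mG z true l) = (1 : Fam d) := by
        funext l; exact c5 l
      have q2 : (fun i => mt z false i * mt z true i) = (1 : Fin r → ℂ) := by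
        funext i; exact c3 i
      rw [q1, q2, tot_one]
      exact (h3 _ r a 1 1 1 1).2
    have hTT' : T' * T = 1 := mul_eq_one_comm.mp hTT
    have hle : im T (cx W') ≤ cx W' := by
      unfold im
      rw [Submodule.map_le_iff_le_comap]
      unfold cx
      rw [Submodule.span_le]
      rintro _ ⟨w, hw, rfl⟩
      show T.mulVecLin (fun j => (w j : ℂ)) ∈ cx W'
      rw [h2]
      intro u hu
      have := c7 w hw u hu
      rw [← this]
      rfl
    have hinj : Function.Injective T.mulVecLin := by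
      intro x y hxy
      have h5 : T' *ᵥ (T *ᵥ x) = T' *ᵥ (T *ᵥ y) := by
        have : T *ᵥ x = T *ᵥ y := hxy
        rw [this]
      rw [Matrix.mulVec_mulVec, Matrix.mulVec_mulVec, hTT', Matrix.one_mulVec,
        Matrix.one_mulVec] at h5
      exact h5
    apply Submodule.eq_of_le_of_finrank_eq hle
    unfold im
    exact (Submodule.equivMapOfInjective T.mulVecLin hinj (cx W')).finrank_eq.symm
  -- elements of the group give zeros
  have hB : ∀ g ∈ Fs a W' E l0, ∃ z : FV k d r (d l0) → ℂ, Good a W' E l0 z ∧ mg z = g := by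
    rintro g ⟨hg, s, t, G0, G, hs, ht, hG0, hG, hGl, him⟩
    refine ⟨zz g s t G0 G, ?_, ?_⟩
    · obtain ⟨z, hz⟩ : ∃ z, z = (zz g s t G0 G : FV k d r (d l0) → ℂ) := ⟨_, rfl⟩
      rw [← hz]
      have q1 : mg z = g := by rw [hz]; ext i j; rfl
      have q2 : ms z false = s := by rw [hz]; rfl
      have q3 : ms z true = s⁻¹ := by rw [hz]; rfl
      have q4 : mt z false = t := by rw [hz]; funext i; rfl
      have q5 : ∀ i, mt z true i = (t i)⁻¹ := by rw [hz]; intro i; rfl
      have q6 : m0 z false = G0 := by rw [hz]; ext i j; rfl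
      have q7 : m0 z true = G0⁻¹ := by rw [hz]; ext i j; rfl
      have q8 : mG z false = G := by rw [hz]; funext l; ext i j; rfl
      have q9 : ∀ l, mG z true l = (G l)⁻¹ := by rw [hz]; intro l; ext i j; rfl
      refine ⟨?_, ?_, ?_, ?_, ?_, ?_, ?_⟩
      · rw [q1]; exact hg
      · rw [q2, q3]; exact mul_inv_cancel₀ hs
      · intro i; rw [q4, q5]; exact mul_inv_cancel₀ (ht i)
      · rw [q6, q7]; exact Matrix.mul_nonsing_inv _ ((Matrix.isUnit_iff_isUnit_det _).mp hG0)
      · intro l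
        rw [q8, q9]
        exact Matrix.mul_nonsing_inv _ ((Matrix.isUnit_iff_isUnit_det _).mp (hG l))
      · rw [q8, q1, q2]; exact hGl
      · intro w hw u hu
        rw [q4, q6, q8]
        have h5 : (tens a t (tot G0 G)) *ᵥ (fun j => (w j : ℂ)) ∈ cx W' := by
          rw [← him]
          exact ⟨_, Submodule.subset_span ⟨w, hw, rfl⟩, rfl⟩
        exact (h2 _ W' _).mp h5 u hu
    · ext i j; rfl
  have hfin : ∀ i j : Fin (d l0), {x : ℂ | ∃ z : FV k d r (d l0) → ℂ,
      (∀ p ∈ Eqs a W' E l0, MvPolynomial.aeval z p = 0) ∧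
        z (Sum.inl (Sum.inl (i, j))) = x}.Finite := by
    intro i j
    apply h1
    intro z hz
    rw [eqs_iff] at hz
    exact halg _ (hA z hz) i j
  have hpi : {f : Fin (d l0) → Fin (d l0) → ℂ | ∀ i, f i ∈ {f' : Fin (d l0) → ℂ | ∀ j,
      f' j ∈ {x : ℂ | ∃ z : FV k d r (d l0) → ℂ,
      (∀ p ∈ Eqs a W' E l0, MvPolynomial.aeval z p = 0) ∧
        z (Sum.inl (Sum.inl (i, j))) = x}}}.Finite :=
    Set.Finite.pi' (fun i => Set.Finite.pi' (fun j => hfin i j))
  refine hpi.subset ?_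
  intro g hg i j
  obtain ⟨z, hz, rfl⟩ := hB g hg
  exact ⟨z, (eqs_iff a W' E l0 z).mpr hz, rfl⟩

end Pool.Agent.DRB
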