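import Pool.Agent.DRB.Targets

/-!
# DRB-FGRP: the group of extendable elements
-/

set_option autoImplicit false

open Matrix

namespace Pool.Agent.DRB

namespace FGRP_

theorem im_mul {J : Type} [Fintype J] (M N : Matrix J J ℂ) (U : Submodule ℂ (J → ℂ)) :
    im (M * N) U = im M (im N U) := by
  unfold im
  rw [Matrix.mulVecLin_mul, Submodule.map_comp]

theorem im_one {J : Type} [Fintype J] [DecidableEq J] (U : Submodule ℂ (J → ℂ)) :
    im (1 : Matrix J J ℂ) U = U := by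
  unfold im
  rw [Matrix.mulVecLin_one, Submodule.map_id]

theorem tot_mul {k n : ℕ} {d : Fin n → ℕ} (X0 Y0 : Matrix (Fin k) (Fin k) ℂ) (X Y : Fam d) :
    tot X0 X * tot Y0 Y = tot (X0 * Y0) (fun l => X l * Y l) := by
  unfold tot
  rw [Matrix.fromBlocks_multiply, ← Matrix.blockDiagonal'_mul]
  simp

theorem tot_one {k n : ℕ} {d : Fin n → ℕ} :
    tot (1 : Matrix (Fin k) (Fin k) ℂ) (fun l => (1 : Matrix (Fin (d l)) (Fin (d l)) ℂ)) = 1 := by
  unfold tot
  have h : Matrix.blockDiagonal' (fun l => (1 : Matrix (Fin (d l)) (Fin (d l)) ℂ)) = 1 :=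
    Matrix.blockDiagonal'_one
  rw [h, Matrix.fromBlocks_one]

theorem tot_map {k n : ℕ} {d : Fin n → ℕ} (σ : ℂ ≃+* ℂ) (X0 : Matrix (Fin k) (Fin k) ℂ)
    (X : Fam d) : (tot X0 X).map σ = tot (X0.map σ) (fun l => (X l).map σ) := by
  unfold tot
  rw [Matrix.fromBlocks_map, Matrix.blockDiagonal'_map _ _ (map_zero σ)]
  congr 1
  · ext i j
    simp
  · ext i j
    simp

theorem tens_map {I : Type} [Fintype I] [DecidableEq I] {r : ℕ} (a : Fin r → ℕ) (c : Fin r → ℂ)
    (M : Matrix I I ℂ) (σ : ℂ ≃+* ℂ) :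
    (tens a c M).map σ = tens a (fun i => σ (c i)) (M.map σ) := by
  unfold tens
  rw [Matrix.blockDiagonal'_map _ _ (map_zero σ)]
  congr 1
  funext i
  ext F G
  simp only [Matrix.map_apply, Matrix.smul_apply, smul_eq_mul, tpow, Matrix.of_apply, map_mul,
    map_prod]

theorem isUnit_map {m : Type} [Fintype m] [DecidableEq m] (σ : ℂ ≃+* ℂ) (M : Matrix m m ℂ)
    (h : IsUnit M) : IsUnit (M.map σ) :=
  IsUnit.map (σ : ℂ →+* ℂ).mapMatrix h

end FGRP_

open FGRP_ in
theorem p_FGRP (h1 : T_TMUL) (h2 : T_SIGL) : T_FGRP := by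
  intro k n d r a W' E l0 hE
  refine ⟨?_, ?_, ?_, ?_⟩
  · refine ⟨?_, 1, 1, 1, fun _ => 1, one_ne_zero, fun i => one_ne_zero, isUnit_one,
      fun l => isUnit_one, ?_, ?_⟩
    · show 1 * toC (E l0) * 1ᵀ = toC (E l0)
      rw [Matrix.transpose_one, one_mul, mul_one]
    · rw [one_smul]
    · rw [tot_one, (h1 (Ix k d) r a 1 1 1 1).2, im_one]
  · rintro f ⟨hf, s, t, G0, G, hs, ht, hG0, hG, hGl, him⟩ g
      ⟨hg, s', t', G0', G', hs', ht', hG0', hG', hGl', him'⟩
    refine ⟨?_, s * s', fun i => t i * t' i, G0 * G0', fun l => G l * G' l, mul_ne_zero hs hs',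
      fun i => mul_ne_zero (ht i) (ht' i), hG0.mul hG0', fun l => (hG l).mul (hG' l), ?_, ?_⟩
    · show (f * g) * toC (E l0) * (f * g)ᵀ = toC (E l0)
      have e1 : g * toC (E l0) * gᵀ = toC (E l0) := hg
      have e2 : f * toC (E l0) * fᵀ = toC (E l0) := hf
      calc (f * g) * toC (E l0) * (f * g)ᵀ = f * (g * toC (E l0) * gᵀ) * fᵀ := by
            rw [Matrix.transpose_mul]
            simp only [Matrix.mul_assoc]
        _ = toC (E l0) := by rw [e1, e2]
    · show G l0 * G' l0 = (s * s') • (f * g)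
      rw [hGl, hGl', Matrix.smul_mul, Matrix.mul_smul, smul_smul]
    · rw [← tot_mul, ← (h1 (Ix k d) r a t t' _ _).1, im_mul, him', him]
  · rintro f ⟨hf, s, t, G0, G, hs, ht, hG0, hG, hGl, him⟩
    have e2 : f * toC (E l0) * fᵀ = toC (E l0) := hf
    have hdE : IsUnit (toC (E l0)).det := (Matrix.isUnit_iff_isUnit_det _).1 hE.2
    have hfu : IsUnit f := by
      have h3 : f * (toC (E l0) * fᵀ * (toC (E l0))⁻¹) = 1 := by
        rw [← Matrix.mul_assoc, ← Matrix.mul_assoc, e2, Matrix.mul_nonsing_inv _ hdE]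
      exact IsUnit.of_mul_eq_one _ h3
    have hdf : IsUnit f.det := (Matrix.isUnit_iff_isUnit_det _).1 hfu
    refine ⟨hfu, ?_, s⁻¹, fun i => (t i)⁻¹, G0⁻¹, fun l => (G l)⁻¹, inv_ne_zero hs,
      fun i => inv_ne_zero (ht i), ?_, fun l => ?_, ?_, ?_⟩
    · show f⁻¹ * toC (E l0) * (f⁻¹)ᵀ = toC (E l0)
      calc f⁻¹ * toC (E l0) * (f⁻¹)ᵀ = f⁻¹ * (f * toC (E l0) * fᵀ) * (f⁻¹)ᵀ := by rw [e2]
        _ = (f⁻¹ * f) * toC (E l0) * (f⁻¹ * f)ᵀ := by
            rw [Matrix.transpose_mul]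
            simp only [Matrix.mul_assoc]
        _ = toC (E l0) := by
            rw [Matrix.nonsing_inv_mul _ hdf, Matrix.transpose_one, one_mul, mul_one]
    · exact (Matrix.isUnit_nonsing_inv_iff).2 hG0
    · exact (Matrix.isUnit_nonsing_inv_iff).2 (hG l)
    · show (G l0)⁻¹ = s⁻¹ • f⁻¹
      rw [hGl]
      refine Matrix.inv_eq_right_inv ?_
      rw [Matrix.smul_mul, Matrix.mul_smul, smul_smul, mul_inv_cancel₀ hs, one_smul,
        Matrix.mul_nonsing_inv _ hdf]
    · have h4 : tens a (fun i => (t i)⁻¹) (tot G0⁻¹ (fun l => (G l)⁻¹)) *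
          tens a t (tot G0 G) = 1 := by
        rw [(h1 (Ix k d) r a _ t _ _).1, tot_mul]
        have e3 : (fun i => (t i)⁻¹ * t i) = 1 := by
          funext i
          exact inv_mul_cancel₀ (ht i)
        have e4 : G0⁻¹ * G0 = 1 :=
          Matrix.nonsing_inv_mul _ ((Matrix.isUnit_iff_isUnit_det _).1 hG0)
        have e5 : (fun l => (G l)⁻¹ * G l) =
            fun l => (1 : Matrix (Fin (d l)) (Fin (d l)) ℂ) := by
          funext l
          exact Matrix.nonsing_inv_mul _ ((Matrix.isUnit_iff_isUnit_det _).1 (hG l))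
        rw [e3, e4, e5, tot_one]
        exact (h1 (Ix k d) r a 1 1 1 1).2
      calc im (tens a (fun i => (t i)⁻¹) (tot G0⁻¹ (fun l => (G l)⁻¹))) (cx W')
          = im (tens a (fun i => (t i)⁻¹) (tot G0⁻¹ (fun l => (G l)⁻¹)))
              (im (tens a t (tot G0 G)) (cx W')) := by rw [him]
        _ = cx W' := by rw [← im_mul, h4, im_one]
  · rintro σ f ⟨hf, s, t, G0, G, hs, ht, hG0, hG, hGl, him⟩
    have e2 : f * toC (E l0) * fᵀ = toC (E l0) := hf
    have e3 : (toC (E l0)).map σ = toC (E l0) := by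
      ext i j
      simp
    refine ⟨?_, σ s, fun i => σ (t i), G0.map σ, fun l => (G l).map σ, ?_, fun i => ?_,
      isUnit_map σ _ hG0, fun l => isUnit_map σ _ (hG l), ?_, ?_⟩
    · show f.map σ * toC (E l0) * (f.map σ)ᵀ = toC (E l0)
      calc f.map σ * toC (E l0) * (f.map σ)ᵀ
          = f.map σ * (toC (E l0)).map σ * (fᵀ).map σ := by rw [e3, Matrix.transpose_map]
        _ = (f * toC (E l0) * fᵀ).map σ := by rw [Matrix.map_mul, Matrix.map_mul]
        _ = toC (E l0) := by rw [e2, e3]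
    · exact (map_ne_zero σ).2 hs
    · exact (map_ne_zero σ).2 (ht i)
    · show (G l0).map σ = σ s • f.map σ
      rw [hGl]
      ext i j
      simp
    · rw [← tot_map, ← tens_map]
      exact h2 _ W' W' _ σ him

end Pool.Agent.DRB
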