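import Pool.Agent.DRB.Targets

/-!
# Complex numbers fixed by all automorphisms are rational
-/

set_option autoImplicit false

namespace Pool.Agent.DRB

namespace FIXQ_

open MvPolynomial

/-- automorphisms of the polynomial ring generated by a transcendence basis extend -/
theorem ext_aut {R : Type} [Field R] [Algebra R ℂ] {ι : Type} (v : ι → ℂ)
    (hv : IsTranscendenceBasis R v) (φ : MvPolynomial ι R ≃+* MvPolynomial ι R) :
    ∃ σ : ℂ ≃+* ℂ, ∀ p : MvPolynomial ι R, σ (aeval v p) = aeval v (φ p) := by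
  have := IsAlgClosed.isAlgClosure_of_transcendence_basis v hv
  let e : Algebra.adjoin R (Set.range v) ≃+* Algebra.adjoin R (Set.range v) :=
    (hv.1.aevalEquiv.symm.toRingEquiv.trans φ).trans hv.1.aevalEquiv.toRingEquiv
  refine ⟨IsAlgClosure.equivOfEquiv ℂ ℂ e, fun p => ?_⟩
  rw [← hv.1.algebraMap_aevalEquiv p, IsAlgClosure.equivOfEquiv_algebraMap,
    ← hv.1.algebraMap_aevalEquiv (φ p)]
  congr 1
  simp [e]

/-- the substitution `X a ↦ X a + 1` -/
theorem shift {ι : Type} (a : ι) : ∃ φ : MvPolynomial ι ℚ ≃+* MvPolynomial ι ℚ,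
    φ (X a) = X a + 1 := by
  classical
  refine ⟨(AlgEquiv.ofAlgHom (R := ℚ)
    (aeval (fun i => if i = a then X i + 1 else X i))
    (aeval (fun i => if i = a then X i - 1 else X i)) ?_ ?_).toRingEquiv, ?_⟩
  · ext i : 1
    by_cases h : i = a
    · subst h; simp
    · simp [h]
  · ext i : 1
    by_cases h : i = a
    · subst h; simp
    · simp [h]
  · simp

/-- a transcendental number is moved by an automorphism -/
theorem trans (x : ℂ) (hx : Transcendental ℚ x) : ∃ σ : ℂ ≃+* ℂ, σ x ≠ x := by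
  have h1 : AlgebraicIndepOn ℚ id ({x} : Set ℂ) :=
    (algebraicIndependent_singleton_iff (R := ℚ)
      (x := fun i : ({x} : Set ℂ) => id (i : ℂ)) ⟨x, rfl⟩).2 hx
  obtain ⟨s, hs, hb⟩ := exists_isTranscendenceBasis_superset h1
  let v : s → ℂ := (↑)
  let a : s := ⟨x, hs rfl⟩
  obtain ⟨φ, hφ⟩ := shift a
  obtain ⟨σ, hσ⟩ := ext_aut v hb φ
  refine ⟨σ, ?_⟩
  have h2 := hσ (X a)
  rw [hφ] at h2
  simp only [aeval_X, map_add, map_one] at h2
  have h3 : σ x = x + 1 := h2
  rw [h3]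
  simp

/-- an algebraic number outside the base field is moved by an automorphism -/
theorem alg (F : Type) [Field F] [CharZero F] [Algebra F ℂ] (x : ℂ) (hx : IsAlgebraic F x)
    (hq : ¬ ∃ q : F, algebraMap F ℂ q = x) :
    ∃ σ : ℂ ≃+* ℂ, σ x ≠ x := by
  obtain ⟨s, hb⟩ := exists_isTranscendenceBasis F ℂ
  let v : s → ℂ := (↑)
  have hb' : IsTranscendenceBasis (algebraicClosure F ℂ) v :=
    (Algebra.IsAlgebraic.isTranscendenceBasis_iff F (algebraicClosure F ℂ)).1 hb
  let y : algebraicClosure F ℂ := ⟨x, (mem_algebraicClosure_iff).2 hx⟩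
  have hy : y ∉ (⊥ : IntermediateField F (algebraicClosure F ℂ)) := by
    intro h
    obtain ⟨q, hq'⟩ := IntermediateField.mem_bot.1 h
    apply hq
    refine ⟨q, ?_⟩
    exact congrArg (fun z : algebraicClosure F ℂ => (z : ℂ)) hq'
  have : IsGalois F (algebraicClosure F ℂ) := by
    have : IsAlgClosure F (algebraicClosure F ℂ) := by infer_instance
    have : Normal F (algebraicClosure F ℂ) := by infer_instance
    exact IsGalois.mk
  have h2 := (InfiniteGalois.mem_bot_iff_fixed (k := F) (K := algebraicClosure F ℂ) y).not.1 hy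
  push Not at h2
  obtain ⟨τ, hτ⟩ := h2
  obtain ⟨σ, hσ⟩ := ext_aut v hb' (MvPolynomial.mapEquiv s τ.toRingEquiv)
  refine ⟨σ, ?_⟩
  have h3 := hσ (C y)
  have h4 : σ x = ((τ y : algebraicClosure F ℂ) : ℂ) := by
    simpa [y] using h3
  rw [h4]
  intro h5
  exact hτ (Subtype.ext h5)

end FIXQ_

theorem p_FIXQ : T_FIXQ := by
  intro x hx
  by_contra hq
  by_cases h : IsAlgebraic ℚ x
  · obtain ⟨σ, hσ⟩ := FIXQ_.alg ℚ x h (fun ⟨q, h⟩ => hq ⟨q, by simpa using h.symm⟩)
    exact hσ (hx σ)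
  · obtain ⟨σ, hσ⟩ := FIXQ_.trans x h
    exact hσ (hx σ)

end Pool.Agent.DRB
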