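import Pool.Agent.DRB.Targets

/-!
# FROB: elements near `1` of a finite group of unitary matrices commute
-/

set_option autoImplicit false

open Matrix

namespace Pool.Agent.DRB

namespace FROB_

open scoped Matrix.Norms.L2Operator

variable {m : ℕ}

/-- the iterated commutators -/
noncomputable def sq (x y : Matrix (Fin m) (Fin m) ℂ) : ℕ → Matrix (Fin m) (Fin m) ℂ
  | 0 => y
  | j + 1 => x * sq x y j * star x * star (sq x y j)

theorem star_mul_self {x : Matrix (Fin m) (Fin m) ℂ} (hx : x ∈ Matrix.unitaryGroup (Fin m) ℂ) :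
    star x * x = 1 := (Matrix.mem_unitaryGroup_iff').1 hx

theorem mul_star_self {x : Matrix (Fin m) (Fin m) ℂ} (hx : x ∈ Matrix.unitaryGroup (Fin m) ℂ) :
    x * star x = 1 := (Matrix.mem_unitaryGroup_iff).1 hx

theorem comm_norm {x y : Matrix (Fin m) (Fin m) ℂ} (hx : x ∈ Matrix.unitaryGroup (Fin m) ℂ)
    (hy : y ∈ Matrix.unitaryGroup (Fin m) ℂ) :
    ‖x * y * star x * star y - 1‖ ≤ 2 * ‖x - 1‖ * ‖y - 1‖ := by
  have h1 : x * y * star x * star y - 1 = (x * y - y * x) * (star x * star y) := by
    have h2 : (y * x) * (star x * star y) = 1 := by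
      rw [mul_assoc, ← mul_assoc x, mul_star_self hx, one_mul, mul_star_self hy]
    rw [sub_mul, h2]
    simp only [mul_assoc]
  have h3 : star x * star y ∈ Matrix.unitaryGroup (Fin m) ℂ :=
    mul_mem (Unitary.star_mem hx) (Unitary.star_mem hy)
  have h4 : ‖(x * y - y * x) * (star x * star y)‖ = ‖x * y - y * x‖ :=
    CStarRing.norm_mul_mem_unitary _ h3
  have h5 : x * y - y * x = (x - 1) * (y - 1) - (y - 1) * (x - 1) := by
    noncomm_ring
  rw [h1, h4, h5]
  refine (norm_sub_le _ _).trans ?_
  have h6 := norm_mul_le (x - 1) (y - 1)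
  have h7 := norm_mul_le (y - 1) (x - 1)
  nlinarith

theorem pow_mem {F : Finset (Matrix (Fin m) (Fin m) ℂ)} (h1 : 1 ∈ F)
    (hm : ∀ f ∈ F, ∀ g ∈ F, f * g ∈ F) {x : Matrix (Fin m) (Fin m) ℂ} (hx : x ∈ F) (n : ℕ) :
    x ^ n ∈ F := by
  induction n with
  | zero => rw [pow_zero]; exact h1
  | succ n ih => rw [pow_succ]; exact hm _ ih _ hx

theorem fin_order {F : Finset (Matrix (Fin m) (Fin m) ℂ)} (h1 : 1 ∈ F)
    (hm : ∀ f ∈ F, ∀ g ∈ F, f * g ∈ F) {x : Matrix (Fin m) (Fin m) ℂ} (hx : x ∈ F)
    (hu : x ∈ Matrix.unitaryGroup (Fin m) ℂ) : ∃ N : ℕ, 0 < N ∧ x ^ N = 1 := by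
  have hinj : ¬ Function.Injective (fun n : ℕ => (⟨x ^ n, pow_mem h1 hm hx n⟩ : F)) :=
    not_injective_infinite_finite _
  unfold Function.Injective at hinj
  push Not at hinj
  obtain ⟨a, b, hab, hne⟩ := hinj
  have hab' : x ^ a = x ^ b := congrArg Subtype.val hab
  -- cancel
  have key : ∀ a b : ℕ, a < b → x ^ a = x ^ b → ∃ N : ℕ, 0 < N ∧ x ^ N = 1 := by
    intro a b hlt he
    refine ⟨b - a, by omega, ?_⟩
    have hb : b = a + (b - a) := by omega
    rw [hb, pow_add] at he
    have hua : x ^ a ∈ Matrix.unitaryGroup (Fin m) ℂ := pow_mem' hu a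
    have h2 : star (x ^ a) * (x ^ a) = star (x ^ a) * (x ^ a * x ^ (b - a)) := by rw [← he]
    rw [← mul_assoc, star_mul_self hua, one_mul] at h2
    exact h2.symm
  rcases lt_or_gt_of_ne hne with h | h
  · exact key a b h hab'
  · exact key b a h hab'.symm
where
  pow_mem' {x : Matrix (Fin m) (Fin m) ℂ} (hx : x ∈ Matrix.unitaryGroup (Fin m) ℂ) (n : ℕ) :
      x ^ n ∈ Matrix.unitaryGroup (Fin m) ℂ := Submonoid.pow_mem _ hx n

end FROB_

open scoped Matrix.Norms.L2Operator in
theorem p_FROB (h1 : T_CMUT) : T_FROB := by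
  intro m F hF1 hFm hFs hFu x hx y hy hxn hyn
  have hux := hFu x hx
  have hmem : ∀ j, FROB_.sq x y j ∈ F := by
    intro j
    induction j with
    | zero => exact hy
    | succ j ih => exact hFm _ (hFm _ (hFm _ hx _ ih) _ (hFs _ hx)) _ (hFs _ ih)
  set q : ℝ := 2 * ‖x - 1‖ with hq
  have hq0 : 0 ≤ q := by positivity
  have hq1 : q < 1 := by rw [hq]; linarith
  have hbound : ∀ j, ‖FROB_.sq x y j - 1‖ ≤ q ^ j * (1 / 2) := by
    intro j
    induction j with
    | zero =>
      rw [pow_zero, one_mul]
      exact hyn.le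
    | succ j ih =>
      have h2 := FROB_.comm_norm hux (hFu _ (hmem j))
      have h3 : FROB_.sq x y (j + 1) =
        x * FROB_.sq x y j * star x * star (FROB_.sq x y j) := rfl
      rw [h3, pow_succ]
      calc ‖x * FROB_.sq x y j * star x * star (FROB_.sq x y j) - 1‖
          ≤ q * ‖FROB_.sq x y j - 1‖ := h2
        _ ≤ q * (q ^ j * (1 / 2)) := mul_le_mul_of_nonneg_left ih hq0
        _ = q ^ j * q * (1 / 2) := by ring
  -- the sequence reaches 1
  have hreach : ∃ j, FROB_.sq x y j = 1 := by
    by_contra hcon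
    push Not at hcon
    obtain ⟨δ, hδ, hδF⟩ : ∃ δ : ℝ, 0 < δ ∧ ∀ f ∈ F, f ≠ 1 → δ ≤ ‖f - 1‖ := by
      classical
      rcases (F.filter (fun f => f ≠ 1)).eq_empty_or_nonempty with he | hne
      · refine ⟨1, one_pos, fun f hf hf1 => ?_⟩
        have : f ∈ F.filter (fun f => f ≠ 1) := Finset.mem_filter.2 ⟨hf, hf1⟩
        rw [he] at this
        exact absurd this (Finset.notMem_empty _)
      · obtain ⟨g, hg, hmin⟩ := Finset.exists_min_image _ (fun f => ‖f - 1‖) hne
        refine ⟨‖g - 1‖, ?_, fun f hf hf1 => hmin f (Finset.mem_filter.2 ⟨hf, hf1⟩)⟩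
        rw [norm_pos_iff, sub_ne_zero]
        exact (Finset.mem_filter.1 hg).2
    obtain ⟨j, hj⟩ := exists_pow_lt_of_lt_one hδ hq1
    have h2 := hδF _ (hmem j) (hcon j)
    have h3 := hbound j
    have h4 : 0 ≤ q ^ j := by positivity
    linarith
  classical
  have hspec := Nat.find_spec hreach
  have hmin : ∀ i < Nat.find hreach, FROB_.sq x y i ≠ 1 := fun i hi => Nat.find_min hreach hi
  generalize Nat.find hreach = j at hspec hmin
  -- from `y_(j+1) = 1`: `x` commutes with `y_j`
  have hstep : ∀ i, FROB_.sq x y (i + 1) = 1 → x * FROB_.sq x y i = FROB_.sq x y i * x := by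
    intro i hi
    have h2 : x * FROB_.sq x y i * star x * star (FROB_.sq x y i) = 1 := hi
    have hui := hFu _ (hmem i)
    calc x * FROB_.sq x y i = x * FROB_.sq x y i * (star x * (star (FROB_.sq x y i) *
          FROB_.sq x y i) * x) := by
          rw [FROB_.star_mul_self hui, mul_one, FROB_.star_mul_self hux, mul_one]
      _ = (x * FROB_.sq x y i * star x * star (FROB_.sq x y i)) * (FROB_.sq x y i * x) := by
          simp only [mul_assoc]
      _ = FROB_.sq x y i * x := by rw [h2, one_mul]
  cases j with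
  | zero =>
    have h2 : y = 1 := hspec
    rw [h2, mul_one, one_mul]
  | succ j =>
    cases j with
    | zero => exact hstep 0 hspec
    | succ i =>
      exfalso
      have hui := hFu _ (hmem i)
      set z := FROB_.sq x y i with hz
      have hc := hstep (i + 1) hspec
      have hz1 : FROB_.sq x y (i + 1) = x * z * star x * star z := rfl
      rw [hz1] at hc
      -- x commutes with z x^* z^*
      have h2 : x * (z * star x * star z) = (z * star x * star z) * x := by
        have h3 : star x * (x * (x * z * star x * star z)) =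
            star x * ((x * z * star x * star z) * x) := by rw [hc]
        rw [← mul_assoc, FROB_.star_mul_self hux, one_mul] at h3
        calc x * (z * star x * star z) = x * z * star x * star z := by simp only [mul_assoc]
          _ = star x * ((x * z * star x * star z) * x) := h3
          _ = (star x * x) * (z * star x * star z) * x := by simp only [mul_assoc]
          _ = (z * star x * star z) * x := by rw [FROB_.star_mul_self hux, one_mul]
      -- adjoint
      have h4 : (z * x * star z) * star x = star x * (z * x * star z) := by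
        have := congrArg star h2
        simp only [star_mul, star_star, mul_assoc] at this ⊢
        exact this
      have h5 : x * (z * x * star z) = (z * x * star z) * x := by
        calc x * (z * x * star z) = x * ((z * x * star z) * (star x * x)) := by
              rw [FROB_.star_mul_self hux, mul_one]
          _ = x * ((z * x * star z) * star x) * x := by simp only [mul_assoc]
          _ = x * (star x * (z * x * star z)) * x := by rw [h4]
          _ = (x * star x) * (z * x * star z) * x := by simp only [mul_assoc]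
          _ = (z * x * star z) * x := by rw [FROB_.mul_star_self hux, one_mul]
      have hzn : ‖z - 1‖ < 1 := by
        have h6 := hbound i
        have h7 : q ^ i ≤ 1 := pow_le_one₀ hq0 hq1.le
        linarith
      have h8 := h1 m x z hux hui hzn (FROB_.fin_order hF1 hFm hx hux) h5
      apply hmin (i + 1) (by omega)
      rw [hz1, h8]
      calc z * x * star x * star z = z * (x * star x) * star z := by simp only [mul_assoc]
        _ = 1 := by rw [FROB_.mul_star_self hux, mul_one, FROB_.mul_star_self hui]

end Pool.Agent.DRB
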