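import Mathlib
import Pool.Agent.DRB.Targets

/-!
# The conjugates of the comparison matrix
-/

set_option autoImplicit false

open Matrix

namespace Pool.Agent.DRB

namespace FSIG_

theorem im_mul {J : Type} [Fintype J] (A B : Matrix J J ℂ) (U : Submodule ℂ (J → ℂ)) :
    im (A * B) U = im A (im B U) := by
  unfold im
  rw [Matrix.mulVecLin_mul, Submodule.map_comp]

theorem im_one {J : Type} [Fintype J] [DecidableEq J] (U : Submodule ℂ (J → ℂ)) :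
    im (1 : Matrix J J ℂ) U = U := by
  unfold im
  rw [Matrix.mulVecLin_one, Submodule.map_id]

theorem tot_mul {k n : ℕ} {d : Fin n → ℕ} (X0 Y0 : Matrix (Fin k) (Fin k) ℂ) (X Y : Fam d) :
    tot X0 X * tot Y0 Y = tot (X0 * Y0) (fun l => X l * Y l) := by
  unfold tot
  rw [Matrix.fromBlocks_multiply, Matrix.blockDiagonal'_mul]
  simp

theorem tot_one {k n : ℕ} {d : Fin n → ℕ} :
    tot (1 : Matrix (Fin k) (Fin k) ℂ) (fun l => (1 : Matrix (Fin (d l)) (Fin (d l)) ℂ)) = 1 := by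
  unfold tot
  have h : (Matrix.blockDiagonal' fun l => (1 : Matrix (Fin (d l)) (Fin (d l)) ℂ)) = 1 :=
    Matrix.blockDiagonal'_one
  rw [h, Matrix.fromBlocks_one]

theorem tot_map {k n : ℕ} {d : Fin n → ℕ} (X0 : Matrix (Fin k) (Fin k) ℂ) (X : Fam d)
    (σ : ℂ ≃+* ℂ) : (tot X0 X).map σ = tot (X0.map σ) (fun l => (X l).map σ) := by
  unfold tot
  rw [Matrix.fromBlocks_map, Matrix.blockDiagonal'_map _ _ (map_zero σ)]
  congr 1
  · ext i j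
    simp
  · ext i j
    simp

theorem tens_map {I : Type} {r : ℕ} (a : Fin r → ℕ) (c : Fin r → ℂ) (M : Matrix I I ℂ)
    (σ : ℂ ≃+* ℂ) : (tens a c M).map σ = tens a (fun i => σ (c i)) (M.map σ) := by
  unfold tens
  rw [Matrix.blockDiagonal'_map _ _ (map_zero σ)]
  congr 1
  funext i
  ext F G
  simp only [tpow, Matrix.map_apply, Matrix.smul_apply, Matrix.of_apply, smul_eq_mul, map_mul,
    map_prod]

theorem toC_map {I : Type} (M : Matrix I I ℚ) (σ : ℂ ≃+* ℂ) : (toC M).map σ = toC M := by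
  ext i j
  simp

theorem isUnit_Φ {k n : ℕ} {d : Fin n → ℕ} (S : Setup k n d) (l : Fin n) :
    IsUnit (S.Φ l).det := by
  have h1 : IsUnit (S.κ • toC (S.E l)).det := by
    rw [Matrix.det_smul]
    have h2 : IsUnit (toC (S.E l)).det := (Matrix.isUnit_iff_isUnit_det _).1 (S.hE l).2
    exact (IsUnit.pow _ (isUnit_iff_ne_zero.2 S.hκ)).mul h2
  rw [← S.rel l, Matrix.mul_assoc, Matrix.det_mul] at h1
  exact isUnit_of_mul_isUnit_left h1

/-- the similitude equation -/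
theorem sim {m : ℕ} (Q E : Matrix (Fin m) (Fin m) ℚ) (Φ : Matrix (Fin m) (Fin m) ℂ) (κ : ℂ)
    (hκ : κ ≠ 0) (hΦ : IsUnit Φ.det) (rel : Φ * toC Q * Φᵀ = κ • toC E) (σ : ℂ ≃+* ℂ) :
    (Φ.map σ * Φ⁻¹) * toC E * (Φ.map σ * Φ⁻¹)ᵀ = (σ κ / κ) • toC E := by
  have hE : toC E = κ⁻¹ • (Φ * toC Q * Φᵀ) := by
    rw [rel, smul_smul, inv_mul_cancel₀ hκ, one_smul]
  have hσ : Φ.map σ * toC Q * (Φ.map σ)ᵀ = σ κ • toC E := by
    have h1 := congrArg (fun M : Matrix (Fin m) (Fin m) ℂ => M.map σ) rel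
    have h2 : (Φ * toC Q * Φᵀ).map σ = Φ.map σ * toC Q * (Φ.map σ)ᵀ := by
      have h3 : ∀ A B : Matrix (Fin m) (Fin m) ℂ, (A * B).map σ = A.map σ * B.map σ :=
        fun A B => Matrix.map_mul (f := (σ : ℂ →+* ℂ))
      rw [h3, h3, toC_map, Matrix.transpose_map]
    have h4 : (κ • toC E).map σ = σ κ • toC E := by
      ext i j
      simp
    rw [h2, h4] at h1
    exact h1
  have h5 : Φ⁻¹ * Φ = 1 := Matrix.nonsing_inv_mul _ hΦ
  have h6 : Φᵀ * (Φ⁻¹)ᵀ = 1 := by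
    rw [← Matrix.transpose_mul, h5, Matrix.transpose_one]
  calc (Φ.map σ * Φ⁻¹) * toC E * (Φ.map σ * Φ⁻¹)ᵀ
      = κ⁻¹ • ((Φ.map σ * Φ⁻¹) * (Φ * toC Q * Φᵀ) * (Φ.map σ * Φ⁻¹)ᵀ) := by
        conv_lhs => rw [hE]
        rw [Matrix.mul_smul, Matrix.smul_mul]
    _ = κ⁻¹ • (Φ.map σ * (Φ⁻¹ * Φ) * toC Q * (Φᵀ * (Φ⁻¹)ᵀ) * (Φ.map σ)ᵀ) := by
        rw [Matrix.transpose_mul]
        simp only [Matrix.mul_assoc]
    _ = κ⁻¹ • (Φ.map σ * toC Q * (Φ.map σ)ᵀ) := by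
        rw [h5, h6, Matrix.mul_one, Matrix.mul_one]
    _ = (σ κ / κ) • toC E := by
        rw [hσ, smul_smul]
        congr 1
        field_simp

end FSIG_

open FSIG_ in
theorem p_FSIG (h1 : T_TMUL) (h2 : T_SIGL) : T_FSIG := by
  intro k n d S r a c W W' hsub l0 σ
  obtain ⟨hc, hM⟩ := hsub
  -- the inverse of the comparison matrix
  have hΦ := fun l => isUnit_Φ S l
  have hΦ1 : ∀ l, (S.Φ l)⁻¹ * S.Φ l = 1 := fun l => Matrix.nonsing_inv_mul _ (hΦ l)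
  have hΦ2 : ∀ l, S.Φ l * (S.Φ l)⁻¹ = 1 := fun l => Matrix.mul_nonsing_inv _ (hΦ l)
  have hΘ : S.Θ' * S.Θ = 1 := mul_eq_one_comm.1 S.hΘ
  have hinv : tens a (fun i => (c i)⁻¹) (tot S.Θ' (fun l => (S.Φ l)⁻¹)) *
      tens a c (tot S.Θ S.Φ) = 1 := by
    rw [(h1 (Ix k d) r a _ c _ _).1, tot_mul, hΘ]
    have h3 : (fun l => (S.Φ l)⁻¹ * S.Φ l) =
        fun l => (1 : Matrix (Fin (d l)) (Fin (d l)) ℂ) := funext hΦ1
    have h4 : (fun i => (c i)⁻¹ * c i) = (1 : Fin r → ℂ) :=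
      funext fun i => inv_mul_cancel₀ (hc i)
    rw [h3, tot_one, h4]
    exact (h1 (Ix k d) r a 1 1 1 1).2
  have hW : im (tens a (fun i => (c i)⁻¹) (tot S.Θ' (fun l => (S.Φ l)⁻¹))) (cx W') = cx W := by
    rw [← hM, ← im_mul, hinv, im_one]
  have hσ := h2 _ W W' (tens a c (tot S.Θ S.Φ)) σ hM
  rw [tens_map, tot_map] at hσ
  -- the conjugate times the inverse
  have hG : im (tens a (fun i => σ (c i) * (c i)⁻¹) (tot (S.Θ.map σ * S.Θ')
      (fun l => (S.Φ l).map σ * (S.Φ l)⁻¹))) (cx W') = cx W' := by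
    rw [← tot_mul, ← (h1 (Ix k d) r a (fun i => σ (c i)) (fun i => (c i)⁻¹) _ _).1, im_mul, hW]
    exact hσ
  -- the scalar
  obtain ⟨s, hs⟩ := IsAlgClosed.exists_pow_nat_eq (σ S.κ / S.κ) (n := 2) (by norm_num)
  have hσκ : σ S.κ ≠ 0 := (map_ne_zero σ).2 S.hκ
  have hs0 : s ≠ 0 := by
    rintro rfl
    rw [zero_pow (by norm_num)] at hs
    exact div_ne_zero hσκ S.hκ hs.symm
  have hΦσ : ∀ l, IsUnit ((S.Φ l).map σ).det := by
    intro l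
    have h3 : ((S.Φ l).map σ).det = σ (S.Φ l).det := (RingHom.map_det (σ : ℂ →+* ℂ) _).symm
    rw [h3]
    exact (hΦ l).map σ
  refine ⟨s⁻¹ • ((S.Φ l0).map σ * (S.Φ l0)⁻¹), ⟨?_, s, fun i => σ (c i) * (c i)⁻¹,
    S.Θ.map σ * S.Θ', fun l => (S.Φ l).map σ * (S.Φ l)⁻¹, hs0, ?_, ?_, ?_, ?_, hG⟩, s, hs0, ?_⟩
  · -- symplectic
    show (s⁻¹ • ((S.Φ l0).map σ * (S.Φ l0)⁻¹)) * toC (S.E l0) *
      (s⁻¹ • ((S.Φ l0).map σ * (S.Φ l0)⁻¹))ᵀ = toC (S.E l0)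
    rw [Matrix.transpose_smul, Matrix.smul_mul, Matrix.smul_mul, Matrix.mul_smul,
      sim (S.Q l0) (S.E l0) (S.Φ l0) S.κ S.hκ (hΦ l0) (S.rel l0) σ, smul_smul, smul_smul, ← hs]
    have h3 : s⁻¹ * s⁻¹ * s ^ 2 = 1 := by
      field_simp
    rw [h3, one_smul]
  · intro i
    exact mul_ne_zero ((map_ne_zero σ).2 (hc i)) (inv_ne_zero (hc i))
  · rw [Matrix.isUnit_iff_isUnit_det, Matrix.det_mul]
    have h3 : (S.Θ.map σ).det = σ S.Θ.det := (RingHom.map_det (σ : ℂ →+* ℂ) _).symm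
    have h4 : IsUnit S.Θ.det := by
      have h5 := congrArg Matrix.det S.hΘ
      rw [Matrix.det_mul, Matrix.det_one] at h5
      exact IsUnit.of_mul_eq_one _ h5
    have h6 : IsUnit S.Θ'.det := by
      have h5 := congrArg Matrix.det hΘ
      rw [Matrix.det_mul, Matrix.det_one] at h5
      exact IsUnit.of_mul_eq_one _ h5
    rw [h3]
    exact (h4.map σ).mul h6
  · intro l
    rw [Matrix.isUnit_iff_isUnit_det, Matrix.det_mul]
    refine (hΦσ l).mul ?_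
    rw [← Matrix.isUnit_iff_isUnit_det]
    exact (Matrix.isUnit_nonsing_inv_iff).2 ((Matrix.isUnit_iff_isUnit_det _).2 (hΦ l))
  · show (S.Φ l0).map σ * (S.Φ l0)⁻¹ = s • s⁻¹ • ((S.Φ l0).map σ * (S.Φ l0)⁻¹)
    rw [smul_smul, mul_inv_cancel₀ hs0, one_smul]
  · rw [Matrix.smul_mul, smul_smul, mul_inv_cancel₀ hs0, one_smul, Matrix.mul_assoc, hΦ1,
      Matrix.mul_one]

end Pool.Agent.DRB
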