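import Mathlib
import Pool.Agent.DRB.Targets

/-!
# The symplectic group is generated by transvections
-/

set_option autoImplicit false

open Matrix

namespace Pool.Agent.DRB

namespace GENT_

variable {m : ℕ} {E : Matrix (Fin m) (Fin m) ℂ}

/-- the symplectic form on column vectors -/
noncomputable def B (E : Matrix (Fin m) (Fin m) ℂ) (v w : Fin m → ℂ) : ℂ := v ⬝ᵥ (E⁻¹ *ᵥ w)

lemma B_add_left (u v w : Fin m → ℂ) : B E (u + v) w = B E u w + B E v w := by
  simp [B, add_dotProduct]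

lemma B_sub_left (u v w : Fin m → ℂ) : B E (u - v) w = B E u w - B E v w := by
  simp [B, sub_dotProduct]

lemma B_smul_left (s : ℂ) (v w : Fin m → ℂ) : B E (s • v) w = s * B E v w := by
  simp [B, smul_dotProduct]

lemma B_add_right (u v w : Fin m → ℂ) : B E u (v + w) = B E u v + B E u w := by
  simp [B, mulVec_add, dotProduct_add]

lemma B_sub_right (u v w : Fin m → ℂ) : B E u (v - w) = B E u v - B E u w := by
  simp [B, mulVec_sub, dotProduct_sub]

lemma B_smul_right (s : ℂ) (v w : Fin m → ℂ) : B E v (s • w) = s * B E v w := by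
  simp [B, mulVec_smul, dotProduct_smul]

lemma inv_transpose (hE : Alt E) : (E⁻¹)ᵀ = -E⁻¹ := by
  have h1 : IsUnit E.det := (isUnit_iff_isUnit_det E).1 hE.2
  rw [transpose_nonsing_inv, hE.1]
  apply inv_eq_left_inv
  rw [neg_mul_neg, nonsing_inv_mul E h1]

lemma B_neg (hE : Alt E) (v w : Fin m → ℂ) : B E v w = -B E w v := by
  unfold B
  rw [dotProduct_mulVec, ← mulVec_transpose, inv_transpose hE, neg_mulVec, neg_dotProduct,
    dotProduct_comm]

lemma B_self (hE : Alt E) (v : Fin m → ℂ) : B E v v = 0 := by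
  have h := B_neg hE v v
  have h2 : (2 : ℂ) * B E v v = 0 := by linear_combination h
  simpa using h2

lemma B_nondeg (hE : Alt E) {v : Fin m → ℂ} (hv : v ≠ 0) : ∃ w, B E v w ≠ 0 := by
  by_contra hcon
  push Not at hcon
  apply hv
  have h1 : IsUnit E.det := (isUnit_iff_isUnit_det E).1 hE.2
  have h2 : ∀ w, v ⬝ᵥ w = 0 := by
    intro w
    have h3 := hcon (E *ᵥ w)
    unfold B at h3
    rwa [mulVec_mulVec, nonsing_inv_mul E h1, one_mulVec] at h3
  funext i
  have h4 := h2 (Pi.single i 1)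
  simpa using h4

lemma tv_mulVec (v w : Fin m → ℂ) : tv E v *ᵥ w = B E v w • v := by
  unfold tv B
  rw [← mulVec_mulVec, vecMulVec_mulVec]
  ext i
  simp [mul_comm]

lemma trans_mulVec (v w : Fin m → ℂ) (s : ℂ) :
    (1 + s • tv E v) *ᵥ w = w + (s * B E v w) • v := by
  rw [add_mulVec, one_mulVec, smul_mulVec, tv_mulVec, smul_smul]

/-- `h` preserves the form -/
def Inv (E h : Matrix (Fin m) (Fin m) ℂ) : Prop := ∀ v w, B E (h *ᵥ v) (h *ᵥ w) = B E v w

lemma Inv.mul {g h : Matrix (Fin m) (Fin m) ℂ} (hg : Inv E g) (hh : Inv E h) :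
    Inv E (g * h) := by
  intro v w
  rw [← mulVec_mulVec, ← mulVec_mulVec, hg, hh]

lemma inv_trans (hE : Alt E) (v : Fin m → ℂ) (s : ℂ) : Inv E (1 + s • tv E v) := by
  intro x y
  rw [trans_mulVec, trans_mulVec, B_add_left, B_add_right, B_add_right, B_smul_left,
    B_smul_left, B_smul_right, B_smul_right, B_self hE v, B_neg hE x v]
  ring

lemma inv_of_sp (hE : Alt E) {h : Matrix (Fin m) (Fin m) ℂ} (hh : h ∈ Sp E) : Inv E h := by
  have h1 : IsUnit E.det := (isUnit_iff_isUnit_det E).1 hE.2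
  have h2 : h * E * hᵀ = E := hh
  have h3 : h * (E * hᵀ * E⁻¹) = 1 := by
    calc h * (E * hᵀ * E⁻¹) = (h * E * hᵀ) * E⁻¹ := by simp only [Matrix.mul_assoc]
      _ = 1 := by rw [h2, mul_nonsing_inv E h1]
  have h4 : (E * hᵀ * E⁻¹) * h = 1 := mul_eq_one_comm.1 h3
  have h5 : hᵀ * E⁻¹ * h = E⁻¹ := by
    calc hᵀ * E⁻¹ * h = E⁻¹ * E * (hᵀ * E⁻¹ * h) := by
          rw [nonsing_inv_mul E h1, Matrix.one_mul]
      _ = E⁻¹ * ((E * hᵀ * E⁻¹) * h) := by simp only [Matrix.mul_assoc]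
      _ = E⁻¹ := by rw [h4, Matrix.mul_one]
  intro v w
  unfold B
  calc (h *ᵥ v) ⬝ᵥ (E⁻¹ *ᵥ (h *ᵥ w)) = v ⬝ᵥ (hᵀ *ᵥ (E⁻¹ *ᵥ (h *ᵥ w))) := by
        rw [dotProduct_mulVec v hᵀ, vecMul_transpose]
    _ = v ⬝ᵥ ((hᵀ * E⁻¹ * h) *ᵥ w) := by
        rw [mulVec_mulVec, mulVec_mulVec, Matrix.mul_assoc]
    _ = _ := by rw [h5]

/-- the vectors fixed by `h` -/
noncomputable def fx (h : Matrix (Fin m) (Fin m) ℂ) : Submodule ℂ (Fin m → ℂ) :=
  LinearMap.ker (h - 1).mulVecLin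

lemma mem_fx {h : Matrix (Fin m) (Fin m) ℂ} {v : Fin m → ℂ} : v ∈ fx h ↔ h *ᵥ v = v := by
  unfold fx
  rw [LinearMap.mem_ker, mulVecLin_apply, sub_mulVec, one_mulVec, sub_eq_zero]

/-- `h v - v` is orthogonal to the vectors fixed by `h` -/
lemma B_diff {h : Matrix (Fin m) (Fin m) ℂ} (hh : Inv E h) (v : Fin m → ℂ) {w : Fin m → ℂ}
    (hw : w ∈ fx h) : B E (h *ᵥ v - v) w = 0 := by
  have h1 := hh v w
  rw [mem_fx.1 hw] at h1
  rw [B_sub_left, h1, sub_self]

lemma trans_inv (hE : Alt E) (v : Fin m → ℂ) (s : ℂ) :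
    (1 + s • tv E v) * (1 + (-s) • tv E v) = 1 := by
  apply Matrix.mulVec_injective
  funext w
  rw [← mulVec_mulVec, trans_mulVec, trans_mulVec, one_mulVec, B_add_right, B_smul_right,
    B_self hE v, mul_zero, add_zero, add_assoc, ← add_smul]
  simp

/-- the generic step -/
lemma step1 (hE : Alt E) {G : Submonoid (Matrix (Fin m) (Fin m) ℂ)}
    (hG : ∀ (v : Fin m → ℂ) (s : ℂ), 1 + s • tv E v ∈ G) {h : Matrix (Fin m) (Fin m) ℂ}
    (hh : Inv E h) {v : Fin m → ℂ} (hv : B E v (h *ᵥ v) ≠ 0) :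
    ∃ g ∈ G, ∃ g' ∈ G, g' * g = 1 ∧ Inv E g ∧ fx h < fx (g * h) := by
  set u : Fin m → ℂ := h *ᵥ v - v with hu
  have hBu : B E u v = -B E v (h *ᵥ v) := by
    rw [hu, B_sub_left, B_self hE, sub_zero, B_neg hE]
  have hBu0 : B E u v ≠ 0 := by rw [hBu]; exact neg_ne_zero.2 hv
  set s : ℂ := (B E u v)⁻¹ with hs
  have ht : (1 + s • tv E u) *ᵥ v = h *ᵥ v := by
    rw [trans_mulVec, hs, inv_mul_cancel₀ hBu0, one_smul, hu]
    abel
  have hinv := trans_inv hE u s
  have hinv2 := mul_eq_one_comm.1 hinv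
  refine ⟨1 + (-s) • tv E u, hG _ _, 1 + s • tv E u, hG _ _, hinv, inv_trans hE _ _, ?_⟩
  have hle : fx h ≤ fx ((1 + (-s) • tv E u) * h) := by
    intro w hw
    have h1 := B_diff hh v hw
    rw [← hu] at h1
    rw [mem_fx, ← mulVec_mulVec, mem_fx.1 hw, trans_mulVec, h1, mul_zero, zero_smul, add_zero]
  refine lt_of_le_of_ne hle ?_
  intro heq
  have h2 : v ∈ fx ((1 + (-s) • tv E u) * h) := by
    rw [mem_fx, ← mulVec_mulVec, ← ht, mulVec_mulVec, hinv2, one_mulVec]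
  rw [← heq, mem_fx] at h2
  apply hv
  rw [h2, B_self hE]

/-- every element different from `1` can be improved -/
lemma step2 (hE : Alt E) {G : Submonoid (Matrix (Fin m) (Fin m) ℂ)}
    (hG : ∀ (v : Fin m → ℂ) (s : ℂ), 1 + s • tv E v ∈ G) {h : Matrix (Fin m) (Fin m) ℂ}
    (hh : Inv E h) (h1 : h ≠ 1) :
    ∃ g ∈ G, ∃ g' ∈ G, g' * g = 1 ∧ Inv E g ∧ fx h < fx (g * h) := by
  by_cases hcase : ∃ v, B E v (h *ᵥ v) ≠ 0
  · obtain ⟨v, hv⟩ := hcase
    exact step1 hE hG hh hv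
  push Not at hcase
  -- polarisation
  have hpol : ∀ v x, B E v (h *ᵥ x) = B E (h *ᵥ v) x := by
    intro v x
    have e1 := hcase (v + x)
    rw [mulVec_add, B_add_left, B_add_right, B_add_right, hcase v, hcase x] at e1
    have e2 := B_neg hE x (h *ᵥ v)
    linear_combination e1 - e2
  -- a vector that is moved
  have hmove : ∃ v, h *ᵥ v ≠ v := by
    by_contra hcon
    push Not at hcon
    apply h1
    apply Matrix.mulVec_injective
    funext v
    rw [hcon v, one_mulVec]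
  obtain ⟨v, hv⟩ := hmove
  obtain ⟨x, hx⟩ := B_nondeg hE (sub_ne_zero.2 hv)
  set w : Fin m → ℂ := h *ᵥ x - x with hw
  have e1 : B E v w = B E (h *ᵥ v - v) x := by
    rw [hw, B_sub_right, B_sub_left, hpol]
  have e2 : B E w (h *ᵥ v) = B E (h *ᵥ v - v) x := by
    rw [hw, B_sub_left, hh, B_sub_left, B_neg hE x v, B_neg hE x (h *ᵥ v)]
    ring
  set t : Matrix (Fin m) (Fin m) ℂ := 1 + (1 : ℂ) • tv E w with ht
  have htinv : Inv E t := inv_trans hE _ _
  have hth : Inv E (t * h) := htinv.mul hh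
  have hne : B E v ((t * h) *ᵥ v) ≠ 0 := by
    rw [← mulVec_mulVec, ht, trans_mulVec, B_add_right, hcase v, B_smul_right, e1, e2, zero_add,
      one_mul]
    exact mul_ne_zero hx hx
  obtain ⟨g, hg, g', hg', hgg, hgi, hlt⟩ := step1 hE hG hth hne
  have hle : fx h ≤ fx (t * h) := by
    intro y hy
    have h3 := B_diff hh x hy
    rw [← hw] at h3
    rw [mem_fx, ← mulVec_mulVec, mem_fx.1 hy, ht, trans_mulVec, h3, mul_zero, zero_smul,
      add_zero]
  refine ⟨g * t, G.mul_mem hg (hG _ _), (1 + (-(1 : ℂ)) • tv E w) * g',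
    G.mul_mem (hG _ _) hg', ?_, hgi.mul htinv, ?_⟩
  · have e3 : (1 + (-(1 : ℂ)) • tv E w) * t = 1 := mul_eq_one_comm.1 (trans_inv hE w 1)
    calc (1 + (-(1 : ℂ)) • tv E w) * g' * (g * t)
        = (1 + (-(1 : ℂ)) • tv E w) * ((g' * g) * t) := by simp only [Matrix.mul_assoc]
      _ = 1 := by rw [hgg, Matrix.one_mul, e3]
  · rw [Matrix.mul_assoc]
    exact lt_of_le_of_lt hle hlt

lemma main (hE : Alt E) {G : Submonoid (Matrix (Fin m) (Fin m) ℂ)}
    (hG : ∀ (v : Fin m → ℂ) (s : ℂ), 1 + s • tv E v ∈ G) :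
    ∀ (n : ℕ) (h : Matrix (Fin m) (Fin m) ℂ), Inv E h →
      m ≤ n + Module.finrank ℂ (fx h) → h ∈ G := by
  intro n
  induction n with
  | zero =>
    intro h hh hn
    by_contra hcon
    have h1 : h ≠ 1 := fun e => hcon (e ▸ G.one_mem)
    obtain ⟨g, -, g', -, -, -, hlt⟩ := step2 hE hG hh h1
    have h2 := Submodule.finrank_lt_finrank_of_lt hlt
    have h3 := Submodule.finrank_le (fx (g * h))
    rw [Module.finrank_fin_fun] at h3
    omega
  | succ n ih =>
    intro h hh hn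
    by_cases h1 : h = 1
    · rw [h1]; exact G.one_mem
    obtain ⟨g, hg, g', hg', hgg, hgi, hlt⟩ := step2 hE hG hh h1
    have h2 := Submodule.finrank_lt_finrank_of_lt hlt
    have h3 := ih (g * h) (hgi.mul hh) (by omega)
    have h4 : h = g' * (g * h) := by rw [← Matrix.mul_assoc, hgg, Matrix.one_mul]
    rw [h4]
    exact G.mul_mem hg' h3

end GENT_

theorem p_GENT : T_GENT := by
  intro m E hE G hG h hh
  exact GENT_.main hE hG m h (GENT_.inv_of_sp hE hh) (by omega)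

end Pool.Agent.DRB
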