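import Pool.Agent.DRB.Targets

set_option autoImplicit false

open Matrix

namespace Pool.Agent.DRB

namespace HOMG_

variable {m : ℕ}

theorem inv_transpose {E : Matrix (Fin m) (Fin m) ℂ} (hE : Alt E) : (E⁻¹)ᵀ = -E⁻¹ := by
  have hdet : IsUnit E.det := (Matrix.isUnit_iff_isUnit_det E).1 hE.2
  have h1 : (E⁻¹)ᵀ * E = -1 := by
    have h2 : (E * E⁻¹)ᵀ = 1 := by rw [Matrix.mul_nonsing_inv E hdet, Matrix.transpose_one]
    rw [Matrix.transpose_mul, hE.1, Matrix.mul_neg] at h2
    rw [← h2, neg_neg]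
  calc (E⁻¹)ᵀ = (E⁻¹)ᵀ * (E * E⁻¹) := by rw [Matrix.mul_nonsing_inv E hdet, Matrix.mul_one]
    _ = ((E⁻¹)ᵀ * E) * E⁻¹ := by rw [Matrix.mul_assoc]
    _ = -E⁻¹ := by rw [h1, Matrix.neg_mul, Matrix.one_mul]

theorem quad_zero {A : Matrix (Fin m) (Fin m) ℂ} (hA : Aᵀ = -A) (v : Fin m → ℂ) :
    v ⬝ᵥ A *ᵥ v = 0 := by
  have h1 : v ⬝ᵥ A *ᵥ v = v ⬝ᵥ Aᵀ *ᵥ v := by
    rw [Matrix.mulVec_transpose, Matrix.dotProduct_mulVec, dotProduct_comm]
  rw [hA, Matrix.neg_mulVec, dotProduct_neg] at h1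
  have h2 : (2 : ℂ) * (v ⬝ᵥ A *ᵥ v) = 0 := by linear_combination h1
  simpa using h2

theorem mem_Sp {E : Matrix (Fin m) (Fin m) ℂ} (hE : Alt E) (v : Fin m → ℂ) (s : ℂ) :
    1 + s • tv E v ∈ Sp E := by
  have hdet : IsUnit E.det := (Matrix.isUnit_iff_isUnit_det E).1 hE.2
  set N := tv E v with hN
  have h1 : N * E = vecMulVec v v := by
    rw [hN, tv, Matrix.mul_assoc, Matrix.nonsing_inv_mul E hdet, Matrix.mul_one]
  have h2 : E * Nᵀ = - vecMulVec v v := by
    rw [hN, tv, Matrix.transpose_mul, inv_transpose hE, Matrix.transpose_vecMulVec,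
      ← Matrix.mul_assoc, Matrix.mul_neg, Matrix.mul_nonsing_inv E hdet, Matrix.neg_mul,
      Matrix.one_mul]
  have h3 : N * E * Nᵀ = 0 := by
    rw [h1, hN, tv, Matrix.transpose_mul, inv_transpose hE, Matrix.transpose_vecMulVec,
      Matrix.neg_mul, Matrix.mul_neg, ← Matrix.mul_assoc]
    have h4 : vecMulVec v v * E⁻¹ * vecMulVec v v = (v ⬝ᵥ E⁻¹ *ᵥ v) • vecMulVec v v := by
      rw [Matrix.vecMulVec_mul, Matrix.vecMulVec_mul_vecMulVec, Matrix.dotProduct_mulVec]
      ext i j
      simp [Matrix.vecMulVec_apply]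
      ring
    rw [h4, quad_zero (inv_transpose hE), zero_smul, neg_zero]
  show (1 + s • N) * E * (1 + s • N)ᵀ = E
  rw [Matrix.transpose_add, Matrix.transpose_one, Matrix.transpose_smul, Matrix.add_mul,
    Matrix.one_mul, Matrix.mul_add, Matrix.add_mul, Matrix.add_mul, Matrix.mul_one, Matrix.mul_one,
    Matrix.mul_smul, h2, Matrix.smul_mul, h1, Matrix.smul_mul, Matrix.mul_smul]
  rw [← h1, h3, smul_zero, smul_zero, smul_neg]
  abel

end HOMG_

open HOMG_ in
theorem p_HOMG : T_HOMG := by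
  classical
  intro m S D hBD hp
  have hE := S.hE
  set E := toC S.E with hEdef
  have hdet : IsUnit E.det := (Matrix.isUnit_iff_isUnit_det E).1 hE.2
  -- the diagonal of `E` vanishes
  have hdiag : ∀ k, E k k = 0 := by
    intro k
    have h1 := congrFun (congrFun hE.1 k) k
    rw [Matrix.transpose_apply, Matrix.neg_apply] at h1
    have h2 : (2 : ℂ) * E k k = 0 := by linear_combination h1
    simpa using h2
  -- `Φ` is invertible
  have hΦdet : S.Φ.det ≠ 0 := by
    intro h0
    have h1 := congrArg Matrix.det S.rel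
    rw [Matrix.det_mul, Matrix.det_mul, h0, zero_mul, zero_mul, Matrix.det_smul] at h1
    have h2 : S.κ ^ Fintype.card (Fin m) * E.det ≠ 0 :=
      mul_ne_zero (pow_ne_zero _ S.hκ) hdet.ne_zero
    exact h2 h1.symm
  let k : Fin m := ⟨0, S.hm⟩
  obtain ⟨a, ha⟩ : ∃ a, S.Φ k a ≠ 0 := by
    by_contra hcon
    push Not at hcon
    exact hΦdet (Matrix.det_eq_zero_of_row_eq_zero k hcon)
  obtain ⟨i, hik⟩ : ∃ i : Fin m, i ≠ k := by
    by_contra hcon
    push Not at hcon
    have h1 : E.det = 0 := by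
      apply Matrix.det_eq_zero_of_row_eq_zero k
      intro j
      rw [hcon j]
      exact hdiag k
    exact hdet.ne_zero h1
  obtain ⟨p, hmon, hdeg, hroot⟩ := hp i k a ha
  set u : Fin m → ℂ := fun j => S.Φ j a with hu
  set w : Fin m → ℂ := E⁻¹ *ᵥ u with hw
  have hEw : E *ᵥ w = u := by
    rw [hw, Matrix.mulVec_mulVec, Matrix.mul_nonsing_inv E hdet, Matrix.one_mulVec]
  obtain ⟨j, hjk, hwj⟩ : ∃ j, j ≠ k ∧ w j ≠ 0 := by
    by_contra hcon
    push Not at hcon
    have h1 : (E *ᵥ w) k = 0 := by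
      simp only [Matrix.mulVec, dotProduct]
      apply Finset.sum_eq_zero
      intro l _
      by_cases hl : l = k
      · rw [hl, hdiag k, zero_mul]
      · rw [hcon l hl, mul_zero]
    rw [hEw] at h1
    exact ha h1
  obtain ⟨v, hvk, hvi, hvw⟩ : ∃ v : Fin m → ℂ, v k = 0 ∧ v i ≠ 0 ∧ v ⬝ᵥ w ≠ 0 := by
    by_cases hwi : w i = 0
    · have hij : i ≠ j := by
        rintro rfl
        exact hwj hwi
      refine ⟨Pi.single i 1 + Pi.single j 1, ?_, ?_, ?_⟩
      · simp [Pi.single_apply, hik.symm, hjk.symm]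
      · simp [Pi.single_apply, hij]
      · rw [add_dotProduct, single_dotProduct, single_dotProduct, hwi]
        simpa using hwj
    · refine ⟨Pi.single i 1, ?_, ?_, ?_⟩
      · simp [Pi.single_apply, hik.symm]
      · simp
      · rw [single_dotProduct]
        simpa using hwi
  set e := p.natDegree with he
  set P : MvPolynomial (Fin m × Fin m) ℚ := ∑ q ∈ Finset.range (e + 1),
    MvPolynomial.C (p.coeff q) * (MvPolynomial.X (i, a) ^ q * MvPolynomial.X (k, a) ^ (e - q))
    with hP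
  have hPdeg : P.totalDegree ≤ D := by
    refine (MvPolynomial.totalDegree_finset_sum _ _).trans ?_
    apply Finset.sup_le
    intro q hq
    have hqe : q ≤ e := Nat.lt_succ_iff.1 (Finset.mem_range.1 hq)
    refine (MvPolynomial.totalDegree_mul _ _).trans ?_
    rw [MvPolynomial.totalDegree_C, zero_add]
    refine (MvPolynomial.totalDegree_mul _ _).trans ?_
    rw [MvPolynomial.totalDegree_X_pow, MvPolynomial.totalDegree_X_pow]
    omega
  have hPval : ∀ M : Matrix (Fin m) (Fin m) ℂ, M k a ≠ 0 →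
      MvPolynomial.aeval (fun p => M p.1 p.2) P = M k a ^ e * Polynomial.aeval (M i a / M k a) p := by
    intro M hM
    rw [hP, map_sum, Polynomial.aeval_eq_sum_range, Finset.mul_sum]
    apply Finset.sum_congr rfl
    intro q hq
    have hqe : q ≤ e := Nat.lt_succ_iff.1 (Finset.mem_range.1 hq)
    rw [map_mul, map_mul, map_pow, map_pow, MvPolynomial.aeval_X, MvPolynomial.aeval_X,
      MvPolynomial.algHom_C, Algebra.smul_def, div_pow]
    have h1 : M k a ^ e = M k a ^ (e - q) * M k a ^ q := by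
      rw [← pow_add]; congr 1; omega
    show _ = _
    rw [h1]
    have h2 : M k a ^ q ≠ 0 := pow_ne_zero _ hM
    field_simp
  have hP0 : MvPolynomial.aeval (fun p => S.Φ p.1 p.2) P = 0 := by
    rw [hPval _ ha, hroot, mul_zero]
  have hall := hBD P hPdeg hP0
  -- all numbers are roots of `p`
  have hroots : ∀ z : ℂ, Polynomial.aeval z p = 0 := by
    intro z
    set s : ℂ := (z * S.Φ k a - S.Φ i a) / (v i * (v ⬝ᵥ w)) with hs
    have h1 := hall (1 + s • tv E v) (mem_Sp hE v s)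
    have hmul : ∀ l, ((1 + s • tv E v) * S.Φ) l a = S.Φ l a + s * (v l * (v ⬝ᵥ w)) := by
      intro l
      rw [Matrix.add_mul, Matrix.one_mul, Matrix.add_apply, Matrix.smul_mul, Matrix.smul_apply,
        smul_eq_mul]
      congr 2
      have h2 : (tv E v * S.Φ) l a = (tv E v *ᵥ u) l := by
        simp only [Matrix.mul_apply, Matrix.mulVec, dotProduct, hu]
      rw [h2, tv, ← Matrix.mulVec_mulVec, ← hw]
      simp only [Matrix.mulVec, dotProduct, Matrix.vecMulVec_apply]
      rw [Finset.mul_sum]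
      apply Finset.sum_congr rfl
      intro b _
      ring
    have hk : ((1 + s • tv E v) * S.Φ) k a = S.Φ k a := by
      rw [hmul, hvk]; ring
    have hi : ((1 + s • tv E v) * S.Φ) i a = z * S.Φ k a := by
      rw [hmul, hs]
      field_simp
      ring
    rw [hPval _ (by rw [hk]; exact ha), hk, hi] at h1
    have h2 := (mul_eq_zero.1 h1).resolve_left (pow_ne_zero _ ha)
    rwa [mul_div_assoc, div_self ha, mul_one] at h2
  have hp0 : p.map (algebraMap ℚ ℂ) = 0 := by
    apply Polynomial.funext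
    intro z
    have := hroots z
    rw [Polynomial.aeval_def, ← Polynomial.eval_map] at this
    rw [this, Polynomial.eval_zero]
  have hp1 : p = 0 := (Polynomial.map_eq_zero_iff (algebraMap ℚ ℂ).injective).1 hp0
  exact hmon.ne_zero hp1

end Pool.Agent.DRB
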