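import Mathlib
import Pool.Agent.DRB.Targets

/-!
# DRB: Jordan's theorem on finite linear groups
-/

set_option autoImplicit false

namespace Pool.Agent.DRB

open scoped Matrix.Norms.L2Operator

theorem p_JORD (h1 : T_UNIT) (h2 : T_FROB) (h3 : T_PACK) : T_JORD := by
  classical
  intro m
  obtain ⟨J, hJ⟩ := h3 m
  refine ⟨J, fun F hF1 hFm hFi => ?_⟩
  obtain ⟨P, hP, hPu⟩ := h1 m F hF1 hFm (fun f hf => (hFi f hf).1)
  have hPi : P * P⁻¹ = 1 := Matrix.mul_nonsing_inv P ((Matrix.isUnit_iff_isUnit_det P).1 hP)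
  have hPi' : P⁻¹ * P = 1 := Matrix.nonsing_inv_mul P ((Matrix.isUnit_iff_isUnit_det P).1 hP)
  have hinv : ∀ f ∈ F, f * f⁻¹ = 1 ∧ f⁻¹ * f = 1 := by
    intro f hf
    have h4 := (Matrix.isUnit_iff_isUnit_det f).1 (hFi f hf).1
    exact ⟨Matrix.mul_nonsing_inv f h4, Matrix.nonsing_inv_mul f h4⟩
  set c : Matrix (Fin m) (Fin m) ℂ → Matrix (Fin m) (Fin m) ℂ := fun f => P * f * P⁻¹ with hc
  have c1 : c 1 = 1 := by rw [hc]; simp only [mul_one]; exact hPi
  have cm : ∀ f g, c (f * g) = c f * c g := by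
    intro f g
    calc P * (f * g) * P⁻¹ = P * f * 1 * g * P⁻¹ := by noncomm_ring
      _ = P * f * (P⁻¹ * P) * g * P⁻¹ := by rw [hPi']
      _ = P * f * P⁻¹ * (P * g * P⁻¹) := by noncomm_ring
  have cinj : Function.Injective c := by
    intro f g hfg
    have h4 : P⁻¹ * c f * P = P⁻¹ * c g * P := by rw [hfg]
    have h5 : ∀ f, P⁻¹ * c f * P = f := by
      intro f
      calc P⁻¹ * (P * f * P⁻¹) * P = (P⁻¹ * P) * f * (P⁻¹ * P) := by noncomm_ring
        _ = f := by rw [hPi', one_mul, mul_one]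
    rwa [h5, h5] at h4
  have cu : ∀ f ∈ F, c f ∈ Matrix.unitaryGroup (Fin m) ℂ := hPu
  have cstar : ∀ f ∈ F, star (c f) = c f⁻¹ := by
    intro f hf
    have h4 : star (c f) * c f = 1 := (Unitary.mem_iff.1 (cu f hf)).1
    calc star (c f) = star (c f) * (c f * c f⁻¹) := by rw [← cm, (hinv f hf).1, c1, mul_one]
      _ = star (c f) * c f * c f⁻¹ := (mul_assoc _ _ _).symm
      _ = c f⁻¹ := by rw [h4, one_mul]
  have nl : ∀ f ∈ F, ∀ X : Matrix (Fin m) (Fin m) ℂ, ‖c f * X‖ = ‖X‖ := by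
    intro f hf X
    exact CStarRing.norm_coe_unitary_mul (⟨c f, cu f hf⟩ : unitary (Matrix (Fin m) (Fin m) ℂ)) X
  have nr : ∀ f ∈ F, ∀ X : Matrix (Fin m) (Fin m) ℂ, ‖X * c f‖ = ‖X‖ := by
    intro f hf X
    exact CStarRing.norm_mul_coe_unitary X (⟨c f, cu f hf⟩ : unitary (Matrix (Fin m) (Fin m) ℂ))
  -- the elements near `1`
  set S : Set (Matrix (Fin m) (Fin m) ℂ) := {x | x ∈ F ∧ ‖c x - 1‖ < 1 / 2} with hS
  have hScomm : ∀ x ∈ S, ∀ y ∈ S, x * y = y * x := by
    intro x hx y hy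
    apply cinj
    rw [cm, cm]
    refine h2 m (F.image c) ?_ ?_ ?_ ?_ (c x) ?_ (c y) ?_ hx.2 hy.2
    · exact Finset.mem_image.2 ⟨1, hF1, c1⟩
    · intro f hf g hg
      obtain ⟨f', hf', rfl⟩ := Finset.mem_image.1 hf
      obtain ⟨g', hg', rfl⟩ := Finset.mem_image.1 hg
      exact Finset.mem_image.2 ⟨f' * g', hFm f' hf' g' hg', cm f' g'⟩
    · intro f hf
      obtain ⟨f', hf', rfl⟩ := Finset.mem_image.1 hf
      exact Finset.mem_image.2 ⟨f'⁻¹, (hFi f' hf').2, (cstar f' hf').symm⟩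
    · intro f hf
      obtain ⟨f', hf', rfl⟩ := Finset.mem_image.1 hf
      exact cu f' hf'
    · exact Finset.mem_image.2 ⟨x, hx.1, rfl⟩
    · exact Finset.mem_image.2 ⟨y, hy.1, rfl⟩
  have hSinv : ∀ x ∈ S, x⁻¹ ∈ S := by
    intro x hx
    refine ⟨(hFi x hx.1).2, ?_⟩
    have h4 : c x * (c x⁻¹ - 1) = -(c x - 1) := by
      rw [mul_sub, ← cm, (hinv x hx.1).1, c1, mul_one]
      abel
    rw [← nl x hx.1, h4, norm_neg]
    exact hx.2
  have hSconj : ∀ f ∈ F, ∀ x ∈ S, f * x * f⁻¹ ∈ S := by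
    intro f hf x hx
    refine ⟨hFm _ (hFm f hf x hx.1) _ (hFi f hf).2, ?_⟩
    have h4 : c (f * x * f⁻¹) - 1 = c f * (c x - 1) * c f⁻¹ := by
      rw [cm, cm, mul_sub, sub_mul, mul_one, ← cm f f⁻¹, (hinv f hf).1, c1]
    rw [h4, nr _ (hFi f hf).2, nl f hf]
    exact hx.2
  set T : Submonoid (Matrix (Fin m) (Fin m) ℂ) := Submonoid.closure S with hT
  have hTF : ∀ x ∈ T, x ∈ F := by
    intro x hx
    induction hx using Submonoid.closure_induction with
    | mem x hx => exact hx.1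
    | one => exact hF1
    | mul x y _ _ hx hy => exact hFm x hx y hy
  have hTinv : ∀ x ∈ T, x⁻¹ ∈ T := by
    intro x hx
    induction hx using Submonoid.closure_induction with
    | mem x hx => exact Submonoid.subset_closure (hSinv x hx)
    | one => rw [inv_one]; exact T.one_mem
    | mul x y _ _ hx hy => rw [Matrix.mul_inv_rev]; exact T.mul_mem hy hx
  have hTconj : ∀ f ∈ F, ∀ x ∈ T, f * x * f⁻¹ ∈ T := by
    intro f hf x hx
    induction hx using Submonoid.closure_induction with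
    | mem x hx => exact Submonoid.subset_closure (hSconj f hf x hx)
    | one => rw [mul_one, (hinv f hf).1]; exact T.one_mem
    | mul x y _ _ hx hy =>
      have h4 : f * (x * y) * f⁻¹ = f * x * f⁻¹ * (f * y * f⁻¹) := by
        calc f * (x * y) * f⁻¹ = f * x * 1 * (y * f⁻¹) := by noncomm_ring
          _ = f * x * (f⁻¹ * f) * (y * f⁻¹) := by rw [(hinv f hf).2]
          _ = f * x * f⁻¹ * (f * y * f⁻¹) := by noncomm_ring
      rw [h4]
      exact T.mul_mem hx hy
  have hTcomm : ∀ x ∈ T, ∀ y ∈ T, x * y = y * x := by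
    have h4 : ∀ x ∈ T, ∀ y ∈ S, x * y = y * x := by
      intro x hx y hy
      induction hx using Submonoid.closure_induction with
      | mem x hx => exact hScomm x hx y hy
      | one => rw [one_mul, mul_one]
      | mul x x' _ _ hx hx' => rw [mul_assoc, hx', ← mul_assoc, hx, mul_assoc]
    intro x hx y hy
    induction hy using Submonoid.closure_induction with
    | mem y hy => exact h4 x hx y hy
    | one => rw [one_mul, mul_one]
    | mul y y' _ _ hy hy' => rw [← mul_assoc, hy, mul_assoc, hy', ← mul_assoc]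
  refine ⟨F.filter (fun x => x ∈ T), Finset.filter_subset _ _,
    Finset.mem_filter.2 ⟨hF1, T.one_mem⟩, ?_, ?_, ?_, ?_, ?_⟩
  · intro x hx y hy
    have hx' := (Finset.mem_filter.1 hx).2
    have hy' := (Finset.mem_filter.1 hy).2
    exact Finset.mem_filter.2 ⟨hTF _ (T.mul_mem hx' hy'), T.mul_mem hx' hy'⟩
  · intro x hx
    have hx' := (Finset.mem_filter.1 hx).2
    exact Finset.mem_filter.2 ⟨hTF _ (hTinv x hx'), hTinv x hx'⟩
  · intro x hx y hy
    exact hTcomm x (Finset.mem_filter.1 hx).2 y (Finset.mem_filter.1 hy).2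
  · intro x hx f hf
    have hx' := (Finset.mem_filter.1 hx).2
    exact Finset.mem_filter.2 ⟨hTF _ (hTconj f hf x hx'), hTconj f hf x hx'⟩
  · -- a maximal separated subset
    set Sep : Finset (Finset (Matrix (Fin m) (Fin m) ℂ)) :=
      F.powerset.filter (fun R => ∀ r ∈ R, ∀ r' ∈ R, r ≠ r' → 1 / 2 ≤ ‖c r - c r'‖) with hSep
    have hne : Sep.Nonempty := ⟨∅, Finset.mem_filter.2
      ⟨Finset.mem_powerset.2 (Finset.empty_subset _), fun r hr => absurd hr (Finset.notMem_empty r)⟩⟩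
    obtain ⟨R, hR, hRmax⟩ := Finset.exists_max_image Sep Finset.card hne
    have hRF : R ⊆ F := Finset.mem_powerset.1 (Finset.mem_filter.1 hR).1
    have hRs := (Finset.mem_filter.1 hR).2
    have hRJ : R.card ≤ J := by
      rw [← Finset.card_image_of_injective R cinj]
      refine hJ (R.image c) ?_ ?_
      · intro f hf
        obtain ⟨f', hf', rfl⟩ := Finset.mem_image.1 hf
        exact cu f' (hRF hf')
      · intro f hf g hg hfg
        obtain ⟨f', hf', rfl⟩ := Finset.mem_image.1 hf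
        obtain ⟨g', hg', rfl⟩ := Finset.mem_image.1 hg
        exact hRs f' hf' g' hg' (fun h => hfg (by rw [h]))
    have hcov : ∀ f ∈ F, ∃ r ∈ R, ‖c f - c r‖ < 1 / 2 := by
      intro f hf
      by_contra hcon
      push Not at hcon
      have hfR : f ∉ R := by
        intro hfR
        have h4 := hcon f hfR
        rw [sub_self, norm_zero] at h4
        linarith
      have h5 : insert f R ∈ Sep := by
        refine Finset.mem_filter.2 ⟨Finset.mem_powerset.2 (Finset.insert_subset hf hRF), ?_⟩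
        intro r hr r' hr' hrr
        rcases Finset.mem_insert.1 hr with h6 | h6 <;> rcases Finset.mem_insert.1 hr' with h7 | h7
        · exact absurd (h6.trans h7.symm) hrr
        · rw [h6]; exact hcon r' h7
        · rw [h7, norm_sub_rev]; exact hcon r h6
        · exact hRs r h6 r' h7 hrr
      have h8 := hRmax _ h5
      rw [Finset.card_insert_of_notMem hfR] at h8
      omega
    have hsub : F ⊆ (R ×ˢ F.filter (fun x => x ∈ T)).image (fun q => q.1 * q.2) := by
      intro f hf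
      obtain ⟨r, hr, hfr⟩ := hcov f hf
      have hrF := hRF hr
      refine Finset.mem_image.2 ⟨(r, r⁻¹ * f), Finset.mem_product.2 ⟨hr, ?_⟩, ?_⟩
      · have h9 : r⁻¹ * f ∈ S := by
          refine ⟨hFm _ (hFi r hrF).2 _ hf, ?_⟩
          have h10 : c (r⁻¹ * f) - 1 = c r⁻¹ * (c f - c r) := by
            rw [mul_sub, ← cm, ← cm, (hinv r hrF).2, c1]
          rw [h10, nl _ (hFi r hrF).2]
          exact hfr
        exact Finset.mem_filter.2 ⟨h9.1, Submonoid.subset_closure h9⟩
      · show r * (r⁻¹ * f) = f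
        rw [← mul_assoc, (hinv r hrF).1, one_mul]
    calc F.card ≤ ((R ×ˢ F.filter (fun x => x ∈ T)).image (fun q => q.1 * q.2)).card :=
          Finset.card_le_card hsub
      _ ≤ (R ×ˢ F.filter (fun x => x ∈ T)).card := Finset.card_image_le
      _ = R.card * (F.filter (fun x => x ∈ T)).card := Finset.card_product _ _
      _ ≤ J * (F.filter (fun x => x ∈ T)).card := Nat.mul_le_mul_right _ hRJ

end Pool.Agent.DRB
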