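import Pool.Agent.DRB.Targets

set_option autoImplicit false

open Matrix

namespace Pool.Agent.DRB

namespace LINR_

/-- `dtpow` is linear. -/
theorem dtpow_lin {I : Type} [DecidableEq I] (a : ℕ) (s : ℂ) (X Y : Matrix I I ℂ) :
    dtpow a (s • X + Y) = s • dtpow a X + dtpow a Y := by
  ext F G
  simp only [dtpow, Matrix.of_apply, Matrix.add_apply, Matrix.smul_apply, smul_eq_mul]
  rw [Finset.mul_sum, ← Finset.sum_add_distrib]
  exact Finset.sum_congr rfl fun t _ => by ring

end LINR_

theorem p_LINR : T_LINR := by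
  intro I _ _ r a s x y X Y
  unfold dtens
  rw [← Matrix.blockDiagonal'_smul, ← Matrix.blockDiagonal'_add]
  congr 1
  funext i
  rw [LINR_.dtpow_lin]
  simp only [Pi.add_apply, Pi.smul_apply, smul_eq_mul]
  module

end Pool.Agent.DRB
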