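import Pool.Agent.DRB.Targets

set_option autoImplicit false

open Matrix

namespace Pool.Agent.DRB

/-- MAIN: relations of bounded degree exclude finite groups. -/
theorem p_MAIN (h1 : T_CARD) (h2 : T_MINP) (h3 : T_HOMG) : T_MAIN := by
  intro m
  obtain ⟨J, hJ⟩ := h1 m
  refine ⟨max 2 J, fun S hS => ?_⟩
  have hS2 : BD1 2 S := fun P hP => hS P (hP.trans (le_max_left _ _))
  refine h3 m S (max 2 J) hS fun i k a hk => ?_
  obtain ⟨p, hp, hpd, hp0⟩ := h2 m S i k a hk
  exact ⟨p, hp, hpd.trans ((hJ S hS2).trans (le_max_right _ _)), hp0⟩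

end Pool.Agent.DRB
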