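import Pool.Agent.DRB.Targets

/-!
# MINP: the ratios of the entries of the comparison matrix have small degree
-/

set_option autoImplicit false

open Matrix Polynomial

namespace Pool.Agent.DRB

theorem p_MINP (h1 : T_FIXQ) : T_MINP := by
  intro m S i k a hka
  classical
  set ρ : ℂ := S.Φ i a / S.Φ k a with hρ
  -- the finite set of conjugates
  set V : Finset ℂ := (S.F.image (fun g => (g * S.Φ) i a / (g * S.Φ) k a)).filter
    (fun z => ∃ σ : ℂ ≃+* ℂ, σ ρ = z) with hV
  have hmem : ∀ z : ℂ, z ∈ V ↔ ∃ σ : ℂ ≃+* ℂ, σ ρ = z := by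
    intro z
    rw [hV, Finset.mem_filter]
    constructor
    · exact fun h => h.2
    · intro h
      refine ⟨?_, h⟩
      obtain ⟨σ, hσ⟩ := h
      obtain ⟨g, hg, s, hs, he⟩ := S.sig_phi σ
      refine Finset.mem_image.mpr ⟨g, hg, ?_⟩
      have e1 : σ (S.Φ i a) = s * (g * S.Φ) i a := by
        have := congrFun (congrFun he i) a
        simpa [Matrix.map_apply, Matrix.smul_apply] using this
      have e2 : σ (S.Φ k a) = s * (g * S.Φ) k a := by
        have := congrFun (congrFun he k) a
        simpa [Matrix.map_apply, Matrix.smul_apply] using this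
      rw [← hσ, hρ, map_div₀, e1, e2, mul_div_mul_left _ _ hs]
  have hcard : V.card ≤ S.F.card :=
    (Finset.card_filter_le _ _).trans Finset.card_image_le
  set P : ℂ[X] := ∏ v ∈ V, (X - C v) with hP
  have hmonic : P.Monic := monic_prod_of_monic _ _ fun v _ => monic_X_sub_C v
  have hdeg : P.natDegree = V.card := by
    rw [hP, natDegree_prod_of_monic _ _ fun v _ => monic_X_sub_C v]
    simp
  have hfix : ∀ σ : ℂ ≃+* ℂ, P.map (σ : ℂ →+* ℂ) = P := by
    intro σ
    have himg : V.image (fun v => σ v) = V := by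
      apply Finset.eq_of_subset_of_card_le
      · intro x hx
        obtain ⟨v, hv, rfl⟩ := Finset.mem_image.mp hx
        obtain ⟨τ, hτ⟩ := (hmem v).mp hv
        exact (hmem _).mpr ⟨τ.trans σ, by simp [hτ]⟩
      · rw [Finset.card_image_of_injective]
        exact σ.injective
    rw [hP, Polynomial.map_prod]
    conv_rhs => rw [← himg]
    rw [Finset.prod_image (fun x _ y _ h => σ.injective h)]
    refine Finset.prod_congr rfl fun v _ => ?_
    simp
  have hlift : P ∈ Polynomial.lifts (algebraMap ℚ ℂ) := by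
    rw [Polynomial.lifts_iff_coeff_lifts]
    intro n
    obtain ⟨q, hq⟩ := h1 (P.coeff n) (by
      intro σ
      have := congrArg (fun p : ℂ[X] => p.coeff n) (hfix σ)
      simpa [Polynomial.coeff_map] using this)
    exact ⟨q, by rw [hq]; simp⟩
  obtain ⟨q, hq1, hq2, hq3⟩ := Polynomial.lifts_and_natDegree_eq_and_monic hlift hmonic
  refine ⟨q, hq3, ?_, ?_⟩
  · rw [hq2, hdeg]; exact hcard
  · rw [Polynomial.aeval_def, Polynomial.eval₂_eq_eval_map, hq1, hP, Polynomial.eval_prod]
    refine Finset.prod_eq_zero ((hmem ρ).mpr ⟨RingEquiv.refl ℂ, rfl⟩) ?_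
    simp

end Pool.Agent.DRB
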