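import Mathlib
import Pool.Agent.DRB.Targets

/-!
DRB-PACK: a separated set of unitary matrices has bounded size.
-/

set_option autoImplicit false

namespace Pool.Agent.DRB

open Matrix

open scoped Matrix.Norms.L2Operator in
theorem p_PACK : T_PACK := by
  intro m
  rcases Nat.eq_zero_or_pos m with hm | hm
  · subst hm
    refine ⟨1, fun F _ _ => ?_⟩
    exact Finset.card_le_one_of_subsingleton F
  have : Nonempty (Fin m) := ⟨⟨0, hm⟩⟩
  have : Nontrivial (Matrix (Fin m) (Fin m) ℂ) := inferInstance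
  have : ProperSpace (Matrix (Fin m) (Fin m) ℂ) := FiniteDimensional.proper ℂ _
  have hc : TotallyBounded (Metric.closedBall (0 : Matrix (Fin m) (Fin m) ℂ) 1) :=
    (isCompact_closedBall 0 1).totallyBounded
  obtain ⟨t, ht, hcov⟩ := Metric.totallyBounded_iff.1 hc (1 / 5) (by norm_num)
  refine ⟨ht.toFinset.card, fun F hF hsep => ?_⟩
  have hex : ∀ f ∈ F, ∃ y ∈ ht.toFinset, dist f y < 1 / 5 := by
    intro f hf
    have h1 : f ∈ Metric.closedBall (0 : Matrix (Fin m) (Fin m) ℂ) 1 := by
      rw [mem_closedBall_zero_iff]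
      exact (CStarRing.norm_of_mem_unitary (hF f hf)).le
    have h2 := hcov h1
    simp only [Set.mem_iUnion, Metric.mem_ball] at h2
    obtain ⟨y, hy, hd⟩ := h2
    exact ⟨y, ht.mem_toFinset.2 hy, hd⟩
  choose! φ hφ hφd using hex
  refine Finset.card_le_card_of_injOn φ (fun f hf => hφ f hf) ?_
  intro f hf g hg hfg
  by_contra hne
  have h3 := hsep f hf g hg hne
  have h4 := hφd f hf
  have h5 := hφd g hg
  rw [← hfg] at h5
  have h6 : dist f g ≤ dist f (φ f) + dist g (φ f) := dist_triangle_right f g (φ f)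
  rw [dist_eq_norm] at h6
  linarith

end Pool.Agent.DRB
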