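import Pool.Agent.DRB.Targets

/-!
# DRB-RATL: rational linear equations
-/

set_option autoImplicit false

open Matrix

namespace Pool.Agent.DRB

theorem p_RATL : T_RATL := by
  classical
  intro J _ s v hv
  let B := Module.Basis.ofVectorSpace ℚ ℂ
  set T := (Finset.univ : Finset J).biUnion fun j => (B.repr (v j)).support with hT
  have hdec : ∀ j, v j = ∑ b ∈ T, ((B.repr (v j) b : ℚ) : ℂ) * B b := by
    intro j
    have h1 := B.linearCombination_repr (v j)
    rw [Finsupp.linearCombination_apply, Finsupp.sum_of_support_subset (s := T) _ ?_ _ ?_] at h1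
    · rw [← h1]
      refine Finset.sum_congr rfl fun b _ => ?_
      rw [Algebra.smul_def, h1]
      rfl
    · rw [hT]
      exact Finset.subset_biUnion_of_mem (fun j => (B.repr (v j)).support) (Finset.mem_univ j)
    · intro b _
      exact zero_smul _ _
  have hq : ∀ b, ∀ u ∈ s, ∑ j, u j * B.repr (v j) b = 0 := by
    intro b u hu
    have h1 := hv u hu
    have h2 : B.repr (∑ j, (u j : ℂ) * v j) b = ∑ j, u j * B.repr (v j) b := by
      rw [map_sum, Finsupp.finsetSum_apply]
      refine Finset.sum_congr rfl fun j _ => ?_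
      have h3 : (u j : ℂ) * v j = u j • v j := by
        rw [Algebra.smul_def]
        rfl
      rw [h3, map_smul, Finsupp.smul_apply, smul_eq_mul]
    rw [← h2, h1, map_zero, Finsupp.zero_apply]
  have hfin : v = ∑ b ∈ T, (B b) • (fun j => ((B.repr (v j) b : ℚ) : ℂ)) := by
    funext j
    rw [Finset.sum_apply]
    conv_lhs => rw [hdec j]
    refine Finset.sum_congr rfl fun b _ => ?_
    rw [Pi.smul_apply, smul_eq_mul, mul_comm]
  rw [hfin]
  refine Submodule.sum_mem _ fun b _ => Submodule.smul_mem _ _ (Submodule.subset_span ?_)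
  exact ⟨fun j => B.repr (v j) b, hq b, rfl⟩

end Pool.Agent.DRB
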