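import Mathlib
import Pool.Agent.DRB.Targets
import Pool.Agent.DRB.GENT

/-!
# Commutative spaces of matrices stable under the symplectic group
-/

set_option autoImplicit false

open Matrix

namespace Pool.Agent.DRB

namespace SCAL_

open GENT_

variable {m : ℕ} {E : Matrix (Fin m) (Fin m) ℂ}

lemma B_zero_right (v : Fin m → ℂ) : B E v 0 = 0 := by simp [B]

lemma B_zero_left (v : Fin m → ℂ) : B E 0 v = 0 := by simp [B]

lemma nxn (v : Fin m → ℂ) (X : Matrix (Fin m) (Fin m) ℂ) :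
    tv E v * X * tv E v = B E v (X *ᵥ v) • tv E v := by
  apply Matrix.mulVec_injective
  funext w
  rw [← mulVec_mulVec, ← mulVec_mulVec, smul_mulVec, tv_mulVec v w, tv_mulVec, mulVec_smul,
    B_smul_right, smul_smul]
  congr 1
  ring

/-- a vector orthogonal to `v` and not to `u` -/
lemma perp {u v : Fin m → ℂ} (hE : Alt E) (hv : v ≠ 0) (h : ∀ w, B E v w = 0 → B E u w = 0) :
    ∃ c : ℂ, u = c • v := by
  obtain ⟨w0, hw0⟩ := B_nondeg hE hv
  refine ⟨B E u w0 / B E v w0, ?_⟩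
  by_contra hcon
  obtain ⟨w, hw⟩ := B_nondeg hE (sub_ne_zero.2 hcon)
  apply hw
  have h1 := h (w - (B E v w / B E v w0) • w0) (by
    rw [B_sub_right, B_smul_right]
    field_simp
    ring)
  rw [B_sub_right, B_smul_right] at h1
  rw [B_sub_left, B_smul_left]
  have h2 : B E u w = B E v w / B E v w0 * B E u w0 := by linear_combination h1
  rw [h2]
  ring

/-- two nonzero vectors have a common non-orthogonal vector -/
lemma common {u v : Fin m → ℂ} (hE : Alt E) (hu : u ≠ 0) (hv : v ≠ 0) :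
    ∃ w, B E u w ≠ 0 ∧ B E v w ≠ 0 := by
  obtain ⟨a, ha⟩ := B_nondeg hE hu
  obtain ⟨b, hb⟩ := B_nondeg hE hv
  by_cases h1 : B E v a = 0
  · by_cases h2 : B E u b = 0
    · refine ⟨a + b, ?_, ?_⟩
      · rw [B_add_right, h2, add_zero]; exact ha
      · rw [B_add_right, h1, zero_add]; exact hb
    · exact ⟨b, h2, hb⟩
  · exact ⟨a, ha, h1⟩

/-- a matrix all of whose vectors are eigenvectors is scalar -/
lemma scalar_of {X : Matrix (Fin m) (Fin m) ℂ} (h : ∀ v, v ≠ 0 → ∃ c : ℂ, X *ᵥ v = c • v) :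
    ∃ c : ℂ, X = c • 1 := by
  obtain ⟨a, ha⟩ := LinearMap.exists_eq_smul_id_of_forall_notLinearIndependent
    (f := X.mulVecLin) (fun v => by
      by_cases hv : v = 0
      · simp [hv, linearIndependent_fin2]
      · rw [LinearIndependent.pair_iff' hv]
        push Not
        obtain ⟨c, hc⟩ := h v hv
        exact ⟨c, by rw [mulVecLin_apply, hc]⟩)
  refine ⟨a, ?_⟩
  apply Matrix.mulVec_injective
  funext w
  have h1 := LinearMap.congr_fun ha w
  rw [mulVecLin_apply] at h1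
  rw [h1, smul_mulVec, one_mulVec]
  rfl

lemma trans_nonsing (hE : Alt E) (v : Fin m → ℂ) (s : ℂ) :
    (1 + s • tv E v)⁻¹ = 1 + (-s) • tv E v := inv_eq_right_inv (trans_inv hE v s)

lemma conj_trans (hE : Alt E) (v : Fin m → ℂ) (s : ℂ) (X : Matrix (Fin m) (Fin m) ℂ) :
    (1 + s • tv E v) * X * (1 + s • tv E v)⁻¹
      = X + s • (tv E v * X - X * tv E v) - (s ^ 2) • (tv E v * X * tv E v) := by
  rw [trans_nonsing hE, neg_smul]
  simp only [Matrix.add_mul, Matrix.mul_add, Matrix.one_mul, Matrix.mul_one, Matrix.smul_mul,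
    Matrix.mul_neg, Matrix.mul_smul]
  module

end SCAL_

open GENT_ SCAL_ in
theorem p_SCAL (h1 : T_TVSP) : T_SCAL := by
  intro m E hE U hU hcomm
  have hsp : ∀ (v : Fin m → ℂ) (s : ℂ), 1 + s • tv E v ∈ Sp E := fun v s => (h1 m E hE v s).1
  have hc1 : ∀ X ∈ U, ∀ v, X + (tv E v * X - X * tv E v) - (tv E v * X * tv E v) ∈ U := by
    intro X hX v
    have h2 := hU X hX _ (hsp v 1)
    rw [conj_trans hE] at h2
    simpa using h2
  have hc2 : ∀ X ∈ U, ∀ v, X - (tv E v * X - X * tv E v) - (tv E v * X * tv E v) ∈ U := by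
    intro X hX v
    have h2 := hU X hX _ (hsp v (-1))
    rw [conj_trans hE] at h2
    have h3 : (-1 : ℂ) ^ 2 = 1 := by norm_num
    rw [h3, one_smul, neg_one_smul, ← sub_eq_add_neg] at h2
    exact h2
  have hbr : ∀ X ∈ U, ∀ v, tv E v * X - X * tv E v ∈ U := by
    intro X hX v
    have h2 := U.smul_mem (1 / 2 : ℂ) (U.sub_mem (hc1 X hX v) (hc2 X hX v))
    have h3 : (1 / 2 : ℂ) • (X + (tv E v * X - X * tv E v) - (tv E v * X * tv E v)
        - (X - (tv E v * X - X * tv E v) - (tv E v * X * tv E v)))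
        = tv E v * X - X * tv E v := by
      module
    rwa [h3] at h2
  have hnn : ∀ X ∈ U, ∀ v, B E v (X *ᵥ v) ≠ 0 → tv E v ∈ U := by
    intro X hX v hne
    have h2 := U.smul_mem (-(1 / 2) : ℂ) (U.sub_mem (U.add_mem (hc1 X hX v) (hc2 X hX v))
      (U.smul_mem 2 hX))
    have h3 : (-(1 / 2) : ℂ) • (X + (tv E v * X - X * tv E v) - (tv E v * X * tv E v)
        + (X - (tv E v * X - X * tv E v) - (tv E v * X * tv E v)) - (2 : ℂ) • X)
        = tv E v * X * tv E v := by
      module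
    rw [h3, nxn] at h2
    have h4 := U.smul_mem (B E v (X *ᵥ v))⁻¹ h2
    rwa [smul_smul, inv_mul_cancel₀ hne, one_smul] at h4
  -- all forms vanish
  have hz : ∀ X ∈ U, ∀ v, B E v (X *ᵥ v) = 0 := by
    intro X hX v
    by_contra hne
    have h2 := hnn X hX v hne
    have hv : v ≠ 0 := by
      rintro rfl
      apply hne
      simp [B]
    obtain ⟨w, hw⟩ := B_nondeg hE hv
    have hw' : B E w v ≠ 0 := by rw [B_neg hE]; exact neg_ne_zero.2 hw
    have h3 : tv E w ∈ U := by
      apply hnn _ h2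
      rw [tv_mulVec, B_smul_right]
      exact mul_ne_zero hw hw'
    have h4 := congrArg (fun M => M *ᵥ v) (hcomm _ h2 _ h3)
    simp only [← mulVec_mulVec, tv_mulVec, mulVec_smul, B_self hE, zero_smul,
      B_zero_right] at h4
    rw [smul_eq_zero, smul_eq_zero] at h4
    rcases h4 with h4 | h4 | h4
    · exact hw' h4
    · exact hw h4
    · exact hv h4
  intro X hX
  have hpol : ∀ v w, B E v (X *ᵥ w) = B E (X *ᵥ v) w := by
    intro v w
    have e1 := hz X hX (v + w)
    rw [mulVec_add, B_add_left, B_add_right, B_add_right, hz X hX v, hz X hX w] at e1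
    have e2 := B_neg hE w (X *ᵥ v)
    linear_combination e1 - e2
  apply scalar_of
  intro v hv
  apply perp hE hv
  intro w hw
  by_contra hne
  -- the commutator
  have h2 := congrArg (fun M => M *ᵥ w) (hcomm _ (hbr X hX v) _ hX)
  have h3 : ((tv E v * X - X * tv E v) * X) *ᵥ w
      = B E v (X *ᵥ (X *ᵥ w)) • v - B E v (X *ᵥ w) • (X *ᵥ v) := by
    simp only [← mulVec_mulVec, sub_mulVec, tv_mulVec, mulVec_smul]
  have h4 : (X * (tv E v * X - X * tv E v)) *ᵥ w = B E v (X *ᵥ w) • (X *ᵥ v) := by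
    simp only [← mulVec_mulVec, sub_mulVec, tv_mulVec, mulVec_smul, hw, zero_smul,
      mulVec_zero, sub_zero]
  simp only [h3, h4] at h2
  have h5 : B E v (X *ᵥ (X *ᵥ w)) • v = (2 * B E v (X *ᵥ w)) • (X *ᵥ v) := by
    rw [sub_eq_iff_eq_add] at h2
    rw [h2, mul_smul, two_smul]
  have h6 := congrArg (fun x => B E x w) h5
  simp only [B_smul_left, hw, mul_zero, hpol] at h6
  have h7 : (2 : ℂ) * B E (X *ᵥ v) w * B E (X *ᵥ v) w ≠ 0 :=
    mul_ne_zero (mul_ne_zero two_ne_zero hne) hne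
  exact h7 h6.symm

end Pool.Agent.DRB
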