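import Pool.Agent.DRB.Targets

/-!
# Field automorphisms and rational subspaces
-/

set_option autoImplicit false

open Matrix

namespace Pool.Agent.DRB

namespace SIGL_

theorem map_mem {J : Type} (W : Submodule ℚ (J → ℚ)) (σ : ℂ ≃+* ℂ) {u : J → ℂ}
    (hu : u ∈ cx W) : (fun j => σ (u j)) ∈ cx W := by
  unfold cx at hu ⊢
  induction hu using Submodule.span_induction with
  | mem x hx =>
    obtain ⟨w, hw, rfl⟩ := hx
    apply Submodule.subset_span
    refine ⟨w, hw, ?_⟩
    funext j
    exact (map_ratCast σ (w j)).symm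
  | zero =>
    have : (fun j => σ ((0 : J → ℂ) j)) = 0 := by
      funext j
      exact map_zero σ
    rw [this]
    exact Submodule.zero_mem _
  | add x y _ _ hx hy =>
    have : (fun j => σ ((x + y) j)) = (fun j => σ (x j)) + fun j => σ (y j) := by
      funext j
      exact map_add σ _ _
    rw [this]
    exact Submodule.add_mem _ hx hy
  | smul c x _ hx =>
    have : (fun j => σ ((c • x) j)) = σ c • fun j => σ (x j) := by
      funext j
      exact map_mul σ _ _
    rw [this]
    exact Submodule.smul_mem _ _ hx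

theorem map_mulVec {J : Type} [Fintype J] (M : Matrix J J ℂ) (σ : ℂ ≃+* ℂ) (u : J → ℂ) :
    (M.map σ) *ᵥ (fun j => σ (u j)) = fun j => σ ((M *ᵥ u) j) := by
  funext j
  simp only [Matrix.mulVec, dotProduct, Matrix.map_apply, map_sum, map_mul]

end SIGL_

open SIGL_ in
theorem p_SIGL : T_SIGL := by
  intro J _ W W' M σ h
  have key : ∀ v : J → ℂ, (v ∈ im M (cx W) ↔ v ∈ cx W') := fun v => by rw [h]
  ext v
  constructor
  · rintro ⟨u, hu, rfl⟩
    have h1 : (fun j => σ.symm (u j)) ∈ cx W := map_mem W σ.symm hu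
    have h2 : M *ᵥ (fun j => σ.symm (u j)) ∈ cx W' := (key _).1 ⟨_, h1, rfl⟩
    have h3 := map_mem W' σ h2
    rw [← map_mulVec] at h3
    simpa using h3
  · intro hv
    have h1 : (fun j => σ.symm (v j)) ∈ cx W' := map_mem W' σ.symm hv
    obtain ⟨u, hu, he⟩ := (key _).2 h1
    refine ⟨fun j => σ (u j), map_mem W σ hu, ?_⟩
    show (M.map σ) *ᵥ (fun j => σ (u j)) = v
    rw [map_mulVec]
    funext j
    have h2 : (M *ᵥ u) j = σ.symm (v j) := congrFun he j
    rw [h2]
    exact σ.apply_symm_apply _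

end Pool.Agent.DRB
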