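import Pool.Agent.DRB.Targets

set_option autoImplicit false

open Matrix

namespace Pool.Agent.DRB

namespace TCNJ_

/-- the product matrix of a family of matrices -/
def PM {I : Type} {a : ℕ} (A : Fin a → Matrix I I ℂ) : Matrix (Fin a → I) (Fin a → I) ℂ :=
  Matrix.of fun F G : Fin a → I => ∏ t, A t (F t) (G t)

/-- Product matrices multiply factorwise. -/
theorem PM_mul {I : Type} [Fintype I] {a : ℕ} (A B : Fin a → Matrix I I ℂ) :
    PM A * PM B = PM fun t => A t * B t := by
  classical
  ext F G
  simp only [PM, Matrix.mul_apply, Matrix.of_apply]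
  rw [Fintype.prod_sum (fun t j => A t (F t) j * B t j (G t))]
  exact Finset.sum_congr rfl fun H _ => Finset.prod_mul_distrib.symm

/-- `tpow` is a product matrix. -/
theorem tpow_eq {I : Type} (a : ℕ) (M : Matrix I I ℂ) : tpow a M = PM fun _ : Fin a => M := rfl

/-- The product matrix with one factor changed. -/
theorem PM_update_apply {I : Type} {a : ℕ} (A : Fin a → Matrix I I ℂ) (t : Fin a)
    (X : Matrix I I ℂ) (F G : Fin a → I) :
    PM (Function.update A t X) F G =
      X (F t) (G t) * ∏ s ∈ Finset.univ.erase t, A s (F s) (G s) := by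
  simp only [PM, Matrix.of_apply]
  rw [← Finset.mul_prod_erase Finset.univ _ (Finset.mem_univ t), Function.update_self]
  congr 1
  refine Finset.prod_congr rfl fun s hs => ?_
  rw [Function.update_of_ne (Finset.ne_of_mem_erase hs)]

/-- `dtpow` is a sum of product matrices. -/
theorem dtpow_eq {I : Type} [DecidableEq I] (a : ℕ) (X : Matrix I I ℂ) :
    dtpow a X = ∑ t : Fin a, PM (Function.update (fun _ : Fin a => (1 : Matrix I I ℂ)) t X) := by
  ext F G
  rw [Matrix.sum_apply]
  simp only [dtpow, Matrix.of_apply]
  exact Finset.sum_congr rfl fun t _ =>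
    (PM_update_apply (fun _ : Fin a => (1 : Matrix I I ℂ)) t X F G).symm

/-- Multiplying a product matrix with one special factor by a tensor power, on the left. -/
theorem tpow_mul_PM {I : Type} [Fintype I] [DecidableEq I] {a : ℕ} (M X : Matrix I I ℂ)
    (t : Fin a) :
    tpow a M * PM (Function.update (fun _ : Fin a => (1 : Matrix I I ℂ)) t X) =
      PM (Function.update (fun _ : Fin a => M) t (M * X)) := by
  rw [tpow_eq, PM_mul]
  congr 1
  funext s
  by_cases h : s = t
  · subst h
    rw [Function.update_self, Function.update_self]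
  · rw [Function.update_of_ne h, Function.update_of_ne h, mul_one]

/-- Multiplying a product matrix with one special factor by a tensor power, on the right. -/
theorem PM_mul_tpow {I : Type} [Fintype I] [DecidableEq I] {a : ℕ} (M X : Matrix I I ℂ)
    (t : Fin a) :
    PM (Function.update (fun _ : Fin a => (1 : Matrix I I ℂ)) t X) * tpow a M =
      PM (Function.update (fun _ : Fin a => M) t (X * M)) := by
  rw [tpow_eq, PM_mul]
  congr 1
  funext s
  by_cases h : s = t
  · subst h
    rw [Function.update_self, Function.update_self]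
  · rw [Function.update_of_ne h, Function.update_of_ne h, one_mul]

/-- The left multiplication of a derivation by a tensor power. -/
theorem tpow_mul_dtpow {I : Type} [Fintype I] [DecidableEq I] (a : ℕ) (M X : Matrix I I ℂ) :
    tpow a M * dtpow a X = ∑ t : Fin a, PM (Function.update (fun _ : Fin a => M) t (M * X)) := by
  rw [dtpow_eq, Finset.mul_sum]
  exact Finset.sum_congr rfl fun t _ => tpow_mul_PM M X t

/-- The right multiplication of a derivation by a tensor power. -/
theorem dtpow_mul_tpow {I : Type} [Fintype I] [DecidableEq I] (a : ℕ) (M X : Matrix I I ℂ) :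
    dtpow a X * tpow a M = ∑ t : Fin a, PM (Function.update (fun _ : Fin a => M) t (X * M)) := by
  rw [dtpow_eq, Finset.sum_mul]
  exact Finset.sum_congr rfl fun t _ => PM_mul_tpow M X t

/-- Conjugation of a derivation by a tensor power. -/
theorem tpow_conj {I : Type} [Fintype I] [DecidableEq I] (a : ℕ) (M M' X : Matrix I I ℂ)
    (h : M' * M = 1) : tpow a M * dtpow a X = dtpow a (M * X * M') * tpow a M := by
  rw [tpow_mul_dtpow, dtpow_mul_tpow, Matrix.mul_assoc (M * X) M' M, h, Matrix.mul_one]

end TCNJ_

theorem p_TCNJ : T_TCNJ := by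
  intro I _ _ r a c x M M' X h
  unfold tens dtens
  rw [← Matrix.blockDiagonal'_mul, ← Matrix.blockDiagonal'_mul]
  congr 1
  funext i
  rw [Matrix.mul_add, Matrix.add_mul, Matrix.smul_mul, Matrix.mul_smul, Matrix.smul_mul,
    Matrix.mul_smul, Matrix.smul_mul, Matrix.mul_smul, TCNJ_.tpow_conj (a i) M M' X h,
    Matrix.mul_one, Matrix.one_mul, smul_comm]

end Pool.Agent.DRB
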