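import Pool.Agent.DRB.TCNJ

set_option autoImplicit false

open Matrix

namespace Pool.Agent.DRB

namespace TDER_

/-- The Leibniz rule for finite products. -/
theorem leibniz_prod {ι : Type} [DecidableEq ι] (δ : Derivation ℚ ℂ ℂ) (s : Finset ι)
    (f : ι → ℂ) :
    δ (∏ t ∈ s, f t) = ∑ t ∈ s, δ (f t) * ∏ u ∈ s.erase t, f u := by
  induction s using Finset.induction_on with
  | empty => simp
  | insert b s hb ih =>
    rw [Finset.prod_insert hb, Derivation.leibniz, ih, Finset.sum_insert hb,
      Finset.erase_insert hb, smul_eq_mul, smul_eq_mul, Finset.mul_sum, add_comm]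
    congr 1
    · exact mul_comm _ _
    · refine Finset.sum_congr rfl fun t ht => ?_
      have hbt : b ≠ t := fun h => hb (h ▸ ht)
      rw [Finset.erase_insert_of_ne hbt, Finset.prod_insert
        (fun h => hb (Finset.mem_of_mem_erase h))]
      ring

/-- The derivative of a tensor power. -/
theorem tpow_map {I : Type} {a : ℕ} (M : Matrix I I ℂ) (δ : Derivation ℚ ℂ ℂ) :
    (tpow a M).map δ =
      ∑ t : Fin a, TCNJ_.PM (Function.update (fun _ : Fin a => M) t (M.map δ)) := by
  ext F G
  rw [Matrix.sum_apply]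
  simp only [tpow, Matrix.of_apply, Matrix.map_apply]
  rw [leibniz_prod]
  refine Finset.sum_congr rfl fun t _ => ?_
  rw [TCNJ_.PM_update_apply (fun _ : Fin a => M) t (M.map δ) F G, Matrix.map_apply]

/-- The derivative of a block. -/
theorem block_map {I : Type} [Fintype I] [DecidableEq I] {a : ℕ} (c : ℂ) (hc : c ≠ 0)
    (M M' : Matrix I I ℂ) (δ : Derivation ℚ ℂ ℂ) (h : M' * M = 1) :
    (c • tpow a M).map δ =
      ((δ c / c) • (1 : Matrix (Fin a → I) (Fin a → I) ℂ) + dtpow a (M.map δ * M')) *
        (c • tpow a M) := by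
  have h1 : (c • tpow a M).map δ = δ c • tpow a M + c • (tpow a M).map δ := by
    ext F G
    simp only [Matrix.map_apply, Matrix.smul_apply, Matrix.add_apply, smul_eq_mul,
      Derivation.leibniz]
    ring
  rw [h1, Matrix.add_mul, Matrix.smul_mul, Matrix.one_mul, smul_smul, div_mul_cancel₀ _ hc,
    Matrix.mul_smul, TCNJ_.dtpow_mul_tpow, Matrix.mul_assoc, h, Matrix.mul_one, tpow_map]

end TDER_

theorem p_TDER : T_TDER := by
  intro I _ _ r a c M M' δ h hc
  unfold tens dtens
  rw [← Matrix.blockDiagonal'_mul]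
  rw [Matrix.blockDiagonal'_map _ _ (map_zero δ)]
  congr 1
  funext i
  exact TDER_.block_map (c i) (hc i) M M' δ h

end Pool.Agent.DRB
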