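import Mathlib
import Pool.Agent.DRB.Targets
import Pool.Agent.DRB.TCNJ

set_option autoImplicit false

open Matrix

namespace Pool.Agent.DRB

namespace TEXP_

theorem one_add_mul {I : Type} [Fintype I] [DecidableEq I] (N : Matrix I I ℂ) (hN : N * N = 0)
    (s : ℂ) : (1 + s • N) * N = N := by
  rw [Matrix.add_mul, Matrix.one_mul, Matrix.smul_mul, hN, smul_zero, add_zero]

theorem tpow_deriv {I : Type} [Fintype I] [DecidableEq I] (a : ℕ) (N : Matrix I I ℂ)
    (hN : N * N = 0) (F G : Fin a → I) (s : ℂ) :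
    HasDerivAt (fun s : ℂ => tpow a (1 + s • N) F G) ((tpow a (1 + s • N) * dtpow a N : Matrix (Fin a → I) (Fin a → I) ℂ) F G) s := by
  rw [TCNJ_.tpow_mul_dtpow, one_add_mul N hN s, Matrix.sum_apply]
  have h1 : ∀ t : Fin a, HasDerivAt (fun s : ℂ => (1 + s • N) (F t) (G t)) (N (F t) (G t)) s := by
    intro t
    have h2 : (fun s : ℂ => (1 + s • N) (F t) (G t)) =
        fun s : ℂ => (1 : Matrix I I ℂ) (F t) (G t) + s * N (F t) (G t) := by
      funext s
      rw [Matrix.add_apply, Matrix.smul_apply, smul_eq_mul]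
    rw [h2]
    have h3 := ((hasDerivAt_id s).mul_const (N (F t) (G t))).const_add
      ((1 : Matrix I I ℂ) (F t) (G t))
    simpa using h3
  have h4 := HasDerivAt.fun_finsetProd (u := Finset.univ)
    (f := fun (t : Fin a) (s : ℂ) => (1 + s • N : Matrix I I ℂ) (F t) (G t))
    (f' := fun t => N (F t) (G t)) (x := s) (fun t _ => h1 t)
  have h5 : (fun s : ℂ => tpow a (1 + s • N) F G) =
      fun s : ℂ => ∏ t ∈ Finset.univ, (1 + s • N) (F t) (G t) := by
    funext s
    simp only [tpow, Matrix.of_apply]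
  rw [h5]
  have h6 : (∑ t : Fin a, TCNJ_.PM (Function.update (fun _ : Fin a => 1 + s • N) t N) F G) =
      ∑ t : Fin a, (∏ j ∈ Finset.univ.erase t, (1 + s • N : Matrix I I ℂ) (F j) (G j)) •
        N (F t) (G t) := by
    refine Finset.sum_congr rfl fun t _ => ?_
    rw [TCNJ_.PM_update_apply, smul_eq_mul, mul_comm]
  rw [h6]
  exact h4

theorem tens_deriv {I : Type} [Fintype I] [DecidableEq I] (r : ℕ) (a : Fin r → ℕ)
    (N : Matrix I I ℂ) (hN : N * N = 0) (j k : TI I a) (s : ℂ) :
    HasDerivAt (fun s : ℂ => tens a 1 (1 + s • N) j k)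
      ((tens a 1 (1 + s • N) * dtens a 0 N : Matrix (TI I a) (TI I a) ℂ) j k) s := by
  unfold tens dtens
  rw [← Matrix.blockDiagonal'_mul]
  obtain ⟨i, F⟩ := j
  obtain ⟨i', G⟩ := k
  by_cases h : i = i'
  · subst h
    simp only [Matrix.blockDiagonal'_apply_eq, Pi.one_apply, one_smul, Pi.zero_apply, zero_smul,
      zero_add]
    exact tpow_deriv (a i) N hN F G s
  · simp only [Matrix.blockDiagonal'_apply_ne _ _ _ h]
    exact hasDerivAt_const s 0

theorem tens_one {I : Type} [Fintype I] [DecidableEq I] (r : ℕ) (a : Fin r → ℕ) :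
    tens a 1 (1 : Matrix I I ℂ) = 1 := by
  unfold tens
  have : (fun i => (1 : Fin r → ℂ) i • tpow (a i) (1 : Matrix I I ℂ)) = 1 := by
    funext i
    rw [Pi.one_apply, one_smul, Pi.one_apply]
    ext F G
    simp only [tpow, Matrix.of_apply]
    by_cases h : F = G
    · subst h
      simp
    · rw [Matrix.one_apply_ne h]
      obtain ⟨t, ht⟩ := Function.ne_iff.mp h
      exact Finset.prod_eq_zero (Finset.mem_univ t) (Matrix.one_apply_ne ht)
  rw [this, Matrix.blockDiagonal'_one]

end TEXP_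

theorem p_TEXP : T_TEXP := by
  intro I _ _ r a N U hN hU s v hv
  by_contra hcon
  obtain ⟨f, hf, hfU⟩ := Submodule.exists_dual_map_eq_bot_of_notMem hcon inferInstance
  have hf0 : ∀ u ∈ U, f u = 0 := by
    intro u hu
    have : f u ∈ U.map f := ⟨u, hu, rfl⟩
    rw [hfU] at this
    simpa using this
  set p : (TI I a → ℂ) → ℂ → ℂ := fun v s => f ((tens a 1 (1 + s • N)) *ᵥ v) with hp
  have hder : ∀ v s, HasDerivAt (p v) (p (dtens a 0 N *ᵥ v) s) s := by
    intro v s
    have h1 : ∀ (v : TI I a → ℂ) (M : Matrix (TI I a) (TI I a) ℂ), f (M *ᵥ v) =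
        ∑ j, (∑ k, M j k * v k) * f (Pi.single j 1) := by
      intro v M
      rw [LinearMap.pi_apply_eq_sum_univ f]
      refine Finset.sum_congr rfl fun j _ => ?_
      rw [smul_eq_mul]
      congr 2
      funext i
      rw [Pi.single_apply]
      simp only [eq_comm]
    have h2 : p v = fun s => ∑ j, (∑ k, tens a 1 (1 + s • N) j k * v k) *
        f (Pi.single j 1) := by
      funext s
      rw [hp]
      exact h1 v _
    have h3 : p (dtens a 0 N *ᵥ v) s =
        ∑ j, (∑ k, (tens a 1 (1 + s • N) * dtens a 0 N : Matrix (TI I a) (TI I a) ℂ) j k * v k) *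
          f (Pi.single j 1) := by
      rw [hp]
      show f ((tens a 1 (1 + s • N)) *ᵥ (dtens a 0 N *ᵥ v)) = _
      rw [Matrix.mulVec_mulVec]
      exact h1 v _
    rw [h2, h3]
    refine HasDerivAt.fun_sum fun j _ => ?_
    refine HasDerivAt.mul_const ?_ _
    refine HasDerivAt.fun_sum fun k _ => ?_
    exact (TEXP_.tens_deriv r a N hN j k s).mul_const _
  have hzero : ∀ u ∈ U, p u 0 = 0 := by
    intro u hu
    rw [hp]
    show f ((tens a 1 (1 + (0 : ℂ) • N)) *ᵥ u) = 0
    rw [zero_smul, add_zero, TEXP_.tens_one, Matrix.one_mulVec]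
    exact hf0 u hu
  have hiter : ∀ n : ℕ, ∀ u ∈ U, iteratedDeriv n (p u) 0 = 0 := by
    intro n
    induction n with
    | zero => intro u hu; rw [iteratedDeriv_zero]; exact hzero u hu
    | succ n ih =>
      intro u hu
      rw [iteratedDeriv_succ']
      have h4 : deriv (p u) = p (dtens a 0 N *ᵥ u) := funext fun s => (hder u s).deriv
      rw [h4]
      exact ih _ (hU u hu)
  have hdiff : Differentiable ℂ (p v) := fun s => (hder v s).differentiableAt
  have h5 := Complex.taylorSeries_eq_of_entire' 0 s hdiff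
  simp only [hiter _ v hv, mul_zero, zero_mul, tsum_zero] at h5
  exact hf h5.symm

end Pool.Agent.DRB
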