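import Mathlib
import Pool.Agent.DRB.Targets
import Pool.Agent.DRB.SCAL

/-!
# Subspaces stable under the symplectic group contain the transvections
-/

set_option autoImplicit false

open Matrix

namespace Pool.Agent.DRB

namespace TRVS_

open GENT_ SCAL_

variable {m : ℕ} {E : Matrix (Fin m) (Fin m) ℂ}

/-- an element of `gsp` with vanishing quadratic form is scalar -/
lemma scalar_gsp (hE : Alt E) {X : Matrix (Fin m) (Fin m) ℂ} (hX : X ∈ gsp E)
    (hz : ∀ v, B E v (X *ᵥ v) = 0) : ∃ c : ℂ, X = c • 1 := by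
  obtain ⟨c, hc⟩ := hX
  have h1 : IsUnit E.det := (isUnit_iff_isUnit_det E).1 hE.2
  have hpol : ∀ v w, B E v (X *ᵥ w) = B E (X *ᵥ v) w := by
    intro v w
    have e1 := hz (v + w)
    rw [mulVec_add, B_add_left, B_add_right, B_add_right, hz v, hz w] at e1
    have e2 := B_neg hE w (X *ᵥ v)
    linear_combination e1 - e2
  have h2 : E⁻¹ * X + Xᵀ * E⁻¹ = c • E⁻¹ := by
    have h3 := congrArg (fun M => E⁻¹ * M * E⁻¹) hc
    simp only [Matrix.mul_add, Matrix.add_mul, Matrix.mul_smul, Matrix.smul_mul] at h3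
    have e1 : E⁻¹ * (X * E) * E⁻¹ = E⁻¹ * X := by
      calc E⁻¹ * (X * E) * E⁻¹ = E⁻¹ * X * (E * E⁻¹) := by simp only [Matrix.mul_assoc]
        _ = _ := by rw [mul_nonsing_inv E h1, Matrix.mul_one]
    have e2 : E⁻¹ * (E * Xᵀ) * E⁻¹ = Xᵀ * E⁻¹ := by
      calc E⁻¹ * (E * Xᵀ) * E⁻¹ = (E⁻¹ * E) * Xᵀ * E⁻¹ := by simp only [Matrix.mul_assoc]
        _ = _ := by rw [nonsing_inv_mul E h1, Matrix.one_mul]
    have e3 : E⁻¹ * E * E⁻¹ = E⁻¹ := by rw [nonsing_inv_mul E h1, Matrix.one_mul]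
    rw [e1, e2, e3] at h3
    exact h3
  have h4 : ∀ v w, B E v (X *ᵥ w) + B E (X *ᵥ v) w = c * B E v w := by
    intro v w
    have e1 : B E v (X *ᵥ w) = v ⬝ᵥ ((E⁻¹ * X) *ᵥ w) := by
      unfold B
      rw [mulVec_mulVec]
    have e2 : B E (X *ᵥ v) w = v ⬝ᵥ ((Xᵀ * E⁻¹) *ᵥ w) := by
      unfold B
      rw [← mulVec_mulVec, dotProduct_mulVec v Xᵀ, vecMul_transpose]
    rw [e1, e2, ← dotProduct_add, ← add_mulVec, h2, smul_mulVec, dotProduct_smul]
    rfl
  apply scalar_of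
  intro v hv
  refine ⟨c / 2, ?_⟩
  by_contra hcon
  obtain ⟨w, hw⟩ := B_nondeg hE (sub_ne_zero.2 hcon)
  apply hw
  rw [B_sub_left, B_smul_left]
  have h5 := h4 v w
  rw [hpol v w] at h5
  linear_combination h5 / 2

lemma tv_zero : tv E 0 = 0 := by
  apply Matrix.mulVec_injective
  funext w
  rw [tv_mulVec, smul_zero, zero_mulVec]

end TRVS_

open GENT_ SCAL_ TRVS_ in
theorem p_TRVS (h1 : T_TVSP) : T_TRVS := by
  intro r k n d E l0 hE U hU p hp hgsp hns v
  have hsp : ∀ (v : Fin (d l0) → ℂ) (s : ℂ), 1 + s • tv (E l0) v ∈ Sp (E l0) :=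
    fun v s => (h1 _ (E l0) hE v s).1
  have key : ∀ q ∈ U, ∀ u : Fin (d l0) → ℂ, ((0 : Fin r → ℂ), (0 : Matrix (Fin k) (Fin k) ℂ),
      (Pi.single l0 (B (E l0) u (q.2.2 l0 *ᵥ u) • tv (E l0) u) : Fam d)) ∈ U := by
    intro q hq u
    have h2 := hU q hq _ (hsp u 1)
    have h3 := hU q hq _ (hsp u (-1))
    rw [conj_trans hE, nxn] at h2 h3
    have h4 := U.smul_mem (-(1 / 2) : ℂ) (U.sub_mem (U.add_mem h2 h3) (U.smul_mem 2 hq))
    have h5 : (-(1 / 2) : ℂ) • ((q.1, q.2.1, Function.update q.2.2 l0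
          (q.2.2 l0 + (1 : ℂ) • (tv (E l0) u * q.2.2 l0 - q.2.2 l0 * tv (E l0) u)
            - ((1 : ℂ) ^ 2) • (B (E l0) u (q.2.2 l0 *ᵥ u) • tv (E l0) u))) +
        (q.1, q.2.1, Function.update q.2.2 l0
          (q.2.2 l0 + (-1 : ℂ) • (tv (E l0) u * q.2.2 l0 - q.2.2 l0 * tv (E l0) u)
            - ((-1 : ℂ) ^ 2) • (B (E l0) u (q.2.2 l0 *ᵥ u) • tv (E l0) u)))
        - (2 : ℂ) • q)
        = ((0 : Fin r → ℂ), (0 : Matrix (Fin k) (Fin k) ℂ),
      (Pi.single l0 (B (E l0) u (q.2.2 l0 *ᵥ u) • tv (E l0) u) : Fam d)) := by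
      refine Prod.ext ?_ (Prod.ext ?_ ?_)
      · simp only [Prod.smul_fst, Prod.fst_sub, Prod.fst_add]
        module
      · simp only [Prod.smul_fst, Prod.fst_sub, Prod.fst_add, Prod.smul_snd, Prod.snd_sub,
          Prod.snd_add]
        module
      · simp only [Prod.smul_snd, Prod.snd_sub, Prod.snd_add]
        funext l
        by_cases hl : l = l0
        · subst hl
          simp only [Pi.smul_apply, Pi.sub_apply, Pi.add_apply, Function.update_self,
            Pi.single_eq_same]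
          module
        · simp only [Pi.smul_apply, Pi.sub_apply, Pi.add_apply, Function.update_of_ne hl,
            Pi.single_eq_of_ne hl]
          module
    rw [h5] at h4
    exact h4
  have scale : ∀ (u : Fin (d l0) → ℂ) (c : ℂ), c ≠ 0 →
      ((0 : Fin r → ℂ), (0 : Matrix (Fin k) (Fin k) ℂ),
        (Pi.single l0 (c • tv (E l0) u) : Fam d)) ∈ U →
      ((0 : Fin r → ℂ), (0 : Matrix (Fin k) (Fin k) ℂ),
        (Pi.single l0 (tv (E l0) u) : Fam d)) ∈ U := by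
    intro u c hc h
    have h2 := U.smul_mem c⁻¹ h
    have h3 : c⁻¹ • ((0 : Fin r → ℂ), (0 : Matrix (Fin k) (Fin k) ℂ),
        (Pi.single l0 (c • tv (E l0) u) : Fam d)) = ((0 : Fin r → ℂ),
        (0 : Matrix (Fin k) (Fin k) ℂ), (Pi.single l0 (tv (E l0) u) : Fam d)) := by
      refine Prod.ext ?_ (Prod.ext ?_ ?_)
      · simp
      · simp
      · simp only [Prod.smul_snd]
        rw [← Pi.single_smul, smul_smul, inv_mul_cancel₀ hc, one_smul]
    rwa [h3] at h2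
  -- one transvection
  have hex : ∃ u, B (E l0) u (p.2.2 l0 *ᵥ u) ≠ 0 := by
    by_contra hcon
    push Not at hcon
    exact hns (scalar_gsp hE hgsp hcon)
  obtain ⟨u, hu⟩ := hex
  have hu0 : u ≠ 0 := by
    rintro rfl
    exact hu (B_zero_left _)
  have hmem := scale u _ hu (key p hp u)
  -- propagation
  have prop : ∀ a b, B (E l0) a b ≠ 0 → ((0 : Fin r → ℂ), (0 : Matrix (Fin k) (Fin k) ℂ),
        (Pi.single l0 (tv (E l0) a) : Fam d)) ∈ U → ((0 : Fin r → ℂ),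
        (0 : Matrix (Fin k) (Fin k) ℂ), (Pi.single l0 (tv (E l0) b) : Fam d)) ∈ U := by
    intro a b hab ha
    have h2 := key _ ha b
    simp only [Pi.single_eq_same] at h2
    apply scale b _ _ h2
    rw [tv_mulVec, B_smul_right]
    refine mul_ne_zero hab ?_
    rw [B_neg hE]
    exact neg_ne_zero.2 hab
  by_cases hv : v = 0
  · rw [hv, tv_zero, Pi.single_zero]
    exact U.zero_mem
  obtain ⟨w, hw1, hw2⟩ := common hE hu0 hv
  exact prop w v (by rw [B_neg hE]; exact neg_ne_zero.2 hw2) (prop u w hw1 hmem)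

end Pool.Agent.DRB
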