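import Pool.Agent.DRB.Targets

/-!
# DRB-TVSP: transvections are symplectic
-/

set_option autoImplicit false

namespace Pool.Agent.DRB

open Matrix

namespace TVSP_

variable {m : ℕ}

theorem inv_tr {E : Matrix (Fin m) (Fin m) ℂ} (hE : Alt E) : (E⁻¹)ᵀ = -E⁻¹ := by
  have hu : IsUnit E.det := (Matrix.isUnit_iff_isUnit_det E).1 hE.2
  have h1 : E * E⁻¹ = 1 := Matrix.mul_nonsing_inv E hu
  have h2 : E⁻¹ * E = 1 := Matrix.nonsing_inv_mul E hu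
  have h3 : (E⁻¹)ᵀ * (-E) = 1 := by
    rw [← hE.1, ← Matrix.transpose_mul, h1, Matrix.transpose_one]
  have h4 : (E⁻¹)ᵀ * E = -1 := by
    rw [Matrix.mul_neg] at h3
    rw [← neg_eq_iff_eq_neg, h3]
  calc (E⁻¹)ᵀ = (E⁻¹)ᵀ * (E * E⁻¹) := by rw [h1, Matrix.mul_one]
    _ = ((E⁻¹)ᵀ * E) * E⁻¹ := by rw [Matrix.mul_assoc]
    _ = -E⁻¹ := by rw [h4, Matrix.neg_mul, Matrix.one_mul]

theorem form_zero {B : Matrix (Fin m) (Fin m) ℂ} (hB : Bᵀ = -B) (v : Fin m → ℂ) :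
    v ⬝ᵥ (B *ᵥ v) = 0 := by
  have h1 : v ⬝ᵥ (B *ᵥ v) = -(v ⬝ᵥ (B *ᵥ v)) := by
    calc v ⬝ᵥ (B *ᵥ v) = (v ᵥ* B) ⬝ᵥ v := Matrix.dotProduct_mulVec _ _ _
      _ = (Bᵀ *ᵥ v) ⬝ᵥ v := by rw [Matrix.mulVec_transpose]
      _ = -((B *ᵥ v) ⬝ᵥ v) := by rw [hB, Matrix.neg_mulVec, neg_dotProduct]
      _ = -(v ⬝ᵥ (B *ᵥ v)) := by rw [dotProduct_comm]
  exact self_eq_neg.1 h1

theorem pbp {B : Matrix (Fin m) (Fin m) ℂ} (hB : Bᵀ = -B) (v : Fin m → ℂ) :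
    Matrix.vecMulVec v v * (B * Matrix.vecMulVec v v) = 0 := by
  rw [Matrix.mul_vecMulVec, Matrix.vecMulVec_mul_vecMulVec, form_zero hB v, zero_smul]
  ext i j
  simp [Matrix.vecMulVec_apply]

end TVSP_

open TVSP_ in
/-- **DRB-TVSP** -/
theorem p_TVSP : T_TVSP := by
  intro m E hE v s
  have hu : IsUnit E.det := (Matrix.isUnit_iff_isUnit_det E).1 hE.2
  have h1 : E * E⁻¹ = 1 := Matrix.mul_nonsing_inv E hu
  have h2 : E⁻¹ * E = 1 := Matrix.nonsing_inv_mul E hu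
  have hB := inv_tr hE
  have hP := pbp hB v
  have hN2 : tv E v * tv E v = 0 := by
    unfold tv
    calc Matrix.vecMulVec v v * E⁻¹ * (Matrix.vecMulVec v v * E⁻¹)
        = (Matrix.vecMulVec v v * (E⁻¹ * Matrix.vecMulVec v v)) * E⁻¹ := by
          simp only [Matrix.mul_assoc]
      _ = 0 := by rw [hP, Matrix.zero_mul]
  have hPt : (Matrix.vecMulVec v v)ᵀ = Matrix.vecMulVec v v := by
    ext i j
    simp [Matrix.vecMulVec_apply, mul_comm]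
  have hNt : (tv E v)ᵀ = -(E⁻¹ * Matrix.vecMulVec v v) := by
    unfold tv
    rw [Matrix.transpose_mul, hPt, hB, Matrix.neg_mul]
  have hNE : tv E v * E = Matrix.vecMulVec v v := by
    unfold tv
    rw [Matrix.mul_assoc, h2, Matrix.mul_one]
  have hEN : E * (tv E v)ᵀ = -Matrix.vecMulVec v v := by
    rw [hNt, Matrix.mul_neg, ← Matrix.mul_assoc, h1, Matrix.one_mul]
  have hNEN : tv E v * E * (tv E v)ᵀ = 0 := by
    rw [hNE, hNt, Matrix.mul_neg, hP, neg_zero]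
  refine ⟨?_, hN2, ?_⟩
  · show (1 + s • tv E v) * E * (1 + s • tv E v)ᵀ = E
    rw [Matrix.transpose_add, Matrix.transpose_one, Matrix.transpose_smul, add_mul, add_mul,
      mul_add, mul_add, Matrix.one_mul, Matrix.mul_one, Matrix.mul_one, Matrix.smul_mul,
      Matrix.mul_smul, Matrix.smul_mul, Matrix.mul_smul, hEN, hNEN, hNE]
    simp
  · have e : ∀ M : Matrix (Fin m) (Fin m) ℂ, (1 + M) * (1 - M) = 1 - M * M := by
      intro M
      noncomm_ring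
    rw [e, Matrix.smul_mul, Matrix.mul_smul, hN2]
    simp

end Pool.Agent.DRB
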