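import Pool.Agent.DRB.Targets

/-!
# UNIT: finite groups of matrices are unitary for a suitable basis
-/

set_option autoImplicit false

open Matrix
open scoped MatrixOrder ComplexOrder

namespace Pool.Agent.DRB

theorem p_UNIT : T_UNIT := by
  intro m F h1 hmul hunit
  classical
  -- the invariant form
  have hpd : (∑ f ∈ F, fᴴ * f : Matrix (Fin m) (Fin m) ℂ).PosDef := by
    rw [← Finset.add_sum_erase F (fun f => fᴴ * f) h1]
    refine Matrix.PosDef.add_posSemidef ?_ ?_
    · simpa using (Matrix.PosDef.one : (1 : Matrix (Fin m) (Fin m) ℂ).PosDef)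
    · exact Matrix.posSemidef_sum _ fun f _ => Matrix.posSemidef_conjTranspose_mul_self f
  obtain ⟨P, hP⟩ := CStarAlgebra.nonneg_iff_eq_star_mul_self.mp hpd.posSemidef.nonneg
  have hPu : IsUnit P := by
    have h2 : IsUnit (star P * P) := by
      rw [← hP]; exact hpd.isUnit
    rw [Matrix.isUnit_iff_isUnit_det, Matrix.det_mul] at h2
    rw [Matrix.isUnit_iff_isUnit_det]
    exact isUnit_of_mul_isUnit_right h2
  have hPd : IsUnit P.det := (Matrix.isUnit_iff_isUnit_det P).mp hPu
  refine ⟨P, hPu, fun f hf => ?_⟩
  -- right multiplication by `f` permutes `F`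
  have himg : F.image (fun g => g * f) = F := by
    apply Finset.eq_of_subset_of_card_le
    · intro x hx
      obtain ⟨g, hg, rfl⟩ := Finset.mem_image.mp hx
      exact hmul g hg f hf
    · rw [Finset.card_image_of_injective]
      intro a b hab
      exact (hunit f hf).mul_left_injective hab
  have hinv : star f * (star P * P) * f = star P * P := by
    rw [← hP]
    conv_rhs => rw [← himg]
    rw [Finset.sum_image]
    · rw [Finset.mul_sum, Finset.sum_mul]
      refine Finset.sum_congr rfl fun g _ => ?_
      rw [Matrix.conjTranspose_mul, Matrix.star_eq_conjTranspose]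
      simp only [Matrix.mul_assoc]
    · intro a _ b _ hab
      exact (hunit f hf).mul_left_injective hab
  rw [Matrix.mem_unitaryGroup_iff']
  have hPP : P * P⁻¹ = 1 := Matrix.mul_nonsing_inv P hPd
  have hsPP : star P⁻¹ * star P = 1 := by
    rw [← star_mul, hPP, star_one]
  calc star (P * f * P⁻¹) * (P * f * P⁻¹)
      = star P⁻¹ * (star f * (star P * P) * f) * P⁻¹ := by
        rw [star_mul, star_mul]
        simp only [Matrix.mul_assoc]
    _ = (star P⁻¹ * star P) * (P * P⁻¹) := by
        rw [hinv]; simp only [Matrix.mul_assoc]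
    _ = 1 := by rw [hsPP, hPP, Matrix.one_mul]

end Pool.Agent.DRB
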