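import Pool.Agent.DRB.TMUL
import Pool.Agent.DRB.TCNJ
import Pool.Agent.DRB.TDER
import Pool.Agent.DRB.TEXP
import Pool.Agent.DRB.LINR
import Pool.Agent.DRB.CXA
import Pool.Agent.DRB.RATL
import Pool.Agent.DRB.DRVL
import Pool.Agent.DRB.SIGL
import Pool.Agent.DRB.FIXQ
import Pool.Agent.DRB.DERQ
import Pool.Agent.DRB.CSTR
import Pool.Agent.DRB.GENT
import Pool.Agent.DRB.TVSP
import Pool.Agent.DRB.TRVS
import Pool.Agent.DRB.SCAL
import Pool.Agent.DRB.ADST
import Pool.Agent.DRB.DICH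
import Pool.Agent.DRB.FGRP
import Pool.Agent.DRB.FSIG
import Pool.Agent.DRB.FALG
import Pool.Agent.DRB.FFIN
import Pool.Agent.DRB.UNIT
import Pool.Agent.DRB.CMUT
import Pool.Agent.DRB.FROB
import Pool.Agent.DRB.PACK
import Pool.Agent.DRB.JORD
import Pool.Agent.DRB.COMR
import Pool.Agent.DRB.COMM
import Pool.Agent.DRB.STAB
import Pool.Agent.DRB.CARD
import Pool.Agent.DRB.MINP
import Pool.Agent.DRB.HOMG
import Pool.Agent.DRB.MAIN
import Pool.Agent.DRB.CORE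

/-!
# Relations of bounded degree determine all sub-structures: assembly
-/

set_option autoImplicit false

namespace Pool.Agent.DRB

theorem a_TRVS : T_TRVS := p_TRVS p_TVSP

theorem a_SCAL : T_SCAL := p_SCAL p_TVSP

theorem a_ADST : T_ADST := p_ADST p_TCNJ p_CXA p_RATL p_LINR

theorem a_DICH : T_DICH := p_DICH a_ADST a_TRVS p_TVSP p_TEXP p_GENT p_TMUL p_LINR

theorem a_FGRP : T_FGRP := p_FGRP p_TMUL p_SIGL

theorem a_FSIG : T_FSIG := p_FSIG p_TMUL p_SIGL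

theorem a_FALG : T_FALG := p_FALG p_TDER p_DRVL p_DERQ

theorem a_FFIN : T_FFIN := p_FFIN p_CSTR p_CXA p_TMUL

theorem a_FROB : T_FROB := p_FROB p_CMUT

theorem a_JORD : T_JORD := p_JORD p_UNIT a_FROB p_PACK

theorem a_COMR : T_COMR := p_COMR p_FIXQ

theorem a_COMM : T_COMM := p_COMM a_COMR p_FIXQ

theorem a_STAB : T_STAB := p_STAB a_COMM

theorem a_CARD : T_CARD := p_CARD a_JORD a_STAB a_SCAL

theorem a_MINP : T_MINP := p_MINP p_FIXQ

theorem a_HOMG : T_HOMG := p_HOMG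

theorem a_MAIN : T_MAIN := p_MAIN a_CARD a_MINP a_HOMG

theorem a_CORE : T_CORE := p_CORE a_DICH a_FGRP a_FSIG a_FALG a_FFIN a_MAIN p_TMUL

end Pool.Agent.DRB
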