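import Pool.Agent.DRB.Targets

/-!
# DRB-DICH: either `l0` is bad or `W'` is stable under the symplectic group
-/

set_option autoImplicit false

open Matrix

namespace Pool.Agent.DRB

namespace DICH_

theorem tot_mul {k n : ℕ} {d : Fin n → ℕ} (X0 Y0 : Matrix (Fin k) (Fin k) ℂ) (X Y : Fam d) :
    tot X0 X * tot Y0 Y = tot (X0 * Y0) (fun l => X l * Y l) := by
  unfold tot
  rw [Matrix.fromBlocks_multiply, ← Matrix.blockDiagonal'_mul]
  simp

theorem tot_one {k n : ℕ} {d : Fin n → ℕ} :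
    tot (1 : Matrix (Fin k) (Fin k) ℂ) (1 : Fam d) = 1 := by
  unfold tot
  rw [Matrix.blockDiagonal'_one, Matrix.fromBlocks_one]

theorem tot_lin {k n : ℕ} {d : Fin n → ℕ} (s : ℂ) (X0 Y0 : Matrix (Fin k) (Fin k) ℂ)
    (X Y : Fam d) : tot (s • X0 + Y0) (s • X + Y) = s • tot X0 X + tot Y0 Y := by
  unfold tot
  rw [Matrix.blockDiagonal'_add, Matrix.blockDiagonal'_smul, Matrix.fromBlocks_smul,
    Matrix.fromBlocks_add]
  simp

theorem tot_zero {k n : ℕ} {d : Fin n → ℕ} :
    tot (0 : Matrix (Fin k) (Fin k) ℂ) (0 : Fam d) = 0 := by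
  unfold tot
  rw [Matrix.blockDiagonal'_zero, Matrix.fromBlocks_zero]

theorem sp_one {m : ℕ} (E : Matrix (Fin m) (Fin m) ℂ) : (1 : Matrix (Fin m) (Fin m) ℂ) ∈ Sp E := by
  show 1 * E * 1ᵀ = E
  rw [Matrix.transpose_one, one_mul, mul_one]

theorem sp_inv {m : ℕ} (E : Matrix (Fin m) (Fin m) ℂ) (hE : IsUnit E)
    (f : Matrix (Fin m) (Fin m) ℂ) (hf : f ∈ Sp E) : IsUnit f.det ∧ f⁻¹ ∈ Sp E := by
  have e2 : f * E * fᵀ = E := hf
  have hdE : IsUnit E.det := (Matrix.isUnit_iff_isUnit_det _).1 hE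
  have hfu : IsUnit f := by
    have h3 : f * (E * fᵀ * E⁻¹) = 1 := by
      rw [← Matrix.mul_assoc, ← Matrix.mul_assoc, e2, Matrix.mul_nonsing_inv _ hdE]
    exact IsUnit.of_mul_eq_one _ h3
  have hdf : IsUnit f.det := (Matrix.isUnit_iff_isUnit_det _).1 hfu
  refine ⟨hdf, ?_⟩
  show f⁻¹ * E * (f⁻¹)ᵀ = E
  calc f⁻¹ * E * (f⁻¹)ᵀ = f⁻¹ * (f * E * fᵀ) * (f⁻¹)ᵀ := by rw [e2]
    _ = (f⁻¹ * f) * E * (f⁻¹ * f)ᵀ := by
        rw [Matrix.transpose_mul]
        simp only [Matrix.mul_assoc]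
    _ = E := by rw [Matrix.nonsing_inv_mul _ hdf, Matrix.transpose_one, one_mul, mul_one]

theorem upd_mul {n : ℕ} {d : Fin n → ℕ} (l0 : Fin n) (g g' : Matrix (Fin (d l0)) (Fin (d l0)) ℂ) :
    (fun l => Function.update (1 : Fam d) l0 g l * Function.update (1 : Fam d) l0 g' l) =
      Function.update (1 : Fam d) l0 (g * g') := by
  funext l
  by_cases h : l = l0
  · subst h
    rw [Function.update_self, Function.update_self, Function.update_self]
  · rw [Function.update_of_ne h, Function.update_of_ne h, Function.update_of_ne h]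
    exact one_mul _

theorem dtens_zero (h7 : T_LINR) (I : Type) [Fintype I] [DecidableEq I] (r : ℕ)
    (a : Fin r → ℕ) : dtens a (0 : Fin r → ℂ) (0 : Matrix I I ℂ) = 0 := by
  have h := h7 I r a (-1) 0 0 0 0
  rw [smul_zero, add_zero, smul_zero, add_zero, neg_one_smul, neg_add_cancel] at h
  exact h

/-- the subspace of the elements preserving `W'` -/
def PU (h7 : T_LINR) {k n : ℕ} {d : Fin n → ℕ} {r : ℕ} (a : Fin r → ℕ)
    (W' : Submodule ℚ (TI (Ix k d) a → ℚ)) :
    Submodule ℂ ((Fin r → ℂ) × Matrix (Fin k) (Fin k) ℂ × Fam d) where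
  carrier := {p | Pres a W' p.1 p.2.1 p.2.2}
  add_mem' := by
    intro p q hp hq v hv
    have h := h7 (Ix k d) r a 1 p.1 q.1 (tot p.2.1 p.2.2) (tot q.2.1 q.2.2)
    have e1 : tot (p + q).2.1 (p + q).2.2 = (1 : ℂ) • tot p.2.1 p.2.2 + tot q.2.1 q.2.2 := by
      rw [← tot_lin, one_smul, one_smul]
      rfl
    have e2 : (p + q).1 = (1 : ℂ) • p.1 + q.1 := by
      rw [one_smul]
      rfl
    show (dtens a (p + q).1 (tot (p + q).2.1 (p + q).2.2)) *ᵥ v ∈ cx W'
    rw [e1, e2, h, Matrix.add_mulVec, one_smul]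
    exact (cx W').add_mem (hp v hv) (hq v hv)
  zero_mem' := by
    intro v _
    show (dtens a (0 : Fin r → ℂ) (tot (0 : Matrix (Fin k) (Fin k) ℂ) (0 : Fam d))) *ᵥ v ∈ cx W'
    rw [tot_zero, dtens_zero h7, Matrix.zero_mulVec]
    exact (cx W').zero_mem
  smul_mem' := by
    intro s p hp v hv
    have h := h7 (Ix k d) r a s p.1 0 (tot p.2.1 p.2.2) 0
    rw [dtens_zero h7, add_zero, add_zero, add_zero] at h
    have e1 : tot (s • p).2.1 (s • p).2.2 = s • tot p.2.1 p.2.2 := by
      have := tot_lin s p.2.1 0 p.2.2 0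
      rw [tot_zero, add_zero, add_zero, add_zero] at this
      exact this
    show (dtens a (s • p).1 (tot (s • p).2.1 (s • p).2.2)) *ᵥ v ∈ cx W'
    rw [e1]
    show (dtens a (s • p.1) (s • tot p.2.1 p.2.2)) *ᵥ v ∈ cx W'
    rw [h, Matrix.smul_mulVec]
    exact (cx W').smul_mem s (hp v hv)

/-- the matrices `g` such that `cx W'` is stable under `g` acting at `l0` -/
def GG (h6 : T_TMUL) {k n : ℕ} {d : Fin n → ℕ} {r : ℕ} (a : Fin r → ℕ)
    (W' : Submodule ℚ (TI (Ix k d) a → ℚ)) (l0 : Fin n) :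
    Submonoid (Matrix (Fin (d l0)) (Fin (d l0)) ℂ) where
  carrier := {g | ∀ v ∈ cx W',
    (tens a 1 (tot (1 : Matrix (Fin k) (Fin k) ℂ) (Function.update (1 : Fam d) l0 g))) *ᵥ v ∈
      cx W'}
  mul_mem' := by
    intro g g' hg hg' v hv
    have h := (h6 (Ix k d) r a 1 1
      (tot (1 : Matrix (Fin k) (Fin k) ℂ) (Function.update (1 : Fam d) l0 g))
      (tot (1 : Matrix (Fin k) (Fin k) ℂ) (Function.update (1 : Fam d) l0 g'))).1
    rw [tot_mul, upd_mul, one_mul] at h
    have e1 : (fun i => (1 : Fin r → ℂ) i * (1 : Fin r → ℂ) i) = 1 := by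
      funext i
      exact one_mul _
    rw [e1] at h
    rw [← h, ← Matrix.mulVec_mulVec]
    exact hg _ (hg' v hv)
  one_mem' := by
    intro v hv
    have e1 : Function.update (1 : Fam d) l0 1 = 1 := Function.update_eq_self l0 1
    rw [e1, tot_one, (h6 (Ix k d) r a 1 1 1 1).2, Matrix.one_mulVec]
    exact hv

end DICH_

open DICH_ in
theorem p_DICH (h1 : T_ADST) (h2 : T_TRVS) (h3 : T_TVSP) (h4 : T_TEXP) (h5 : T_GENT)
    (h6 : T_TMUL) (h7 : T_LINR) : T_DICH := by
  intro k n d S hBD r a c W W' hsub l0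
  by_cases hbad : Bad a W' S.E l0
  · exact Or.inl hbad
  right
  unfold Bad at hbad
  push Not at hbad
  obtain ⟨x, X0, X, hX, hXg, hXn⟩ := hbad
  have hE : Alt (toC (S.E l0)) := S.hE l0
  -- stability of the subspace
  have hU : ∀ p ∈ PU h7 a W', ∀ h ∈ Sp (toC (S.E l0)),
      (p.1, p.2.1, Function.update p.2.2 l0 (h * p.2.2 l0 * h⁻¹)) ∈ PU h7 a W' := by
    intro p hp h hh
    have key := h1 k n d S hBD r a c W W' hsub p.1 p.2.1 p.2.2 hp
      (Function.update (1 : Fam d) l0 h) (by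
        intro l
        by_cases hl : l = l0
        · subst hl
          rw [Function.update_self]
          exact hh
        · rw [Function.update_of_ne hl]
          exact sp_one _)
    have e1 : (fun l => Function.update (1 : Fam d) l0 h l * p.2.2 l *
        (Function.update (1 : Fam d) l0 h l)⁻¹) =
        Function.update p.2.2 l0 (h * p.2.2 l0 * h⁻¹) := by
      funext l
      by_cases hl : l = l0
      · subst hl
        rw [Function.update_self, Function.update_self]
      · rw [Function.update_of_ne hl, Function.update_of_ne hl, Pi.one_apply, inv_one, one_mul,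
          mul_one]
    rw [e1] at key
    exact key
  have hN := h2 r k n d (fun l => toC (S.E l)) l0 hE (PU h7 a W') hU (x, X0, X) hX hXg
    (by
      rintro ⟨c, hc⟩
      exact hXn c hc)
  -- the transvections
  have htv : ∀ (v : Fin (d l0) → ℂ) (s : ℂ), 1 + s • tv (toC (S.E l0)) v ∈ GG h6 a W' l0 := by
    intro v s
    set N : Matrix (Ix k d) (Ix k d) ℂ :=
      tot 0 (Pi.single l0 (tv (toC (S.E l0)) v) : Fam d) with hNdef
    have hNN : N * N = 0 := by
      rw [hNdef, tot_mul, mul_zero]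
      have e1 : (fun l => (Pi.single l0 (tv (toC (S.E l0)) v) : Fam d) l *
          (Pi.single l0 (tv (toC (S.E l0)) v) : Fam d) l) = 0 := by
        funext l
        by_cases hl : l = l0
        · subst hl
          rw [Pi.single_eq_same]
          exact (h3 (d l) (toC (S.E l)) hE v s).2.1
        · rw [Pi.single_eq_of_ne hl, mul_zero]
          rfl
      rw [e1, tot_zero]
    have hst : ∀ w ∈ cx W', (dtens a 0 N) *ᵥ w ∈ cx W' := fun w hw => hN v w hw
    have key := h4 (Ix k d) r a N (cx W') hNN hst s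
    intro w hw
    have h8 := key w hw
    have e2 : (1 : Matrix (Ix k d) (Ix k d) ℂ) + s • N =
        tot (1 : Matrix (Fin k) (Fin k) ℂ)
          (Function.update (1 : Fam d) l0 (1 + s • tv (toC (S.E l0)) v)) := by
      have h9 := tot_lin s 0 (1 : Matrix (Fin k) (Fin k) ℂ)
        (Pi.single l0 (tv (toC (S.E l0)) v) : Fam d) 1
      rw [tot_one, smul_zero, zero_add, ← hNdef] at h9
      rw [add_comm, ← h9]
      congr 1
      funext l
      by_cases hl : l = l0
      · subst hl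
        rw [Function.update_self, Pi.add_apply, Pi.smul_apply, Pi.single_eq_same, Pi.one_apply,
          add_comm]
      · rw [Function.update_of_ne hl, Pi.add_apply, Pi.smul_apply, Pi.single_eq_of_ne hl,
          smul_zero, zero_add]
    rw [e2] at h8
    exact h8
  have hall : ∀ h ∈ Sp (toC (S.E l0)), h ∈ GG h6 a W' l0 := h5 _ _ hE _ htv
  intro h hh
  obtain ⟨hdh, hinv⟩ := sp_inv _ hE.2 h hh
  apply le_antisymm
  · rintro w ⟨v, hv, rfl⟩
    exact hall h hh v hv
  · intro w hw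
    refine ⟨(tens a 1 (tot (1 : Matrix (Fin k) (Fin k) ℂ)
      (Function.update (1 : Fam d) l0 h⁻¹))) *ᵥ w, hall _ hinv w hw, ?_⟩
    have h8 := (h6 (Ix k d) r a 1 1
      (tot (1 : Matrix (Fin k) (Fin k) ℂ) (Function.update (1 : Fam d) l0 h))
      (tot (1 : Matrix (Fin k) (Fin k) ℂ) (Function.update (1 : Fam d) l0 h⁻¹))).1
    rw [tot_mul, upd_mul, one_mul, Matrix.mul_nonsing_inv _ hdh] at h8
    have e1 : (fun i => (1 : Fin r → ℂ) i * (1 : Fin r → ℂ) i) = 1 := by
      funext i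
      exact one_mul _
    have e3 : Function.update (1 : Fam d) l0 1 = 1 := Function.update_eq_self l0 1
    rw [e1, e3, tot_one, (h6 (Ix k d) r a 1 1 1 1).2] at h8
    rw [Matrix.mulVecLin_apply, Matrix.mulVec_mulVec, h8, Matrix.one_mulVec]

end Pool.Agent.DRB
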